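import Pool.Agent.Work.MP_c71557_gt.K.ElEm
import Pool.Agent.Work.MP_c71557_gt.H.RelAcy
import Pool.Agent.Work.MP_c71557_gt.H.ActDir

set_option autoImplicit false
set_option linter.unusedVariables false

/-!
# MP_c71557_gt, module K/ElEc: neighbourhoods of a radial chord, homogeneous geometry (M-L)

`S1C.El.restrIncl PEC` is (by definition) `idFun` of `fun a => a.1`; `quillenA_over`.  Let
`b = ((U, A), c)`, `c = c1 x y` radial.

CASE 1: `0 ∈ chs c`.  Then `0 ∈ U`, so `U = univ` (an open cone containing `0`: every `z` is `t • z'` with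
`z'` near `0`).  All `l ∈ A` vanish at `0`, hence at `x` and on the line `m` of `c` (`chs_nbhd`; `Same A x 0`);
they are proportional to `m`, `m.c = 0`.  `acy_over_top` with `a0 = ((univ, {m}), c1 x y)`, `g0 = 1`.
`htop`: `g : a = ((V, {m'}), c') → b`; `k = g` is a cell map `(V, {m'}) → (univ, {m})`: apply `ext_bi` to
`g` on `V` (`x0 ∈ chs c'`): `Bi m' L b'`, `b' = g` on `V`; `L` vanishes on `g (chs c') ⊆ chs c`, at least two
points, so `m.ev = κ * L.ev` (`Ln_prop`), and `sign (m (g y)) = ± sign (L (g y)) = ± sign (m' y)` with a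
fixed sign; affine: `g` is affine on the cells of `(V, {m'})`.  `act k c' = c` in `(univ, {m})`: the same
`s`, `t`.
CASE 2: `0 ∉ chs c`.  `acy_over_rel` with `S = PUnit`, `r = fun _ _ _ => True` (only `h2` is to be proved).
Existence: `m, W` from `chs_nbhd` (`m.c = 0`); `nbh_cone` gives `V ∈ gCnf.U`, `x ∈ V ⊆ W`; `a3 = ((V, {m}),
c1 x (x + τ (y - x)))`, `τ > 0` small, `g3 = 1`.  (Radial: `chs c` is on a line through `0`.)
Lower bounds: `g_i : a_i = ((V_i, {m_i}), c_i) → b`.  `chs c_i` does not contain `0` (else `g_i 0 = 0 ∈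
chs c`, `chs_act`), so `chs c_i` is an open ray `{t x_i | t > 0}` (radial; closed under positive
multiples because the cell of a cone is a cone; connected, without `0`), mapped by `g_i` onto a set closed
under positive multiples in `chs c`, which is the open ray `{t x | t > 0}`; so
`g_1 (chs c_1) = chs c = g_2 (chs c_2)`.  `W = {y ∈ V_1 | g2⁻¹ (g1 y) ∈ V_2}` is open, a cone, and contains
`x1 ∈ chs c_1`; `V` from `nbh_cone`.  `a3 = ((V, {m_1}), c1 x1 (x1 + τ (y1 - x1)))`, `g3 = g1`, `k1 = 1`,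
`k2 = g2⁻¹ * g1`: a cell map by `cmp_cell` (apply it to the images under `kOb`: `PEC` gives `PE`, an
arrow of `S1C.El` is an arrow of `gPLf.S1.El` by `kAdm`, `xi1`).  `act k2 (c1 p q) = c_2` as in K/ElEo.
-/

noncomputable section

namespace C715

open Ang CategoryTheory

/-- from the homogeneous to the piecewise linear geometry -/
private def ko (o : S1C.El.Ob) : gPLf.S1.El.Ob := ⟨kOb o.1, o.2.1⟩

private theorem ko_adm {p q : S1C.El.Ob} {g : FGr} (h : S1C.El.Adm p g q) :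
    gPLf.S1.El.Adm (ko p) g (ko q) := by
  obtain ⟨h, e⟩ := h
  refine ⟨kAdm h, ?_⟩
  have h1 : gCnf.S1.act h p.2.1 = q.2.1 := congrArg Subtype.val e
  exact (xi1 h p.2.1).symm.trans h1

private theorem rad_mem {p q : S1C.El.Ob} {g : FGr} (h : S1C.El.Adm p g q) {z : P2}
    (hz : z ∈ chs p.2.1) : g.g z ∈ chs q.2.1 := by
  obtain ⟨h, e⟩ := h
  have h1 : gCnf.S1.act h p.2.1 = q.2.1 := congrArg Subtype.val e
  rw [← h1]
  exact chs_act gCnf h p.2.1 hz

/-- two points on a line through the origin -/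
private theorem par {m : Ln} (hm : m.c = 0) {z z' : P2} (h : m.ev z = 0) (h' : m.ev z' = 0) :
    z.1 * z'.2 = z.2 * z'.1 := by
  unfold Ln.ev at h h'
  rw [hm, add_zero] at h h'
  rcases m.ne with h1 | h1
  · have : m.a * (z.1 * z'.2 - z.2 * z'.1) = 0 := by linear_combination z'.2 * h - z.2 * h'
    rcases mul_eq_zero.1 this with h2 | h2
    · exact absurd h2 h1
    · linarith
  · have : m.b * (z.1 * z'.2 - z.2 * z'.1) = 0 := by linear_combination z.1 * h' - z'.1 * h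
    rcases mul_eq_zero.1 this with h2 | h2
    · exact absurd h2 h1
    · linarith

/-- points of a radial chord which does not contain the origin are positive multiples -/
private theorem ray {U : Set P2} (hU : IsOpen U) (hU' : Convex ℝ U) {A : Finset Ln}
    {c : S1T U A} (hc : c ∈ Ce U A) (h0 : (0 : P2) ∉ chs c) {z z' : P2} (hz : z ∈ chs c)
    (hz' : z' ∈ chs c) : ∃ t : ℝ, 0 < t ∧ z' = t • z := by
  obtain ⟨m, W, hW, hWU, hcW, hm0, hsame, hmc, hcone⟩ := chs_nbhd hU A c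
  have hp := par (hmc hc) (hm0 z hz) (hm0 z' hz')
  have hz0 : z ≠ 0 := fun h => h0 (h ▸ hz)
  obtain ⟨t, ht⟩ : ∃ t : ℝ, z' = t • z := by
    by_cases h1 : z.1 = 0
    · have h2 : z.2 ≠ 0 := fun h2 => hz0 (Prod.ext h1 h2)
      have h3 : z'.1 = 0 := by
        rw [h1, zero_mul] at hp
        exact (mul_eq_zero.1 hp.symm).resolve_left h2
      refine ⟨z'.2 / z.2, Prod.ext ?_ ?_⟩
      · change z'.1 = z'.2 / z.2 * z.1
        rw [h3, h1, mul_zero]
      · change z'.2 = z'.2 / z.2 * z.2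
        rw [div_mul_cancel₀ _ h2]
    · refine ⟨z'.1 / z.1, Prod.ext ?_ ?_⟩
      · change z'.1 = z'.1 / z.1 * z.1
        rw [div_mul_cancel₀ _ h1]
      · change z'.2 = z'.1 / z.1 * z.2
        rw [div_mul_eq_mul_div, eq_div_iff h1]
        linarith
  refine ⟨t, ?_, ht⟩
  by_contra hle
  have hle : t ≤ 0 := not_lt.1 hle
  refine h0 ((chs_conv hU' c).segment_subset hz hz' ?_)
  refine ⟨(-t) / (1 - t), 1 / (1 - t), div_nonneg (by linarith) (by linarith),
    div_nonneg zero_le_one (by linarith), ?_, ?_⟩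
  · rw [← add_div]
    have : (1 - t) ≠ 0 := by linarith
    field_simp
    ring
  · rw [ht, smul_smul, ← add_smul]
    have : -t / (1 - t) + 1 / (1 - t) * t = 0 := by ring
    rw [this, zero_smul]

/-- an open cone which contains the origin is the plane -/
private theorem cone_univ {W : Set P2} (hW : IsOpen W)
    (h : ∀ (t : ℝ) (z : P2), 0 < t → z ∈ W → t • z ∈ W) (h0 : (0 : P2) ∈ W) (z : P2) : z ∈ W := by
  have h2 : Filter.Tendsto (fun t : ℝ => t • z) (nhds 0) (nhds (0 : P2)) := by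
    have h3 : Continuous (fun t : ℝ => t • z) := continuous_id.smul continuous_const
    have h4 := h3.tendsto 0
    rwa [zero_smul] at h4
  have h3 := h2.eventually (hW.mem_nhds h0)
  obtain ⟨ε, hε, h5⟩ := Metric.eventually_nhds_iff.1 h3
  have h6 := h5 (y := ε / 2) (by
    rw [Real.dist_eq, sub_zero, abs_of_pos (half_pos hε)]
    exact half_lt_self hε)
  have h7 := h (ε / 2)⁻¹ _ (inv_pos.2 (half_pos hε)) h6
  rwa [smul_smul, inv_mul_cancel₀ (half_pos hε).ne', one_smul] at h7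

/-- a short segment -/
private theorem short {V : Set P2} (hV : IsOpen V) {x : P2} (hx : x ∈ V) (v : P2) :
    ∃ τ : ℝ, 0 < τ ∧ x + τ • v ∈ V := by
  have h2 : Filter.Tendsto (fun t : ℝ => x + t • v) (nhds 0) (nhds x) := by
    have h3 : Continuous (fun t : ℝ => x + t • v) :=
      continuous_const.add (continuous_id.smul continuous_const)
    have h4 := h3.tendsto 0
    rwa [zero_smul, add_zero] at h4
  have h3 := h2.eventually (hV.mem_nhds hx)
  obtain ⟨ε, hε, h5⟩ := Metric.eventually_nhds_iff.1 h3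
  exact ⟨ε / 2, half_pos hε, h5 (y := ε / 2) (by
    rw [Real.dist_eq, sub_zero, abs_of_pos (half_pos hε)]
    exact half_lt_self hε)⟩

private theorem sing_same {m : Ln} {x y : P2} (h : m.ev x = 0) (h' : m.ev y = 0) :
    Same {m} x y := fun l hl => by
  rw [Finset.mem_singleton.1 hl, h, h']

private def mkS (V : Set P2) (hV : V ∈ gCnf.U) (m : Ln) (hm : m.c = 0) : gCnf.Str.Ob :=
  ⟨(V, {m}), hV, fun l hl => by
    rw [Finset.mem_singleton.1 hl]
    exact hm⟩

private def mkO (V : Set P2) (hV : V ∈ gCnf.U) (m : Ln) (hm : m.c = 0) (x y : P2) (hx : x ∈ V)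
    (hy : y ∈ V) (hne : x ≠ y) (h0 : m.ev x = 0) (h0' : m.ev y = 0) : (S1C.El.restr PEC).Ob :=
  ⟨⟨mkS V hV m hm, ⟨c1 x y hx hy hne (sing_same h0 h0'), par hm h0 h0'⟩⟩,
    ⟨⟨m, rfl⟩, fun h => h m (Finset.mem_singleton_self _) h0⟩⟩

private theorem ev_seg {m : Ln} {x y : P2} (h0 : m.ev x = 0) (h0' : m.ev y = 0) (τ : ℝ) :
    m.ev (x + τ • (y - x)) = 0 := by
  have h1 := m.ev_sub x (x + τ • (y - x))
  rw [add_sub_cancel_left, Ln.lin_smul, ← Ln.ev_sub, h0, h0', sub_self, mul_zero, sub_zero] at h1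
  exact h1

private theorem ne_seg {x y : P2} (hne : x ≠ y) {τ : ℝ} (hτ : 0 < τ) :
    x ≠ x + τ • (y - x) := by
  intro h
  have h1 : τ • (y - x) = 0 := by
    have := congrArg (fun z => z - x) h
    simpa using this.symm
  rcases smul_eq_zero.1 h1 with h2 | h2
  · exact hτ.ne' h2
  · exact hne (sub_eq_zero.1 h2).symm

/-- the chord of an object -/
private theorem obj_cases (a : (S1C.El.restr PEC).Ob) : ∃ (V : Set P2) (hV : V ∈ gCnf.U) (m : Ln)
    (hm : m.c = 0) (x y : P2) (hx : x ∈ V) (hy : y ∈ V) (hne : x ≠ y) (h0 : m.ev x = 0)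
    (h0' : m.ev y = 0), a = mkO V hV m hm x y hx hy hne h0 h0' := by
  obtain ⟨⟨⟨⟨V, A⟩, hV, hA⟩, ⟨c, hc⟩⟩, ⟨m, hm⟩, hn⟩ := a
  change A = {m} at hm
  subst hm
  change ¬ (c ∈ NW V {m}) at hn
  induction c using c1_ind with
  | h x y hx hy hne e =>
    have h0 : m.ev x = 0 := by
      by_contra h0
      exact hn fun l hl => by
        rw [Finset.mem_singleton.1 hl]
        exact h0
    have h0' : m.ev y = 0 := by
      have h2 := e m (Finset.mem_singleton_self _)
      rw [h0, sign_zero] at h2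
      exact sign_eq_zero_iff.1 h2.symm
    exact ⟨V, hV, m, hA m (Finset.mem_singleton_self _), x, y, hx, hy, hne, h0, h0', rfl⟩

private theorem act_c1 {p q : gCnf.Str.Ob} {g : FGr} (h : gCnf.Str.Adm p g q) {x y x' y' : P2}
    (hx : x ∈ p.1.1) (hy : y ∈ p.1.1) (hne : x ≠ y) (e : Same p.1.2 x y)
    (hc : c1 x y hx hy hne e ∈ Ce p.1.1 p.1.2) (hx' : x' ∈ q.1.1) (hy' : y' ∈ q.1.1)
    (hne' : x' ≠ y') (e' : Same q.1.2 x' y') (hc' : c1 x' y' hx' hy' hne' e' ∈ Ce q.1.1 q.1.2) :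
    S1C.act h (⟨c1 x y hx hy hne e, hc⟩ : S1C.X p) = (⟨c1 x' y' hx' hy' hne' e', hc'⟩ : S1C.X q) ↔
      Same q.1.2 (g.g x) x' ∧ (∃ s : ℝ, x' - g.g x = s • (g.g y - g.g x)) ∧
        ∃ t : ℝ, 0 < t ∧ y' - x' = t • (g.g y - g.g x) :=
  Subtype.ext_iff.trans (c1_eq (hx := h.2.1 x hx) (hy := h.2.1 y hy)
    (hne := fun k => hne (g.g.injective k)) (h := h.2.2.1 x hx y hy e) (hx' := hx') (hy' := hy')
    (hne' := hne') (h' := e'))

private theorem self_chs {U : Set P2} {A : Finset Ln} {x y : P2} (hx : x ∈ U) (hy : y ∈ U)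
    (hne : x ≠ y) (e : Same A x y) : x ∈ chs (c1 x y hx hy hne e) :=
  mem_chs.2 ⟨hx, Same.refl _ _, 0, by rw [sub_self, zero_smul]⟩

private theorem self_chs' {U : Set P2} {A : Finset Ln} {x y : P2} (hx : x ∈ U) (hy : y ∈ U)
    (hne : x ≠ y) (e : Same A x y) : y ∈ chs (c1 x y hx hy hne e) :=
  mem_chs.2 ⟨hy, e, 1, by rw [one_smul]⟩

/-- the identity of a small neighbourhood with one line -/
private theorem id_adm {U : Set P2} {A : Finset Ln} (hU : U ∈ gCnf.U) (hA : ∀ l ∈ A, l ∈ gCnf.L)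
    {x y : P2} (hx : x ∈ U) (hy : y ∈ U) (hne : x ≠ y) (e : Same A x y)
    (hc : c1 x y hx hy hne e ∈ Ce U A) {m : Ln} {W : Set P2} (hWU : W ⊆ U)
    (hsame : ∀ z ∈ W, ∀ z' ∈ W, Same {m} z z' → Same A z z') {V : Set P2} (hV : V ∈ gCnf.U)
    (hVW : V ⊆ W) (hm : m.c = 0) (y' : P2) (hx' : x ∈ V) (hy' : y' ∈ V) (hne' : x ≠ y')
    (h0 : m.ev x = 0) (h0' : m.ev y' = 0) {τ : ℝ} (hτ : 0 < τ) (hτ' : y' - x = τ • (y - x)) :
    S1C.El.Adm (mkO V hV m hm x y' hx' hy' hne' h0 h0').1 1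
      (⟨⟨(U, A), hU, hA⟩, ⟨c1 x y hx hy hne e, hc⟩⟩ : S1C.El.Ob) := by
  have h1 : gCnf.Str.Adm (mkS V hV m hm) 1 (⟨(U, A), hU, hA⟩ : gCnf.Str.Ob) :=
    ⟨Cnf.one_mem, fun z hz => hWU (hVW hz), fun z hz w hw e => hsame z (hVW hz) w (hVW hw) e,
      (gCnf.Str.one (mkS V hV m hm)).2.2.2⟩
  refine ⟨h1, (act_c1 h1 hx' hy' hne' (sing_same h0 h0') (par hm h0 h0') hx hy hne e hc).2
    ⟨Same.refl _ _, ⟨0, ?_⟩, τ⁻¹, inv_pos.2 hτ, ?_⟩⟩
  · change x - x = (0 : ℝ) • (y' - x)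
    rw [sub_self, zero_smul]
  · change y - x = τ⁻¹ • (y' - x)
    rw [hτ', smul_smul, inv_mul_cancel₀ hτ.ne', one_smul]

theorem elEC_over : HIso (S1C.El.restrIncl PEC) := by
  refine quillenA_over _ fun b => ?_
  obtain ⟨⟨⟨⟨U, A⟩, hU, hA⟩, ⟨c, hc⟩⟩⟩ := b
  change U ∈ gCnf.U at hU
  change ∀ l ∈ A, l ∈ gCnf.L at hA
  obtain ⟨m, W, hW, hWU, hcW, hm0, hsame, hmc, hcone⟩ := chs_nbhd hU.1 A c
  have hmc' := hmc hc
  clear hmc
  rename' hmc' => hmc
  have hcone : ∀ (t : ℝ) (z : P2), 0 < t → z ∈ W → t • z ∈ W := fun t z ht hz =>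
    hcone t ht (fun z hz => hU.2.2.2 t z ht hz) hA z hz
  induction c using c1_ind with
  | h x y hx hy hne e =>
    have hxc : x ∈ chs (c1 x y hx hy hne e) := self_chs hx hy hne e
    have hyc : y ∈ chs (c1 x y hx hy hne e) := self_chs' hx hy hne e
    by_cases h0 : (0 : P2) ∈ chs (c1 x y hx hy hne e)
    · have hWu : ∀ z, z ∈ W := cone_univ hW hcone (hcW h0)
      have hun : (Set.univ : Set P2) ∈ gCnf.U :=
        ⟨isOpen_univ, convex_univ, Set.univ_nonempty, fun _ _ _ _ => trivial⟩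
      have hid := id_adm hU hA hx hy hne e hc hWU hsame hun (fun z _ => hWu z) hmc y trivial
        trivial hne (hm0 x hxc) (hm0 y hyc) one_pos (one_smul _ _).symm
      refine ActCat.acy_over_top (A := S1C.El.restr PEC) (A' := S1C.El) (fun a => a.1)
        (fun h => h) (fun h => h) _
        (mkO Set.univ hun m hmc x y trivial trivial hne (hm0 x hxc) (hm0 y hyc)) 1 hid ?_
        (fun _ _ _ _ _ h => h)
      intro a g hg
      refine ⟨g, ?_, ?_⟩
      · have h1 := cmp_cell (b := ko ⟨⟨(U, A), hU, hA⟩, ⟨c1 x y hx hy hne e, hc⟩⟩) (a1 := ko a.1)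
          (a2 := ko (mkO Set.univ hun m hmc x y trivial trivial hne (hm0 x hxc) (hm0 y hyc)).1)
          (g1 := g) (g2 := 1) a.2 (mkO Set.univ hun m hmc x y trivial trivial hne (hm0 x hxc)
            (hm0 y hyc)).2 (ko_adm hg) (ko_adm hid) (V := a.1.1.1.1) (ko a.1).1.2.1
          (fun z hz => hz) (fun z hz => trivial)
        rw [inv_one, one_mul] at h1
        have h2 : gCnf.Str.Adm a.1.1 g (mkS Set.univ hun m hmc) := ⟨hg.1.1, fun _ _ => trivial, h1⟩
        have h6 : ∀ z ∈ chs a.1.2.1, m.ev (g.g z) = 0 := fun z hz => hm0 _ (rad_mem hg hz)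
        obtain ⟨V', hV', m', hm', x', y', hx', hy', hne', h0', h0'', rfl⟩ := obj_cases a
        obtain ⟨h3, h4⟩ := hg
        obtain ⟨e1, ⟨s, hs⟩, t, ht, ht'⟩ := (act_c1 h3 hx' hy' hne' (sing_same h0' h0'')
          (par hm' h0' h0'') hx hy hne e hc).1 h4
        refine ⟨h2, (act_c1 h2 hx' hy' hne' (sing_same h0' h0'') (par hm' h0' h0'') trivial
          trivial hne (sing_same (hm0 x hxc) (hm0 y hyc))
          (par hmc (hm0 x hxc) (hm0 y hyc))).2 ⟨?_, ⟨s, hs⟩, t, ht, ht'⟩⟩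
        exact sing_same (h6 x' (self_chs hx' hy' hne' (sing_same h0' h0''))) (hm0 _ hxc)
      · have : (1 * g)⁻¹ * g = 1 := by group
        rw [this]
        exact (S1C.El.N a.1).one_mem
    · refine ActCat.acy_over_rel (A := S1C.El.restr PEC) (A' := S1C.El) (fun a => a.1)
        (fun h => h) (fun h => h) _ (fun _ _ _ _ _ _ _ _ h => h) (S := PUnit) ⟨PUnit.unit⟩
        (fun _ _ => ⟨PUnit.unit, le_rfl, le_rfl⟩) (fun _ _ _ => True) (fun _ _ _ _ _ _ _ _ => trivial)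
        (fun _ _ _ _ _ _ _ _ _ _ => trivial)
        (fun _ _ _ => ⟨⟨PUnit.unit, trivial⟩, fun _ _ _ _ => ⟨PUnit.unit, trivial, le_rfl, le_rfl⟩⟩)
        (fun _ => ⟨?_, ?_⟩)
      · obtain ⟨V, hV, hxV, hVW⟩ := nbh_cone hW hcone (hcW hxc)
        obtain ⟨τ, hτ, hτ'⟩ := short (gCnf.hU V hV).1 hxV (y - x)
        exact ⟨_, 1, id_adm hU hA hx hy hne e hc hWU hsame hV hVW hmc (x + τ • (y - x)) hxV hτ'
          (ne_seg hne hτ) (hm0 x hxc) (ev_seg (hm0 x hxc) (hm0 y hyc) τ) hτ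
          (add_sub_cancel_left _ _), trivial⟩
      · intro a1 g1 a2 g2 hg1 hg2 _ _
        have hray : ∀ (z z' : P2), z ∈ chs (c1 x y hx hy hne e) → z' ∈ chs (c1 x y hx hy hne e) →
            ∃ t : ℝ, 0 < t ∧ z' = t • z := fun z z' hz hz' => ray hU.1 hU.2.1 hc h0 hz hz'
        have hr1 : ∀ z ∈ chs a1.1.2.1, g1.g z ∈ chs (c1 x y hx hy hne e) :=
          fun z hz => rad_mem hg1 hz
        have hr2 : ∀ z ∈ chs a2.1.2.1, g2.g z ∈ chs (c1 x y hx hy hne e) :=
          fun z hz => rad_mem hg2 hz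
        have hcmp : ∀ {V : Set P2} (hV : V ∈ gPLf.U), V ⊆ a1.1.1.1.1 →
            (∀ y ∈ V, (g2⁻¹ * g1).g y ∈ a2.1.1.1.1) →
            CellMap V a1.1.1.1.2 (g2⁻¹ * g1).g a2.1.1.1.2 := fun hV h3 h4 =>
          cmp_cell (b := ko ⟨⟨(U, A), hU, hA⟩, ⟨c1 x y hx hy hne e, hc⟩⟩) (a1 := ko a1.1)
            (a2 := ko a2.1) a1.2 a2.2 (ko_adm hg1) (ko_adm hg2) hV h3 h4
        obtain ⟨V1, hV1, m1, hm1, x1, y1, hx1, hy1, hne1, h01, h01', rfl⟩ := obj_cases a1
        obtain ⟨V2, hV2, m2, hm2, x2, y2, hx2, hy2, hne2, h02, h02', rfl⟩ := obj_cases a2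
        have hC1 : g1 ∈ Cnf := hg1.1.1
        have hC2 : g2 ∈ Cnf := hg2.1.1
        have e1 := sing_same h01 h01'
        have e2 := sing_same h02 h02'
        have kx1 := hr1 x1 (self_chs hx1 hy1 hne1 e1)
        have ky1 := hr1 y1 (self_chs' hx1 hy1 hne1 e1)
        have kx2 := hr2 x2 (self_chs hx2 hy2 hne2 e2)
        have ky2 := hr2 y2 (self_chs' hx2 hy2 hne2 e2)
        have nz1 : g1.g x1 ≠ 0 := fun h => h0 (h ▸ kx1)
        have nz2 : g2.g x2 ≠ 0 := fun h => h0 (h ▸ kx2)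
        obtain ⟨t, ht, htt⟩ := hray _ _ kx2 kx1
        obtain ⟨w1, hw1, hw1'⟩ := hray _ _ kx1 ky1
        obtain ⟨w2, hw2, hw2'⟩ := hray _ _ kx2 ky2
        have f2 : y2 = w2 • x2 := g2.g.injective (by rw [hC2.2 w2 x2 hw2, hw2'])
        have hk : g2⁻¹ * g1 ∈ Cnf := Cnf.mul_mem (Cnf.inv_mem hC2) hC1
        have hkx : (g2⁻¹ * g1).g x1 = t • x2 := by
          change g2⁻¹.g (g1.g x1) = t • x2
          rw [htt, ← hC2.2 t x2 ht, FGr.inv_apply]
        have hkc : Continuous (g2⁻¹ * g1).g := (Gf_PLH hk.1).1.cont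
        have hW' : IsOpen {z | z ∈ V1 ∧ (g2⁻¹ * g1).g z ∈ V2} :=
          (gCnf.hU V1 hV1).1.inter ((gCnf.hU V2 hV2).1.preimage hkc)
        obtain ⟨V, hV, hxV, hVW⟩ := nbh_cone hW' (fun s z hs hz => ⟨hV1.2.2.2 s z hs hz.1, by
          rw [hk.2 s z hs]
          exact hV2.2.2.2 s _ hs hz.2⟩) (x := x1) ⟨hx1, by
          rw [hkx]
          exact hV2.2.2.2 t x2 ht hx2⟩
        obtain ⟨τ, hτ, hτ'⟩ := short (gCnf.hU V hV).1 hxV (y1 - x1)
        have hq0 := ev_seg h01 h01' τ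
        have hqc : x1 + τ • (y1 - x1) ∈ chs (c1 x1 y1 hx1 hy1 hne1 e1) :=
          mem_chs.2 ⟨(hVW hτ').1, sing_same h01 hq0, τ, add_sub_cancel_left _ _⟩
        obtain ⟨u, hu, hu'⟩ := hray _ _ kx1 (hr1 _ hqc)
        have hkq : (g2⁻¹ * g1).g (x1 + τ • (y1 - x1)) = u • t • x2 := by
          have h3 : x1 + τ • (y1 - x1) = u • x1 := g1.g.injective (by rw [hC1.2 u x1 hu, hu'])
          rw [h3, hk.2 u x1 hu, hkx]
        have hu1 : u = 1 + τ * (w1 - 1) := by
          have h3 : x1 + τ • (y1 - x1) = u • x1 := g1.g.injective (by rw [hC1.2 u x1 hu, hu'])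
          have h4 : y1 = w1 • x1 := g1.g.injective (by rw [hC1.2 w1 x1 hw1, hw1'])
          have h5 : (u - (1 + τ * (w1 - 1))) • x1 = 0 := by
            rw [sub_smul, ← h3, h4]
            module
          rcases smul_eq_zero.1 h5 with h6 | h6
          · linarith
          · rw [h6, Cnf_zero hC1] at nz1
            exact absurd rfl nz1
        have hid := id_adm hV1 (fun l hl => by
            rw [Finset.mem_singleton.1 hl]
            exact hm1) hx1 hy1 hne1 e1 (par hm1 h01 h01') (W := V1) subset_rfl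
          (fun _ _ _ _ h => h) hV (fun z hz => (hVW hz).1) hm1 (x1 + τ • (y1 - x1)) hxV hτ'
          (ne_seg hne1 hτ) h01 hq0 hτ (add_sub_cancel_left _ _)
        have hid3 := S1C.El.mul hid hg1
        rw [mul_one] at hid3
        have hk2 : gCnf.Str.Adm (mkS V hV m1 hm1) (g2⁻¹ * g1) (mkS V2 hV2 m2 hm2) :=
          ⟨hk, fun z hz => (hVW hz).2, hcmp (gCnf.hU V hV) (fun z hz => (hVW hz).1)
            (fun z hz => (hVW hz).2)⟩
        have hor : t * (τ * (w1 - 1)) ≠ 0 ∧ ∃ r : ℝ, 0 < r ∧ w2 - 1 = r * (t * (τ * (w1 - 1))) := by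
          refine ⟨?_, ?_⟩
          · refine mul_ne_zero ht.ne' (mul_ne_zero hτ.ne' fun h3 => ?_)
            have h4 : w1 = 1 := by linarith
            rw [h4, one_smul] at hw1'
            exact hne1 (g1.g.injective hw1'.symm)
          · obtain ⟨h3, h4⟩ := hg1
            obtain ⟨h5, h6⟩ := hg2
            obtain ⟨-, -, t1, ht1, ht1'⟩ := (act_c1 h3 hx1 hy1 hne1 e1
              (par hm1 h01 h01') hx hy hne e hc).1 h4
            obtain ⟨-, -, t2, ht2, ht2'⟩ := (act_c1 h5 hx2 hy2 hne2 e2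
              (par hm2 h02 h02') hx hy hne e hc).1 h6
            rw [ht1', hw1', htt, hw2'] at ht2'
            have h7 : (t1 * (w1 - 1) * t - t2 * (w2 - 1)) • g2.g x2 = 0 := by
              rw [sub_smul, sub_eq_zero]
              calc (t1 * (w1 - 1) * t) • g2.g x2 = t1 • (w1 • t • g2.g x2 - t • g2.g x2) := by
                    module
                _ = t2 • (w2 • g2.g x2 - g2.g x2) := ht2'
                _ = (t2 * (w2 - 1)) • g2.g x2 := by module
            rcases smul_eq_zero.1 h7 with h8 | h8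
            · refine ⟨t1 / (t2 * τ), div_pos ht1 (mul_pos ht2 hτ), ?_⟩
              field_simp
              linarith
            · exact absurd h8 nz2
        obtain ⟨hor1, r, hr, hr'⟩ := hor
        have hdiff : (g2⁻¹ * g1).g (x1 + τ • (y1 - x1)) - (g2⁻¹ * g1).g x1 =
            (t * (τ * (w1 - 1))) • x2 := by
          rw [hkq, hkx, hu1]
          module
        refine ⟨mkO V hV m1 hm1 x1 (x1 + τ • (y1 - x1)) hxV hτ' (ne_seg hne1 hτ) h01 hq0, g1, 1,
          g2⁻¹ * g1, hid3, trivial, hid, ⟨hk2, ?_⟩, ?_, ?_⟩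
        · refine (act_c1 hk2 hxV hτ' (ne_seg hne1 hτ) (sing_same h01 hq0) (par hm1 h01 hq0) hx2
            hy2 hne2 e2 (par hm2 h02 h02')).2 ⟨?_, ⟨(1 - t) / (t * (τ * (w1 - 1))), ?_⟩, r, hr, ?_⟩
          · refine sing_same ?_ h02
            rw [hkx]
            have h3 : m2.ev (t • x2) = t * m2.ev x2 := by
              simp only [Ln.ev, hm2, Prod.smul_fst, Prod.smul_snd, smul_eq_mul]
              ring
            rw [h3, h02, mul_zero]
          · rw [hdiff, hkx, smul_smul, div_mul_cancel₀ _ hor1, sub_smul, one_smul]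
          · rw [hdiff, smul_smul, ← hr', f2, sub_smul, one_smul]
        · have : (g1 * 1)⁻¹ * g1 = 1 := by group
          rw [this]
          exact (S1C.El.N _).one_mem
        · have : (g2 * (g2⁻¹ * g1))⁻¹ * g1 = 1 := by group
          rw [this]
          exact (S1C.El.N _).one_mem

end C715
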