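import Pool.Agent.Work.MP_c71557_gt.K.ElEm

set_option autoImplicit false
set_option linter.unusedVariables false

/-!
# MP_c71557_gt, module K/ElEt: chords with one line, and the group of the x-axis (M-L)

`ActCat.tor_hiso` for `A = gPLf.S1.El.restr PE`, `o = oEP` (resp. `S1C.El.restr PEC`, `oEC`).
`b = ((V, {m}), c1 v w)`, `m.ev v = m.ev w = 0`.
* `h1`: `w - v = ρ • dir α`, `ρ > 0`; `g = R * trl (-v)`, `R` from `exists_rt (-α)` (`g = R` in the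
  homogeneous case, as in K/ElN): `g` is affine, `g v = 0`, `g w = ρ • e1`.  `lx ∘ g` is an affine function
  vanishing at `v`, `w`, nonconstant, so `lx.ev (g y) = κ * m.ev y`, `κ ≠ 0`: `g` is a cell map
  `(V, {m}) → (univ, {lx})`; `act g (c1 v w) = c1 0 e1`.
* `h2`: `g, g' : b → o`.  `ext_bi` (`ext_biC`) for `g` and `g'` on `V` (`x0 = v`): `Bi m L b1`, `Bi m L' b2`,
  `b1 = g`, `b2 = g'` on `V`.  `L` vanishes at `g v`, `g w`, points of the x-axis, so `lx.ev = κ * L.ev`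
  (`Ln_prop`), the same for `L'`; hence `b1`, `b2 : (univ, {m}) → (univ, {lx})` and the inverses are cell
  maps.  `k = b2 * b1⁻¹`, `k⁻¹ = b1 * b2⁻¹`: cell maps of `(univ, {lx})`; on chords:
  `k · c1 0 e1 = k · c1 (g v) (g w) = c1 (b2 v) (b2 w) = c1 (g' v) (g' w) = c1 0 e1`, the same for `k⁻¹`.
  `(k * g)⁻¹ * g'` is the identity with framing 1 on `V` (see K/El2).
* `h3`: `d = k⁻¹ * k'` with `k, k' ∈ autG`: `Bi lx lx d`-like: `d` is biaffine with respect to `lx` with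
  inverse biaffine; the sign condition of `Bi`: `d` is the identity on `g (V)`, open, meeting the x-axis at
  `g v`; so for every `y` with `lx y ≠ 0` there is a point `y'` of `g (V)` with the same sign and
  `sign (lx (d y)) = sign (lx (d y')) = sign (lx y') = sign (lx y)`; for `lx y = 0` compare with `g v`.
  `bi_uniq`.
-/

noncomputable section

namespace C715

open Ang CategoryTheory
open scoped Topology

/-- torsors of elements -/
private theorem el_tor {Γ : Type} [Group Γ] {A : ActCat Γ} (S : ActSet A)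
    (P : (Σ a : A.Ob, S.X a) → Prop) (q : A.Ob) (y : S.X q) (ho : P ⟨q, y⟩)
    (h1 : ∀ b x, P ⟨b, x⟩ → ∃ (g : Γ) (h : A.Adm b g q), S.act h x = y)
    (h2 : ∀ b x g g', P ⟨b, x⟩ → A.Adm b g q → A.Adm b g' q →
      (∃ h : A.Adm b g q, S.act h x = y) → (∃ h : A.Adm b g' q, S.act h x = y) →
      ∃ k ∈ A.autG q, (k * g)⁻¹ * g' ∈ A.N b)
    (h3 : ∀ b x g k k', P ⟨b, x⟩ → A.Adm b g q → (∃ h : A.Adm b g q, S.act h x = y) →
      k ∈ A.autG q → k' ∈ A.autG q → (k * g)⁻¹ * (k' * g) ∈ A.N b → k = k') :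
    HIso ((S.El.restr P).autF ⟨(⟨q, y⟩ : Σ a : A.Ob, S.X a), ho⟩) := by
  refine ActCat.tor_hiso _ _ ?_ ?_ ?_
  · rintro ⟨⟨b, x⟩, hb⟩
    obtain ⟨g, h, e⟩ := h1 b x hb
    exact ⟨g, h, e⟩
  · rintro ⟨⟨b, x⟩, hb⟩ g g' ⟨hg, e⟩ ⟨hg', e'⟩
    have hg : A.Adm b g q := hg
    have hg' : A.Adm b g' q := hg'
    have e : S.act hg x = y := e
    have e' : S.act hg' x = y := e'
    obtain ⟨k, hk, h⟩ := h2 b x g g' hb hg hg' ⟨hg, e⟩ ⟨hg', e'⟩
    have h4 : S.act hk.1 y = y := by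
      have h5 : S.act hk.1 (S.act hg x) = S.act hg' x := by
        rw [← S.act_mul]
        exact S.act_eq _ _ h _
      rwa [e, e'] at h5
    have h5 : S.act hk.2 y = y := by
      have h6 : S.act (A.mul hk.1 hk.2) y = S.act (A.one q) y :=
        S.act_eq (A.mul hk.1 hk.2) (A.one q) (by
          rw [inv_mul_cancel, inv_one, one_mul]
          exact Subgroup.one_mem _) y
      rwa [S.act_mul hk.1 hk.2, S.act_one, h4] at h6
    exact ⟨k, ⟨⟨hk.1, h4⟩, ⟨hk.2, h5⟩⟩, h⟩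
  · rintro ⟨⟨b, x⟩, hb⟩ g k k' ⟨hg, e⟩ hk hk' h
    exact h3 b x g k k' hb hg ⟨hg, e⟩ ⟨hk.1.1, hk.2.1⟩ ⟨hk'.1.1, hk'.2.1⟩ h

private theorem act_c1 (𝔾 : FGeo) {p q : 𝔾.Str.Ob} {a : FGr} (h : 𝔾.Str.Adm p a q) {v w v' w' : P2}
    (hv : v ∈ p.1.1) (hw : w ∈ p.1.1) (hne : v ≠ w) (e : Same p.1.2 v w) (hv' : v' ∈ q.1.1)
    (hw' : w' ∈ q.1.1) (hne' : v' ≠ w') (e' : Same q.1.2 v' w') (h1 : Same q.1.2 (a.g v) v')
    (h2 : ∃ s : ℝ, v' - a.g v = s • (a.g w - a.g v))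
    (h3 : ∃ t : ℝ, 0 < t ∧ w' - v' = t • (a.g w - a.g v)) :
    𝔾.S1.act h (c1 v w hv hw hne e) = c1 v' w' hv' hw' hne' e' := by
  rw [𝔾.S1_act h hv hw hne e]
  exact c1_eq.2 ⟨h1, h2, h3⟩

/-! ## signs -/

private theorem same_one {l : Ln} {x y : P2} :
    Same {l} x y ↔ SignType.sign (l.ev x) = SignType.sign (l.ev y) := by
  unfold Same
  simp

private theorem gen_one {l : Ln} {x : P2} : Gen {l} x ↔ l.ev x ≠ 0 := by
  unfold Gen
  simp

private theorem same_smul {l l' : Ln} {κ : ℝ} (hκ : κ ≠ 0) (h : ∀ z, l'.ev z = κ * l.ev z)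
    (x y : P2) : Same {l'} x y ↔ Same {l} x y := by
  rw [same_one, same_one, h, h, sign_mul, sign_mul]
  constructor
  · intro h1
    rcases lt_or_gt_of_ne hκ with h2 | h2
    · rw [sign_neg h2] at h1
      simpa using h1
    · rw [sign_pos h2] at h1
      simpa using h1
  · intro h1
    rw [h1]

private theorem lx_aff {g : Equiv.Perm P2} (h : IsAff g) {m : Ln} {v w : P2} (hne : v ≠ w)
    (mv : m.ev v = 0) (mw : m.ev w = 0) (gv : lx.ev (g v) = 0) (gw : lx.ev (g w) = 0) (x y : P2) :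
    Same {m} x y → Same {lx} (g x) (g y) := by
  obtain ⟨M, N, h⟩ := h
  have h1 : ∀ y, lx.ev (g y) = N.ev y := fun y => by rw [lx_ev, h]
  have h2 : N.a ≠ 0 ∨ N.b ≠ 0 := by
    by_contra hc
    push Not at hc
    have h3 := h1 (g.symm (0, N.c + 1))
    rw [g.apply_symm_apply, lx_ev] at h3
    have h4 : N.c + 1 = N.a * (g.symm (0, N.c + 1)).1 + N.b * (g.symm (0, N.c + 1)).2 + N.c := h3
    rw [hc.1, hc.2] at h4
    linarith
  obtain ⟨κ, hκ, h5⟩ := Ln_prop (l := m) (l' := ⟨N.a, N.b, N.c, h2⟩) hne mv mw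
    ((h1 v).symm.trans gv) ((h1 w).symm.trans gw)
  have h6 : ∀ y, lx.ev (g y) = κ * m.ev y := fun y => (h1 y).trans (h5 y)
  rw [same_one, same_one, h6, h6, sign_mul, sign_mul]
  intro h7
  rw [h7]

/-- points of an edge -/
private theorem ev_zero {m : Ln} {v w : P2} (hn : ¬ Gen {m} v) (h : Same {m} v w) :
    m.ev v = 0 ∧ m.ev w = 0 := by
  have h1 : m.ev v = 0 := not_not.1 (fun h2 => hn (gen_one.2 h2))
  refine ⟨h1, ?_⟩
  have h2 := same_one.1 h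
  rw [h1, sign_zero] at h2
  exact sign_eq_zero_iff.1 h2.symm

private theorem adm_lx {p : gPLf.Str.Ob} {L : Ln} {b : FGr} {κ : ℝ} (hκ : κ ≠ 0)
    (h : ∀ z, lx.ev z = κ * L.ev z) (hb : gPLf.Str.Adm p b (uP {L})) :
    gPLf.Str.Adm p b (uP {lx}) :=
  ⟨hb.1, fun _ _ => trivial,
    fun x hx y hy e => (same_smul hκ h _ _).2 (hb.2.2.1 x hx y hy e), hb.2.2.2⟩

private theorem lx_adm {p : gPLf.Str.Ob} {L : Ln} {b : FGr} {κ : ℝ} (hκ : κ ≠ 0)
    (h : ∀ z, lx.ev z = κ * L.ev z) (hb : gPLf.Str.Adm (uP {L}) b p) :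
    gPLf.Str.Adm (uP {lx}) b p := by
  refine ⟨hb.1, hb.2.1, fun x hx y hy e => hb.2.2.1 x hx y hy ((same_smul hκ h _ _).1 e),
    fun x hx => ?_⟩
  obtain ⟨M, N, h1⟩ := hb.2.2.2 x hx
  exact ⟨M, N, fun y hy => h1 y ⟨hy.1, (same_smul hκ h _ _).1 hy.2⟩⟩

/-- comparison of two charts -/
private theorem core2 {V : Set P2} {m L1 L2 : Ln} {v w : P2} {g g' b b' : FGr} (hb : Bi m L1 b)
    (hb' : Bi m L2 b') (b3 : ∀ y ∈ V, b.g y = g.g y ∧ b.ph y = g.ph y)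
    (b3' : ∀ y ∈ V, b'.g y = g'.g y ∧ b'.ph y = g'.ph y) (hv : v ∈ V) (hw : w ∈ V) (hne : v ≠ w)
    (mv : m.ev v = 0) (mw : m.ev w = 0) (gv : lx.ev (g.g v) = 0) (gw : lx.ev (g.g w) = 0)
    (gv' : lx.ev (g'.g v) = 0) (gw' : lx.ev (g'.g w) = 0) :
    b' * b⁻¹ ∈ gPLf.Str.autG (uP {lx}) ∧
      ∀ y ∈ V, ((b' * b⁻¹ * g)⁻¹ * g').g y = y ∧ ((b' * b⁻¹ * g)⁻¹ * g').ph y = 1 := by
  have z : ∀ {L : Ln} {c : FGr}, Bi m L c → ∀ y, m.ev y = 0 → L.ev (c.g y) = 0 := by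
    intro L c hc y hy
    have h := hc.2.2 y
    rw [hy, sign_zero] at h
    exact sign_eq_zero_iff.1 h
  obtain ⟨κ, hκ, hp⟩ := Ln_prop (l := L1) (l' := lx) (x := g.g v) (y := g.g w)
    (fun h => hne (g.g.injective h)) (by rw [← (b3 v hv).1]; exact z hb v mv)
    (by rw [← (b3 w hw).1]; exact z hb w mw) gv gw
  obtain ⟨κ', hκ', hp'⟩ := Ln_prop (l := L2) (l' := lx) (x := g'.g v) (y := g'.g w)
    (fun h => hne (g'.g.injective h)) (by rw [← (b3' v hv).1]; exact z hb' v mv)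
    (by rw [← (b3' w hw).1]; exact z hb' w mw) gv' gw'
  have e1 : ∀ y ∈ V, b⁻¹.g (g.g y) = y := fun y hy => by
    rw [← (b3 y hy).1]
    exact b.inv_apply y
  have e2 : ∀ y ∈ V, (b' * b⁻¹ * g).g y = g'.g y := fun y hy => by
    change b'.g (b⁻¹.g (g.g y)) = g'.g y
    rw [e1 y hy, (b3' y hy).1]
  have e3 : ∀ y ∈ V, (b' * b⁻¹ * g).ph y = g'.ph y := fun y hy => by
    change b'.ph (b⁻¹.g (g.g y)) * (b.ph (b⁻¹.g (g.g y)))⁻¹ * g.ph y = g'.ph y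
    rw [e1 y hy, (b3 y hy).2, (b3' y hy).2, inv_mul_cancel_right]
  refine ⟨⟨gPLf.Str.mul (lx_adm hκ hp hb.2.1) (adm_lx hκ' hp' hb'.1), ?_⟩, fun y hy => ?_⟩
  · rw [mul_inv_rev, inv_inv]
    exact gPLf.Str.mul (lx_adm hκ' hp' hb'.2.1) (adm_lx hκ hp hb.1)
  · have h6 : (b' * b⁻¹ * g)⁻¹.g (g'.g y) = y := by
      rw [← e2 y hy]
      exact FGr.inv_apply _ y
    refine ⟨h6, ?_⟩
    change ((b' * b⁻¹ * g).ph ((b' * b⁻¹ * g)⁻¹.g (g'.g y)))⁻¹ * g'.ph y = 1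
    rw [h6, e3 y hy, inv_mul_cancel]

/-- uniqueness -/
private theorem core3 {p : gPLf.Str.Ob} {v : P2} (hv : v ∈ p.1.1)
    {g k k' : FGr} (hg : gPLf.Str.Adm p g (uP {lx})) (gv : lx.ev (g.g v) = 0)
    (hk : k ∈ gPLf.Str.autG (uP {lx})) (hk' : k' ∈ gPLf.Str.autG (uP {lx}))
    (h : (k * g)⁻¹ * (k' * g) ∈ gPLf.Str.N p) : k = k' := by
  have hd : gPLf.Str.Adm (uP {lx}) (k⁻¹ * k') (uP {lx}) := gPLf.Str.mul hk'.1 hk.2
  have hd' : gPLf.Str.Adm (uP {lx}) (k⁻¹ * k')⁻¹ (uP {lx}) := by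
    rw [mul_inv_rev, inv_inv]
    exact gPLf.Str.mul hk.1 hk'.2
  have e0 : k⁻¹ * k' = g * ((k * g)⁻¹ * (k' * g)) * g⁻¹ := by group
  have e1 : ∀ y ∈ p.1.1, (k⁻¹ * k').g (g.g y) = g.g y ∧ (k⁻¹ * k').ph (g.g y) = 1 := by
    intro y hy
    have h1 := h.2 y hy
    have h2 : g⁻¹.g (g.g y) = y := g.inv_apply y
    rw [e0]
    constructor
    · change g.g (((k * g)⁻¹ * (k' * g)).g (g⁻¹.g (g.g y))) = g.g y
      rw [h2, h1.1]
    · change g.ph (((k * g)⁻¹ * (k' * g)).g (g⁻¹.g (g.g y))) *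
        ((k * g)⁻¹ * (k' * g)).ph (g⁻¹.g (g.g y)) * (g.ph (g⁻¹.g (g.g y)))⁻¹ = 1
      rw [h2, h1.1, h1.2, mul_one, mul_inv_cancel]
  have hop : IsOpen (g.g '' p.1.1) := by
    have h6 : g.g '' p.1.1 = g.g.symm ⁻¹' p.1.1 := Equiv.image_eq_preimage_symm g.g p.1.1
    rw [h6]
    exact (gPLf.Ob_open p).preimage (Gf_PLH hg.1).2.cont
  have e2 : ∀ z ∈ g.g '' p.1.1, (k⁻¹ * k').g z = z := by
    rintro _ ⟨y, hy, rfl⟩
    exact (e1 y hy).1
  have hgv : g.g v ∈ g.g '' p.1.1 := ⟨v, hv, rfl⟩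
  -- points on both sides
  have hc : Continuous (fun t : ℝ => (((g.g v).1, (g.g v).2 + t) : P2)) := by fun_prop
  have h3 : ∀ᶠ t in 𝓝 (0 : ℝ), (((g.g v).1, (g.g v).2 + t) : P2) ∈ g.g '' p.1.1 := by
    refine hc.continuousAt.eventually (hop.mem_nhds ?_)
    change (((g.g v).1, (g.g v).2 + 0) : P2) ∈ g.g '' p.1.1
    rw [add_zero]
    exact hgv
  obtain ⟨ε, hε, h4⟩ := Metric.eventually_nhds_iff.1 h3
  have h5 : ∀ t : ℝ, |t| < ε → (((g.g v).1, (g.g v).2 + t) : P2) ∈ g.g '' p.1.1 := by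
    intro t ht
    refine h4 ?_
    rwa [Real.dist_eq, sub_zero]
  rw [lx_ev] at gv
  have h6 : ∀ y : P2, ∃ z ∈ g.g '' p.1.1,
      SignType.sign (lx.ev z) = SignType.sign (lx.ev y) := by
    intro y
    rcases lt_trichotomy (lx.ev y) 0 with h7 | h7 | h7
    · refine ⟨_, h5 (-(ε / 2)) (by rw [abs_neg, abs_of_pos (half_pos hε)]; exact half_lt_self hε),
        ?_⟩
      rw [lx_ev, gv, sign_neg h7, sign_neg]
      change 0 + -(ε / 2) < 0
      linarith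
    · refine ⟨_, hgv, ?_⟩
      rw [lx_ev, gv, h7]
    · refine ⟨_, h5 (ε / 2) (by rw [abs_of_pos (half_pos hε)]; exact half_lt_self hε), ?_⟩
      rw [lx_ev, gv, sign_pos h7, sign_pos]
      change 0 < 0 + ε / 2
      linarith
  have hbi : Bi lx lx (k⁻¹ * k') := by
    refine ⟨hd, hd', fun y => ?_⟩
    obtain ⟨z, hz, h7⟩ := h6 y
    have h8 := same_one.1 (hd.2.2.1 z trivial y trivial (same_one.2 h7))
    rw [e2 z hz] at h8
    rw [← h8, h7]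
  have h7 := bi_uniq hbi hop hgv (by rw [lx_ev]; exact gv) e2 (e1 v hv).2
  exact inv_mul_eq_one.1 h7

/-! ## charts -/

private theorem dir_zero : dir 0 = e1 := by
  simp [dir, e1]

private theorem exists_sub {v w : P2} (hne : v ≠ w) : ∃ α ρ : ℝ, 0 < ρ ∧ w - v = ρ • dir α := by
  obtain ⟨t, θ, ht, -, -, h⟩ := exists_dir (w - v) (sub_ne_zero.2 hne.symm) 0
  exact ⟨θ, t, ht, h⟩

/-- the chord goes to the x-axis -/
private theorem h1P {v w : P2} (hne : v ≠ w) : ∃ a ∈ Gf, IsAff a.g ∧ a.g v = 0 ∧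
    ∃ ρ : ℝ, 0 < ρ ∧ a.g w = ρ • e1 := by
  obtain ⟨α, ρ, hρ, e⟩ := exists_sub hne
  obtain ⟨R, hR, r1, r2, r3⟩ := exists_rt (-α)
  have ht : IsAff (trl (-v)).g := ⟨⟨1, 0, -v.1⟩, ⟨0, 1, -v.2⟩, fun x => by
    rw [trl_g]
    ext <;> simp [L3.ev]⟩
  refine ⟨R * trl (-v), Gf.mul_mem hR.1 (trl_mem _), IsAff_comp r1 ht, ?_, ρ, hρ, ?_⟩
  · change R.g (v + -v) = 0
    rw [add_neg_cancel]
    exact Cnf_zero hR
  · change R.g (w + -v) = ρ • e1
    rw [← sub_eq_add_neg, e, r3 α ρ hρ.le, add_neg_cancel, dir_zero]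

private theorem aff_lin {R : FGr} (h : IsAff R.g) (h0 : R.g 0 = 0) (s : ℝ) (x : P2) :
    R.g (s • x) = s • R.g x := by
  obtain ⟨m, n, h⟩ := h
  have h1 := h 0
  rw [h0] at h1
  have h2 : m.c = 0 := by
    have := congrArg Prod.fst h1
    simpa [L3.ev] using this.symm
  have h3 : n.c = 0 := by
    have := congrArg Prod.snd h1
    simpa [L3.ev] using this.symm
  rw [h, h]
  ext
  · simp only [L3.ev, h2, Prod.smul_fst, Prod.smul_snd, smul_eq_mul]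
    ring
  · simp only [L3.ev, h3, Prod.smul_fst, Prod.smul_snd, smul_eq_mul]
    ring

private theorem h1C {v w : P2} (hne : v ≠ w) (hr : v.1 * w.2 = v.2 * w.1) :
    ∃ a ∈ Cnf, IsAff a.g ∧ ∃ τ ρ : ℝ, 0 < ρ ∧ a.g v = τ • e1 ∧ a.g w = (τ + ρ) • e1 := by
  obtain ⟨α, ρ, hρ, e⟩ := exists_sub hne
  obtain ⟨R, hR, r1, r2, r3⟩ := exists_rt (-α)
  have hl := aff_lin r1 (Cnf_zero hR)
  have hd : R.g (dir α) = e1 := by
    have h1 := r3 α 1 zero_le_one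
    rwa [one_smul, one_smul, add_neg_cancel, dir_zero] at h1
  have ev1 : w.1 = v.1 + ρ * Real.cos α := by
    have := congrArg Prod.fst e
    change w.1 - v.1 = ρ * Real.cos α at this
    linarith
  have ev2 : w.2 = v.2 + ρ * Real.sin α := by
    have := congrArg Prod.snd e
    change w.2 - v.2 = ρ * Real.sin α at this
    linarith
  have h3 : v.1 * Real.sin α = v.2 * Real.cos α := by
    rw [ev1, ev2] at hr
    have h4 : ρ * (v.1 * Real.sin α - v.2 * Real.cos α) = 0 := by linarith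
    rcases mul_eq_zero.1 h4 with h5 | h5
    · exact absurd h5 hρ.ne'
    · linarith
  have h6 := Real.sin_sq_add_cos_sq α
  have hv : v = (v.1 * Real.cos α + v.2 * Real.sin α) • dir α := by
    ext
    · change v.1 = (v.1 * Real.cos α + v.2 * Real.sin α) * Real.cos α
      have : (v.1 * Real.cos α + v.2 * Real.sin α) * Real.cos α =
        v.1 * Real.cos α ^ 2 + Real.sin α * (v.2 * Real.cos α) := by ring
      rw [this, ← h3]
      linear_combination (-v.1) * h6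
    · change v.2 = (v.1 * Real.cos α + v.2 * Real.sin α) * Real.sin α
      have : (v.1 * Real.cos α + v.2 * Real.sin α) * Real.sin α =
        v.2 * Real.sin α ^ 2 + Real.cos α * (v.1 * Real.sin α) := by ring
      rw [this, h3]
      linear_combination (-v.2) * h6
  refine ⟨R, hR, r1, v.1 * Real.cos α + v.2 * Real.sin α, ρ, hρ, ?_, ?_⟩
  · conv_lhs => rw [hv]
    rw [hl, hd]
  · have hw : w = (v.1 * Real.cos α + v.2 * Real.sin α + ρ) • dir α := by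
      rw [add_smul, ← hv, ← e]
      abel
    conv_lhs => rw [hw]
    rw [hl, hd]

private theorem lx_smul (s : ℝ) : lx.ev (s • e1) = 0 := by
  rw [lx_ev]
  change s * 0 = 0
  exact mul_zero s

/-- points of the image of the chord -/
private theorem ax {v w v' w' : P2} (h1 : Same {lx} v' 0) (h2 : Same {lx} v' w') :
    lx.ev v' = 0 ∧ lx.ev w' = 0 := by
  have h3 := same_one.1 h1
  have h0 : lx.ev 0 = 0 := by
    rw [lx_ev]
    rfl
  rw [h0, sign_zero] at h3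
  have h4 := sign_eq_zero_iff.1 h3
  have h5 := same_one.1 h2
  rw [h4, sign_zero] at h5
  exact ⟨h4, sign_eq_zero_iff.1 h5.symm⟩

/-! ## piecewise linear geometry -/

private theorem actP {p : gPLf.Str.Ob} {g : FGr} (hg : gPLf.Str.Adm p g (uP {lx})) {v w : P2}
    (hv : v ∈ p.1.1) (hw : w ∈ p.1.1) (hne : v ≠ w) (e : Same p.1.2 v w)
    (h : gPLf.S1.act hg (c1 v w hv hw hne e) = oEP.2) : lx.ev (g.g v) = 0 ∧ lx.ev (g.g w) = 0 := by
  have h0 : gPLf.S1.act hg (c1 v w hv hw hne e) =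
    c1 (U := Set.univ) (A := {lx}) 0 e1 trivial trivial e1_ne same_lx := h
  rw [gPLf.S1_act hg hv hw hne e] at h0
  exact ax (v := v) (w := w) (c1_eq.1 h0).1 (hg.2.2.1 v hv w hw e)

theorem elEP_tor : HIso ((gPLf.S1.El.restr PE).autF ⟨oEP, oEP_PE⟩) := by
  refine el_tor gPLf.S1 PE oEP.1 oEP.2 oEP_PE ?_ ?_ ?_
  · rintro ⟨⟨U, A⟩, hU⟩ c ⟨⟨m, hm⟩, hn⟩
    have hm : A = {m} := hm
    subst hm
    induction c using c1_ind with
    | h v w hv hw hne e =>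
      have hn : ¬ Gen {m} v := hn
      obtain ⟨mv, mw⟩ := ev_zero hn e
      obtain ⟨a, ha, h1, h2, ρ, hρ, h3⟩ := h1P hne
      obtain ⟨M, N, h4⟩ := id h1
      have h : gPLf.Str.Adm (⟨(U, {m}), hU⟩ : gPLf.Str.Ob) a (uP {lx}) :=
        ⟨ha, fun _ _ => trivial, fun x _ y _ e => lx_aff h1 hne mv mw (by
          rw [h2, lx_ev]
          rfl) (by
          rw [h3]
          exact lx_smul _) x y e, fun x _ => ⟨M, N, fun y _ => h4 y⟩⟩
      refine ⟨a, h, act_c1 gPLf h hv hw hne e trivial trivial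
        e1_ne same_lx ?_ ⟨0, ?_⟩ ⟨ρ⁻¹, inv_pos.2 hρ, ?_⟩⟩
      · rw [h2]
        exact Same.refl _ _
      · rw [h2, zero_smul, sub_zero]
      · rw [h2, h3, sub_zero, sub_zero, smul_smul, inv_mul_cancel₀ hρ.ne', one_smul]
  · rintro ⟨⟨U, A⟩, hU⟩ c g g' ⟨⟨m, hm⟩, hn⟩ hg hg' ⟨_, E1⟩ ⟨_, E2⟩
    have hm : A = {m} := hm
    subst hm
    induction c using c1_ind with
    | h v w hv hw hne e =>
      have hn : ¬ Gen {m} v := hn
      obtain ⟨mv, mw⟩ := ev_zero hn e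
      obtain ⟨gv, gw⟩ := actP hg hv hw hne e E1
      obtain ⟨gv', gw'⟩ := actP hg' hv hw hne e E2
      obtain ⟨L1, b, hb, hb2⟩ := ext_bi hg.1 hU.1 hv mv hg.2.2.2
      obtain ⟨L2, b', hb', hb2'⟩ := ext_bi hg'.1 hU.1 hv mv hg'.2.2.2
      have h := core2 hb hb' hb2 hb2' hv hw hne mv mw gv gw gv' gw'
      exact ⟨b' * b⁻¹, h.1, gPLf.G.mul_mem (gPLf.G.inv_mem (gPLf.G.mul_mem h.1.1.1 hg.1)) hg'.1,
        h.2⟩
  · rintro ⟨⟨U, A⟩, hU⟩ c g k k' ⟨⟨m, hm⟩, hn⟩ hg ⟨_, E1⟩ hk hk' h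
    have hm : A = {m} := hm
    subst hm
    induction c using c1_ind with
    | h v w hv hw hne e =>
      obtain ⟨gv, gw⟩ := actP hg hv hw hne e E1
      exact core3 hv hg gv hk hk' h

/-! ## homogeneous geometry -/

private theorem actC {p : gCnf.Str.Ob} {g : FGr} (hg : gCnf.Str.Adm p g (uC {lx} lx_c)) {v w : P2}
    (hv : v ∈ p.1.1) (hw : w ∈ p.1.1) (hne : v ≠ w) (e : Same p.1.2 v w)
    (hr : c1 v w hv hw hne e ∈ Ce p.1.1 p.1.2)
    (h : S1C.act hg ⟨c1 v w hv hw hne e, hr⟩ = oEC.2) :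
    lx.ev (g.g v) = 0 ∧ lx.ev (g.g w) = 0 := by
  have h' : S1C.act hg ⟨c1 v w hv hw hne e, hr⟩ = (⟨c1 (U := Set.univ) (A := {lx}) 0 e1 trivial
      trivial e1_ne same_lx, by
    change (0 : ℝ) * 0 = 0 * 1
    ring⟩ : S1C.X (uC {lx} lx_c)) := h
  have h0 : gCnf.S1.act hg (c1 v w hv hw hne e) =
    c1 (U := Set.univ) (A := {lx}) 0 e1 trivial trivial e1_ne same_lx := (Subtype.ext_iff.1 h' :)
  rw [gCnf.S1_act hg hv hw hne e] at h0
  exact ax (v := v) (w := w) (c1_eq.1 h0).1 (hg.2.2.1 v hv w hw e)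

private theorem kaut {k : FGr} (h : k ∈ gPLf.Str.autG (uP {lx})) (hk : k ∈ Cnf) :
    k ∈ gCnf.Str.autG (uC {lx} lx_c) :=
  ⟨⟨hk, h.1.2.1, h.1.2.2⟩, ⟨Cnf.inv_mem hk, h.2.2.1, h.2.2.2⟩⟩

theorem elEC_tor : HIso ((S1C.El.restr PEC).autF ⟨oEC, oEC_PEC⟩) := by
  refine el_tor S1C PEC oEC.1 oEC.2 oEC_PEC ?_ ?_ ?_
  · rintro ⟨⟨U, A⟩, hU⟩ ⟨c, hr⟩ ⟨⟨m, hm⟩, hn⟩
    have hm : A = {m} := hm
    subst hm
    revert hr
    induction c using c1_ind with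
    | h v w hv hw hne e =>
      intro hr hn _
      have hn : ¬ Gen {m} v := hn
      obtain ⟨mv, mw⟩ := ev_zero hn e
      obtain ⟨a, ha, h1, τ, ρ, hρ, h2, h3⟩ := h1C hne hr
      obtain ⟨M, N, h4⟩ := id h1
      have h : gCnf.Str.Adm (⟨(U, {m}), hU⟩ : gCnf.Str.Ob) a (uC {lx} lx_c) :=
        ⟨ha, fun _ _ => trivial, fun x _ y _ e => lx_aff h1 hne mv mw (by
          rw [h2]
          exact lx_smul _) (by
          rw [h3]
          exact lx_smul _) x y e, fun x _ => ⟨M, N, fun y _ => h4 y⟩⟩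
      refine ⟨a, h, Subtype.ext (act_c1 gCnf h hv hw hne e trivial trivial
        e1_ne same_lx ?_ ⟨-τ / ρ, ?_⟩ ⟨ρ⁻¹, inv_pos.2 hρ, ?_⟩)⟩
      · refine same_one.2 ?_
        rw [h2, lx_smul, lx_ev]
        rfl
      · rw [h2, h3, add_smul, add_sub_cancel_left, smul_smul, div_mul_cancel₀ _ hρ.ne', zero_sub,
          neg_smul]
      · rw [h2, h3, add_smul, add_sub_cancel_left, sub_zero, smul_smul, inv_mul_cancel₀ hρ.ne',
          one_smul]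
  · rintro ⟨⟨U, A⟩, hU⟩ ⟨c, hr⟩ g g' ⟨⟨m, hm⟩, hn⟩ hg hg' ⟨_, E1⟩ ⟨_, E2⟩
    have hm : A = {m} := hm
    subst hm
    revert hr
    induction c using c1_ind with
    | h v w hv hw hne e =>
      intro hr hn hm E1 E2
      have hn : ¬ Gen {m} v := hn
      obtain ⟨mv, mw⟩ := ev_zero hn e
      obtain ⟨gv, gw⟩ := actC hg hv hw hne e hr E1
      obtain ⟨gv', gw'⟩ := actC hg' hv hw hne e hr E2
      have hmc : m.c = 0 := hU.2 m (Finset.mem_singleton_self m)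
      obtain ⟨L1, b, hb, hbc, -, hb2⟩ := ext_biC hg.1 hU.1 hmc hv mv hg.2.2.2
      obtain ⟨L2, b', hb', hbc', -, hb2'⟩ := ext_biC hg'.1 hU.1 hmc hv mv hg'.2.2.2
      have h := core2 hb hb' hb2 hb2' hv hw hne mv mw gv gw gv' gw'
      have hk : b' * b⁻¹ ∈ Cnf := Cnf.mul_mem hbc' (Cnf.inv_mem hbc)
      exact ⟨b' * b⁻¹, kaut h.1 hk, Cnf.mul_mem (Cnf.inv_mem (Cnf.mul_mem hk hg.1)) hg'.1, h.2⟩
  · rintro ⟨⟨U, A⟩, hU⟩ ⟨c, hr⟩ g k k' ⟨⟨m, hm⟩, hn⟩ hg ⟨_, E1⟩ hk hk' h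
    have hm : A = {m} := hm
    subst hm
    revert hr
    induction c using c1_ind with
    | h v w hv hw hne e =>
      intro hr hn hm E1
      obtain ⟨gv, gw⟩ := actC hg hv hw hne e hr E1
      exact core3 (p := kOb ⟨(U, {m}), hU⟩) hv (kAdm hg) gv
        ⟨kAdm hk.1, kAdm hk.2⟩ ⟨kAdm hk'.1, kAdm hk'.2⟩ (kN h)

end C715
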