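import Pool.Agent.Work.MP_c71557_gt.K.ElEo
import Pool.Agent.Work.MP_c71557_gt.K.ElEc
import Pool.Agent.Work.MP_c71557_gt.K.ElEt

set_option autoImplicit false
set_option linter.unusedVariables false

/-!
# MP_c71557_gt, module K/ElE: the category of chords is equivalent to a group (proved from stubs)
-/

noncomputable section

namespace C715

open Ang CategoryTheory

theorem elEP_aut : HIso (gPLf.S1.El.autF oEP) :=
  ActCat.aut_restr gPLf.S1.El PE oEP oEP_PE elEP_tor elEP_over

theorem elEC_aut : HIso (S1C.El.autF oEC) :=
  ActCat.aut_restr S1C.El PEC oEC oEC_PEC elEC_tor elEC_over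

end C715
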