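import Pool.Agent.Work.MP_c71557_gt.K.Trl

set_option autoImplicit false
set_option linter.unusedVariables false

/-!
# MP_c71557_gt, module K/ExtA: extension of affine germs (M)

* `IsAff_comp`: composition of affine functions (`L3.ev_sub`).
* `af_uniq`: `a.g x = (m.ev x, n.ev x)` everywhere and `= x` on the open set `V`: `m`, `n` are the
  coordinate functions (an affine function which vanishes on a nonempty open set is zero: compare at
  `x0`, `x0 + (t, 0)`, `x0 + (0, t)`); so `a.g = 1`, and `a.ph = 1` by `ph_affine`.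
* `ext_af`: let `x0 ∈ V` and `F = a.ph x0`; by `Gf_exp` at `x0` and affinity near `x0`:
  `t • vec F θ = (m.lin (t • dir θ), n.lin (t • dir θ))` for small `t > 0`, so
  `vec F θ = (m.lin (dir θ), n.lin (dir θ))` for all `θ`, hence `(hf F).g z = (m.lin z, n.lin z)` for
  all `z` (`z = t • dir θ`, `hf_g`).  Put `b = trl (a.g x0) * hf F * trl (-x0)`:
  `b.g y = a.g x0 + (m.lin (y - x0), n.lin (y - x0)) = (m.ev y, n.ev y)` (`L3.ev_sub'`), so `b.g = a.g` on
  `V` and `IsAff b.g`.  `b.g⁻¹` is affine: the linear map `(m.lin, n.lin)` is injective, so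
  `m.a * n.b - m.b * n.a ≠ 0`, Cramer.  `b.ph x0 = 1 * (hf F).ph 0 * 1 = F`.  `d = b⁻¹ * a ∈ Gf` is the
  identity on `V` and `d.ph x0 = (b.ph x0)⁻¹ * a.ph x0 = 1`, so `d.ph = 1` on `V` (`ph_one_of_id`), that is
  `b.ph y = a.ph y` for `y ∈ V`.
* `ext_afC`: `a ∈ Cnf`, `V` a cone.  `(m.ev y, n.ev y) = a.g y` is homogeneous on the open cone `V`, so
  `m.c = n.c = 0` (compare `y` and `2 y`).  The `b` of `ext_af` satisfies `b.g y = (m.ev y, n.ev y)`, linear,
  hence `b ∈ Cnf`.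
* `cell_mem`: `cell V A x` is open (`Gen.nhds`: for `y` in it `Gen A y`, so nearby points are in it),
  convex (`Same.seg`), contains `x`.  `cell_memC`: for lines through `0`, `l.ev (t • y) = t * l.ev y`, so
  it is a cone.
-/

noncomputable section

namespace C715

open Ang CategoryTheory

open scoped Topology

private theorem L3_eq_of_open {l l' : L3} {V : Set P2} (hV : IsOpen V) {x0 : P2} (hx0 : x0 ∈ V)
    (h : ∀ x ∈ V, l.ev x = l'.ev x) : l = l' := by
  obtain ⟨e, he, hb⟩ := Metric.isOpen_iff.1 hV x0 hx0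
  have he2 : (0 : ℝ) < e / 2 := half_pos he
  have h1 : x0 + ((e / 2, 0) : P2) ∈ V := by
    apply hb
    rw [Metric.mem_ball, dist_eq_norm, add_sub_cancel_left, Prod.norm_mk, norm_zero,
      Real.norm_of_nonneg he2.le, max_eq_left he2.le]
    exact half_lt_self he
  have h2 : x0 + ((0, e / 2) : P2) ∈ V := by
    apply hb
    rw [Metric.mem_ball, dist_eq_norm, add_sub_cancel_left, Prod.norm_mk, norm_zero,
      Real.norm_of_nonneg he2.le, max_eq_right he2.le]
    exact half_lt_self he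
  have k0 := h x0 hx0
  have k1 := h _ h1
  have k2 := h _ h2
  simp only [L3.ev, Prod.fst_add, Prod.snd_add, add_zero] at k0 k1 k2
  have e1 : l.a = l'.a := by
    have : (l.a - l'.a) * (e / 2) = 0 := by linear_combination k1 - k0
    exact sub_eq_zero.1 ((mul_eq_zero.1 this).resolve_right he2.ne')
  have e2 : l.b = l'.b := by
    have : (l.b - l'.b) * (e / 2) = 0 := by linear_combination k2 - k0
    exact sub_eq_zero.1 ((mul_eq_zero.1 this).resolve_right he2.ne')
  have e3 : l.c = l'.c := by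
    rw [e1, e2] at k0
    exact add_left_cancel k0
  exact L3.ext e1 e2 e3

private theorem same_seg' {A : Finset Ln} {x y z : P2} (h : Same A x y) (hz : z ∈ segment ℝ x y) :
    Same A x z := by
  intro l hl
  have h1 := h l hl
  obtain ⟨a, b, ha, hb, hab, rfl⟩ := hz
  have h2 : l.ev (a • x + b • y) = a * l.ev x + b * l.ev y := by
    simp only [Ln.ev, Prod.fst_add, Prod.snd_add, Prod.smul_fst, Prod.smul_snd, smul_eq_mul]
    linear_combination (-l.c) * hab
  rw [h2]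
  rcases lt_trichotomy (l.ev x) 0 with h3 | h3 | h3
  · rw [sign_neg h3] at h1 ⊢
    have h4 := sign_eq_neg_one_iff.1 h1.symm
    symm
    rw [sign_eq_neg_one_iff]
    rcases lt_or_eq_of_le ha with h5 | h5
    · nlinarith
    · subst h5
      have : b = 1 := by linarith
      subst this
      linarith
  · rw [h3, sign_zero] at h1
    have h4 := sign_eq_zero_iff.1 h1.symm
    rw [h3, h4]
    simp
  · rw [sign_pos h3] at h1 ⊢
    have h4 := sign_eq_one_iff.1 h1.symm
    symm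
    rw [sign_eq_one_iff]
    rcases lt_or_eq_of_le ha with h5 | h5
    · nlinarith
    · subst h5
      have : b = 1 := by linarith
      subst this
      linarith

theorem IsAff_comp {g h : Equiv.Perm P2} (hg : IsAff g) (hh : IsAff h) : IsAff (g * h) := by
  obtain ⟨m, n, h1⟩ := hg
  obtain ⟨m', n', h2⟩ := hh
  refine ⟨m.sub m' n', n.sub m' n', fun x => ?_⟩
  rw [L3.ev_sub, L3.ev_sub, ← h2, Equiv.Perm.mul_apply, h1]

theorem af_uniq {a : FGr} (ha : a ∈ Gf) (h : IsAff a.g) {V : Set P2} (hV : IsOpen V) {x0 : P2}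
    (hx0 : x0 ∈ V) (h1 : ∀ x ∈ V, a.g x = x) (h2 : a.ph x0 = 1) : a = 1 := by
  obtain ⟨m, n, hmn⟩ := h
  have em : m = ⟨1, 0, 0⟩ := by
    refine L3_eq_of_open hV hx0 fun x hx => ?_
    have h3 := (hmn x).symm.trans (h1 x hx)
    have h4 : m.ev x = x.1 := congrArg Prod.fst h3
    rw [h4]
    simp [L3.ev]
  have en : n = ⟨0, 1, 0⟩ := by
    refine L3_eq_of_open hV hx0 fun x hx => ?_
    have h3 := (hmn x).symm.trans (h1 x hx)
    have h4 : n.ev x = x.2 := congrArg Prod.snd h3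
    rw [h4]
    simp [L3.ev]
  refine FGr.ext (Equiv.ext fun x => ?_) (funext fun x => ?_)
  · rw [hmn x, em, en]
    simp [L3.ev]
  · rw [ph_affine ha ⟨m, n, hmn⟩ x x0, h2]
    rfl

theorem ext_af {a : FGr} (ha : a ∈ Gf) {V : Set P2} (hV : IsOpen V) (hc : Convex ℝ V)
    (hne : V.Nonempty) (m n : L3) (h : ∀ y ∈ V, a.g y = (m.ev y, n.ev y)) :
    ∃ b ∈ Gf, (∀ y, b.g y = (m.ev y, n.ev y)) ∧ IsAff b.g ∧ IsAff b.g⁻¹ ∧
      ∀ y ∈ V, b.g y = a.g y ∧ b.ph y = a.ph y := by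
  obtain ⟨x0, hx0⟩ := hne
  obtain ⟨ε, hε, hexp⟩ := Gf_exp ha x0
  obtain ⟨δ, hδ, hball⟩ := Metric.isOpen_iff.1 hV x0 hx0
  set F : ↥Ft := a.ph x0 with hF
  have hvec : ∀ θ, vec F.1 θ = (m.lin (dir θ), n.lin (dir θ)) := by
    intro θ
    let t : ℝ := min ε (δ / 2)
    have ht : 0 < t := lt_min hε (half_pos hδ)
    have ht1 : t ≤ ε := min_le_left _ _
    have ht2 : t ≤ δ / 2 := min_le_right _ _
    have hmem : x0 + t • dir θ ∈ V := by
      apply hball
      rw [Metric.mem_ball, dist_eq_norm, add_sub_cancel_left, norm_smul, Real.norm_of_nonneg ht.le]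
      have := mul_le_mul_of_nonneg_left (dir_norm_le θ) ht.le
      linarith
    have h1 := hexp θ t ht.le ht1
    rw [h _ hmem, h x0 hx0] at h1
    have h2 : t • vec F.1 θ = t • ((m.lin (dir θ), n.lin (dir θ)) : P2) := by
      have e1 := L3.ev_sub' m x0 (x0 + t • dir θ)
      have e2 := L3.ev_sub' n x0 (x0 + t • dir θ)
      rw [add_sub_cancel_left, L3.lin_smul] at e1 e2
      have q1 : m.ev (x0 + t • dir θ) = m.ev x0 + (t • vec F.1 θ).1 := congrArg Prod.fst h1
      have q2 : n.ev (x0 + t • dir θ) = n.ev x0 + (t • vec F.1 θ).2 := congrArg Prod.snd h1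
      refine Prod.ext ?_ ?_
      · change (t • vec F.1 θ).1 = t * m.lin (dir θ)
        linarith
      · change (t • vec F.1 θ).2 = t * n.lin (dir θ)
        linarith
    exact smul_right_injective P2 ht.ne' h2
  have hhf : ∀ z, (hf F).g z = (m.lin z, n.lin z) := by
    intro z
    by_cases hz : z = 0
    · rw [hz, Cnf_zero (hf_mem F)]
      refine Prod.ext ?_ ?_
      · simp [L3.lin]
      · simp [L3.lin]
    · obtain ⟨t, θ, ht, -, -, rfl⟩ := exists_dir z hz 0
      rw [hf_g F θ t ht.le, hvec, L3.lin_smul, L3.lin_smul]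
      rfl
  let b : FGr := trl (a.g x0) * hf F * trl (-x0)
  have hb : b ∈ Gf := Gf.mul_mem (Gf.mul_mem (trl_mem _) (hf_mem F).1) (trl_mem _)
  have hbg : ∀ y, b.g y = (m.ev y, n.ev y) := by
    intro y
    change (hf F).g (y + -x0) + a.g x0 = _
    rw [hhf, h x0 hx0, ← sub_eq_add_neg, ← L3.ev_sub', ← L3.ev_sub']
    refine Prod.ext ?_ ?_
    · change m.ev y - m.ev x0 + m.ev x0 = m.ev y
      ring
    · change n.ev y - n.ev x0 + n.ev x0 = n.ev y
      ring
  have hbinj : ∀ v : P2, m.lin v = 0 → n.lin v = 0 → v = 0 := by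
    intro v h1 h2
    have e1 := L3.ev_sub' m x0 (x0 + v)
    have e2 := L3.ev_sub' n x0 (x0 + v)
    rw [add_sub_cancel_left] at e1 e2
    have h3 : b.g (x0 + v) = b.g x0 := by
      rw [hbg, hbg]
      refine Prod.ext ?_ ?_
      · change m.ev (x0 + v) = m.ev x0
        linarith
      · change n.ev (x0 + v) = n.ev x0
        linarith
    have h4 := b.g.injective h3
    exact left_eq_add.1 h4.symm
  have hD : m.a * n.b - m.b * n.a ≠ 0 := by
    intro hD
    have k1 : ((-m.b, m.a) : P2) = 0 := by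
      refine hbinj _ ?_ ?_
      · simp only [L3.lin]
        ring
      · simp only [L3.lin]
        linear_combination hD
    have k2 : ((-n.b, n.a) : P2) = 0 := by
      refine hbinj _ ?_ ?_
      · simp only [L3.lin]
        linear_combination -hD
      · simp only [L3.lin]
        ring
    have r1 : m.b = 0 := neg_eq_zero.1 (congrArg Prod.fst k1)
    have r2 : m.a = 0 := congrArg Prod.snd k1
    have r3 : n.b = 0 := neg_eq_zero.1 (congrArg Prod.fst k2)
    have r4 : n.a = 0 := congrArg Prod.snd k2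
    have k3 : ((1, 0) : P2) = 0 := by
      refine hbinj _ ?_ ?_
      · simp [L3.lin, r2]
      · simp [L3.lin, r4]
    have : (1 : ℝ) = 0 := congrArg Prod.fst k3
    norm_num at this
  have hinv : IsAff b.g⁻¹ := by
    obtain ⟨k, hk⟩ : ∃ k : ℝ, k * (m.a * n.b - m.b * n.a) = 1 := ⟨_, inv_mul_cancel₀ hD⟩
    refine ⟨⟨k * n.b, -(k * m.b), k * (m.b * n.c - n.b * m.c)⟩,
      ⟨-(k * n.a), k * m.a, k * (n.a * m.c - m.a * n.c)⟩, fun w => ?_⟩
    rw [Equiv.Perm.inv_eq_iff_eq, hbg]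
    refine Prod.ext ?_ ?_
    · simp only [L3.ev]
      linear_combination (m.c - w.1) * hk
    · simp only [L3.ev]
      linear_combination (n.c - w.2) * hk
  have hbph : b.ph x0 = F := by
    change (trl (a.g x0) * hf F).ph ((trl (-x0)).g x0) * (trl (-x0)).ph x0 = F
    rw [trl_g, trl_ph, add_neg_cancel, mul_one, FGr.mul_ph, trl_ph, one_mul, hf_ph]
  have hba : ∀ y ∈ V, b.g y = a.g y := fun y hy => by rw [hbg, h y hy]
  have hbi : ∀ y ∈ V, b.g⁻¹ (a.g y) = y := fun y hy => by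
    rw [Equiv.Perm.inv_eq_iff_eq, hba y hy]
  have hd : b⁻¹ * a ∈ Gf := Gf.mul_mem (Gf.inv_mem hb) ha
  have hdg : ∀ y ∈ V, (b⁻¹ * a).g y = y := fun y hy => hbi y hy
  have hdph : ∀ y ∈ V, (b⁻¹ * a).ph y = (b.ph y)⁻¹ * a.ph y := by
    intro y hy
    rw [FGr.mul_ph, FGr.inv_ph, hbi y hy]
  have hd0 : (b⁻¹ * a).ph x0 = 1 := by
    rw [hdph x0 hx0, hbph, hF, inv_mul_cancel]
  refine ⟨b, hb, hbg, ⟨m, n, hbg⟩, hinv, fun y hy => ⟨hba y hy, ?_⟩⟩
  have h3 := ph_one_of_id hd hV hc hdg hx0 hd0 y hy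
  rw [hdph y hy, inv_mul_eq_one] at h3
  exact h3

theorem ext_afC {a : FGr} (ha : a ∈ Cnf) {V : Set P2} (hV : V ∈ gCnf.U) (m n : L3)
    (h : ∀ y ∈ V, a.g y = (m.ev y, n.ev y)) :
    ∃ b ∈ Cnf, (∀ y, b.g y = (m.ev y, n.ev y)) ∧ IsAff b.g ∧ IsAff b.g⁻¹ ∧
      ∀ y ∈ V, b.g y = a.g y ∧ b.ph y = a.ph y := by
  obtain ⟨ho, hc, hne, hcone⟩ := hV
  obtain ⟨b, hb, h1, h2, h3, h4⟩ := ext_af ha.1 ho hc hne m n h
  obtain ⟨y, hy⟩ := hne
  have h5 := ha.2 2 y two_pos
  rw [h _ (hcone 2 y two_pos hy), h y hy] at h5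
  have hm : m.c = 0 := by
    have q : m.ev ((2 : ℝ) • y) = 2 * m.ev y := congrArg Prod.fst h5
    simp only [L3.ev, Prod.smul_fst, Prod.smul_snd, smul_eq_mul] at q
    linarith
  have hn : n.c = 0 := by
    have q : n.ev ((2 : ℝ) • y) = 2 * n.ev y := congrArg Prod.snd h5
    simp only [L3.ev, Prod.smul_fst, Prod.smul_snd, smul_eq_mul] at q
    linarith
  refine ⟨b, ⟨hb, fun t x ht => ?_⟩, h1, h2, h3, h4⟩
  rw [h1, h1]
  refine Prod.ext ?_ ?_
  · change m.ev (t • x) = t * m.ev x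
    simp only [L3.ev, Prod.smul_fst, Prod.smul_snd, smul_eq_mul, hm]
    ring
  · change n.ev (t • x) = t * n.ev x
    simp only [L3.ev, Prod.smul_fst, Prod.smul_snd, smul_eq_mul, hn]
    ring

private theorem cell_aux {U : Set P2} {A : Finset Ln} (ho : IsOpen U) (hc : Convex ℝ U) {x : P2}
    (hx : x ∈ U) (h : Gen A x) :
    IsOpen (cell U A x) ∧ Convex ℝ (cell U A x) ∧ (cell U A x).Nonempty := by
  refine ⟨?_, ?_, ⟨x, hx, Same.refl _ _⟩⟩
  · rw [isOpen_iff_mem_nhds]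
    intro y hy
    filter_upwards [(h.same hy.2).nhds, ho.mem_nhds hy.1] with z hz hzU
    exact ⟨hzU, hy.2.trans hz⟩
  · rw [convex_iff_segment_subset]
    intro y hy z hz w hw
    exact ⟨hc.segment_subset hy.1 hz.1 hw,
      hy.2.trans (same_seg' (hy.2.symm.trans hz.2) hw)⟩

theorem cell_mem (p : gPLf.Str.Ob) {x : P2} (hx : x ∈ p.1.1) (h : Gen p.1.2 x) :
    cell p.1.1 p.1.2 x ∈ gPLf.U :=
  cell_aux p.2.1.1 p.2.1.2.1 hx h

theorem cell_memC (p : gCnf.Str.Ob) {x : P2} (hx : x ∈ p.1.1) (h : Gen p.1.2 x) :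
    cell p.1.1 p.1.2 x ∈ gCnf.U := by
  obtain ⟨h1, h2, h3⟩ := cell_aux p.2.1.1 p.2.1.2.1 hx h
  refine ⟨h1, h2, h3, fun t y ht hy => ⟨p.2.1.2.2.2 t y ht hy.1, fun l hl => ?_⟩⟩
  have hlc : l.c = 0 := p.2.2 l hl
  have e : l.ev (t • y) = t * l.ev y := by
    simp only [Ln.ev, Prod.smul_fst, Prod.smul_snd, smul_eq_mul, hlc]
    ring
  rw [e, sign_mul, sign_pos ht, one_mul]
  exact hy.2 l hl

end C715
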