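import Pool.Agent.Work.MP_c71557_gt.K.Defs2
import Pool.Agent.Work.MP_c71557_gt.K.ExtA

set_option autoImplicit false
set_option linter.unusedVariables false

/-!
# MP_c71557_gt, module K/ElN: the category of chords in 2-cells is equivalent to a group (M)

`A` = `S1NP.El` (resp. `S1NC.El`), `P o` : the set of lines of `o` is empty.  By
`ActCat.aut_restr` it is enough to prove that `A.restrIncl P` and `(A.restr P).autF ⟨oNP, rfl⟩` are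
homology isomorphisms.  (The same structure as K/El2.)

(1) `A.restrIncl P`: `quillenA_over` with `acy_over_top` at `b = ((U, A), c)`, `c = c1 x y` with
`Gen A x`: `a0 = ((cell U A x, ∅), c1 x y)` (`cell_mem`, `cell_memC`; `y ∈ cell U A x`), `g0 = 1`.
`htop`: `g : ((V, ∅), c1 v w) → b` with `act g (c1 v w) = c1 x y`, so `Same A (g v) x`; `k = g`: for
`z ∈ V`, `Same A (g z) (g v)`, so `g z ∈ cell U A x`; `g` is affine on `V`; `act k (c1 v w) = c1 x y` in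
`(cell, ∅)`: the same `s`, `t` as in `(U, A)` (`c1_eq`).
(2) `ActCat.tor_hiso` for `A.restr P` at `oNP`.
`h1`: `b = ((V, ∅), c1 v w)`: let `w - v = ρ • dir α`, `ρ > 0`; `g = R * trl (-v)`, `R` from
`exists_rt (-α)`: `g v = 0` (`Cnf_zero`), `g w = ρ • dir 0 = ρ • e1`; affine; `act g (c1 v w) = c1 0 e1`
(`s = 0`, `t = ρ⁻¹`).  Homogeneous case: `g = R` (in `Cnf`): the chord is radial, so `v = τ • dir α` for a
real `τ` and `w = (τ + ρ) • dir α`; `R v = τ • e1`, `R w = (τ + ρ) • e1` (for negative coefficients use that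
`R` is affine, or that `-dir α = dir (α + π)`).
`h2`: `g, g' : b → o` affine on `V`; `ext_af` (`ext_afC`): `b1 = g`, `b2 = g'` on `V`;
`k = b2 * b1⁻¹`; `(k * g)⁻¹ * g'` is the identity with framing 1 on `V` (see K/El2).  `k ∈ autG`:
`k`, `k⁻¹` are affine, and on chords of the plane (with no lines):
`k · c1 0 e1 = k · c1 (g v) (g w) = c1 (b2 v) (b2 w) = c1 (g' v) (g' w) = c1 0 e1` (the action is well
defined on classes; `g v = b1 v`), the same for `k⁻¹`.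
`h3`: as in K/El2 (`af_uniq` on the open set `g (V)`).
-/

noncomputable section

namespace C715

open Ang CategoryTheory

/-- torsors of elements -/
private theorem el_tor {Γ : Type} [Group Γ] {A : ActCat Γ} (S : ActSet A)
    (P : (Σ a : A.Ob, S.X a) → Prop) (q : A.Ob) (y : S.X q) (ho : P ⟨q, y⟩)
    (h1 : ∀ b x, P ⟨b, x⟩ → ∃ (g : Γ) (h : A.Adm b g q), S.act h x = y)
    (h2 : ∀ b x g g', P ⟨b, x⟩ → A.Adm b g q → A.Adm b g' q →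
      (∃ h : A.Adm b g q, S.act h x = y) → (∃ h : A.Adm b g' q, S.act h x = y) →
      ∃ k ∈ A.autG q, (k * g)⁻¹ * g' ∈ A.N b)
    (h3 : ∀ b x g k k', P ⟨b, x⟩ → A.Adm b g q → (∃ h : A.Adm b g q, S.act h x = y) →
      k ∈ A.autG q → k' ∈ A.autG q → (k * g)⁻¹ * (k' * g) ∈ A.N b → k = k') :
    HIso ((S.El.restr P).autF ⟨(⟨q, y⟩ : Σ a : A.Ob, S.X a), ho⟩) := by
  refine ActCat.tor_hiso _ _ ?_ ?_ ?_
  · rintro ⟨⟨b, x⟩, hb⟩
    obtain ⟨g, h, e⟩ := h1 b x hb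
    exact ⟨g, h, e⟩
  · rintro ⟨⟨b, x⟩, hb⟩ g g' ⟨hg, e⟩ ⟨hg', e'⟩
    have hg : A.Adm b g q := hg
    have hg' : A.Adm b g' q := hg'
    have e : S.act hg x = y := e
    have e' : S.act hg' x = y := e'
    obtain ⟨k, hk, h⟩ := h2 b x g g' hb hg hg' ⟨hg, e⟩ ⟨hg', e'⟩
    have h4 : S.act hk.1 y = y := by
      have h5 : S.act hk.1 (S.act hg x) = S.act hg' x := by
        rw [← S.act_mul]
        exact S.act_eq _ _ h _
      rwa [e, e'] at h5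
    have h5 : S.act hk.2 y = y := by
      have h6 : S.act (A.mul hk.1 hk.2) y = S.act (A.one q) y :=
        S.act_eq (A.mul hk.1 hk.2) (A.one q) (by
          rw [inv_mul_cancel, inv_one, one_mul]
          exact Subgroup.one_mem _) y
      rwa [S.act_mul hk.1 hk.2, S.act_one, h4] at h6
    exact ⟨k, ⟨⟨hk.1, h4⟩, ⟨hk.2, h5⟩⟩, h⟩
  · rintro ⟨⟨b, x⟩, hb⟩ g k k' ⟨hg, e⟩ hk hk' h
    exact h3 b x g k k' hb hg ⟨hg, e⟩ ⟨hk.1.1, hk.2.1⟩ ⟨hk'.1.1, hk'.2.1⟩ h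

private theorem act_c1 (𝔾 : FGeo) {p q : 𝔾.Str.Ob} {a : FGr} (h : 𝔾.Str.Adm p a q) {v w v' w' : P2}
    (hv : v ∈ p.1.1) (hw : w ∈ p.1.1) (hne : v ≠ w) (e : Same p.1.2 v w) (hv' : v' ∈ q.1.1)
    (hw' : w' ∈ q.1.1) (hne' : v' ≠ w') (e' : Same q.1.2 v' w') (h1 : Same q.1.2 (a.g v) v')
    (h2 : ∃ s : ℝ, v' - a.g v = s • (a.g w - a.g v))
    (h3 : ∃ t : ℝ, 0 < t ∧ w' - v' = t • (a.g w - a.g v)) :
    𝔾.S1.act h (c1 v w hv hw hne e) = c1 v' w' hv' hw' hne' e' := by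
  rw [𝔾.S1_act h hv hw hne e]
  exact c1_eq.2 ⟨h1, h2, h3⟩

/-- the cell of a point without lines -/
private def cOb (𝔾 : FGeo) (p : 𝔾.Str.Ob) (x : P2) (h : cell p.1.1 p.1.2 x ∈ 𝔾.U) : 𝔾.Str.Ob :=
  ⟨(cell p.1.1 p.1.2 x, ∅), h, fun l hl => absurd hl (Finset.notMem_empty l)⟩

private theorem cOb_adm (𝔾 : FGeo) (p : 𝔾.Str.Ob) (x : P2) (h : cell p.1.1 p.1.2 x ∈ 𝔾.U) :
    𝔾.Str.Adm (cOb 𝔾 p x h) 1 p :=
  ⟨𝔾.G.one_mem, fun y hy => hy.1, fun y hy z hz _ => (Same.symm hy.2).trans hz.2,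
    fun y hy => ⟨⟨1, 0, 0⟩, ⟨0, 1, 0⟩, fun y _ => by simp [L3.ev]⟩⟩

private theorem cOb_fac (𝔾 : FGeo) (p : 𝔾.Str.Ob) (x : P2) (h : cell p.1.1 p.1.2 x ∈ 𝔾.U)
    {q : 𝔾.Str.Ob} (hq : q.1.2 = ∅) {g : FGr} (hg : 𝔾.Str.Adm q g p) {v : P2} (hv : v ∈ q.1.1)
    (he : Same p.1.2 x (g.g v)) : 𝔾.Str.Adm q g (cOb 𝔾 p x h) :=
  ⟨hg.1, fun y hy => ⟨hg.2.1 y hy, he.trans (hg.2.2.1 v hv y hy (by
    rw [hq]
    exact same_emp _ _))⟩, fun y hy z hz _ => same_emp _ _, hg.2.2.2⟩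

/-- affine maps on objects without lines -/
private theorem emp_aff (𝔾 : FGeo) {p q : 𝔾.Str.Ob} (hp : p.1.2 = ∅) {g : FGr}
    (hg : 𝔾.Str.Adm p g q) : ∃ m n : L3, ∀ y ∈ p.1.1, g.g y = (m.ev y, n.ev y) := by
  obtain ⟨x, hx⟩ := (𝔾.hU _ p.2.1).2.2
  obtain ⟨m, n, h⟩ := hg.2.2.2 x hx
  refine ⟨m, n, fun y hy => h y ⟨hy, ?_⟩⟩
  rw [hp]
  exact same_emp _ _

private theorem emp_adm (𝔾 : FGeo) {q : 𝔾.Str.Ob} (hq : q.1.2 = ∅) (hq' : q.1.1 = Set.univ)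
    {k : FGr} (hk : k ∈ 𝔾.G) (ha : IsAff k.g) : 𝔾.Str.Adm q k q := by
  obtain ⟨m, n, h⟩ := ha
  refine ⟨hk, fun x _ => ?_, fun x _ y _ _ => ?_, fun x _ => ⟨m, n, fun y _ => h y⟩⟩
  · rw [hq']
    trivial
  · rw [hq]
    exact same_emp _ _

private theorem emp_h2 (𝔾 : FGeo)
    (hext : ∀ a ∈ 𝔾.G, ∀ V ∈ 𝔾.U, ∀ m n : L3, (∀ y ∈ V, a.g y = (m.ev y, n.ev y)) →
      ∃ b ∈ 𝔾.G, IsAff b.g ∧ IsAff b.g⁻¹ ∧ ∀ y ∈ V, b.g y = a.g y ∧ b.ph y = a.ph y)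
    {p q : 𝔾.Str.Ob} (hp : p.1.2 = ∅) (hq : q.1.2 = ∅) (hq' : q.1.1 = Set.univ) {g g' : FGr}
    (hg : 𝔾.Str.Adm p g q) (hg' : 𝔾.Str.Adm p g' q) :
    ∃ k ∈ 𝔾.Str.autG q, (k * g)⁻¹ * g' ∈ 𝔾.Str.N p := by
  obtain ⟨m, n, h⟩ := emp_aff 𝔾 hp hg
  obtain ⟨m', n', h'⟩ := emp_aff 𝔾 hp hg'
  obtain ⟨b, hb, b1, b2, b3⟩ := hext g hg.1 p.1.1 p.2.1 m n h
  obtain ⟨b', hb', b1', b2', b3'⟩ := hext g' hg'.1 p.1.1 p.2.1 m' n' h'
  have e1 : ∀ y ∈ p.1.1, b⁻¹.g (g.g y) = y := fun y hy => by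
    rw [← (b3 y hy).1]
    exact b.inv_apply y
  have e2 : ∀ y ∈ p.1.1, (b' * b⁻¹ * g).g y = g'.g y := fun y hy => by
    change b'.g (b⁻¹.g (g.g y)) = g'.g y
    rw [e1 y hy, (b3' y hy).1]
  have e3 : ∀ y ∈ p.1.1, (b' * b⁻¹ * g).ph y = g'.ph y := fun y hy => by
    change b'.ph (b⁻¹.g (g.g y)) * (b.ph (b⁻¹.g (g.g y)))⁻¹ * g.ph y = g'.ph y
    rw [e1 y hy, (b3 y hy).2, (b3' y hy).2, inv_mul_cancel_right]
  refine ⟨b' * b⁻¹, ⟨emp_adm 𝔾 hq hq' (𝔾.G.mul_mem hb' (𝔾.G.inv_mem hb)) (IsAff_comp b1' b2),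
    emp_adm 𝔾 hq hq' (𝔾.G.inv_mem (𝔾.G.mul_mem hb' (𝔾.G.inv_mem hb))) ?_⟩, ?_, fun y hy => ?_⟩
  · have h5 : (b' * b⁻¹)⁻¹.g = b.g * b'.g⁻¹ := by
      rw [mul_inv_rev, inv_inv]
      rfl
    rw [h5]
    exact IsAff_comp b1 b2'
  · exact 𝔾.G.mul_mem (𝔾.G.inv_mem (𝔾.G.mul_mem (𝔾.G.mul_mem hb' (𝔾.G.inv_mem hb)) hg.1)) hg'.1
  · have h6 : (b' * b⁻¹ * g)⁻¹.g (g'.g y) = y := by
      rw [← e2 y hy]
      exact FGr.inv_apply _ y
    refine ⟨h6, ?_⟩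
    change ((b' * b⁻¹ * g).ph ((b' * b⁻¹ * g)⁻¹.g (g'.g y)))⁻¹ * g'.ph y = 1
    rw [h6, e3 y hy, inv_mul_cancel]

private theorem emp_h3 (𝔾 : FGeo) {p q : 𝔾.Str.Ob} (hq : q.1.2 = ∅) (hq' : q.1.1 = Set.univ)
    {g k k' : FGr} (hg : 𝔾.Str.Adm p g q) (hk : k ∈ 𝔾.Str.autG q) (hk' : k' ∈ 𝔾.Str.autG q)
    (h : (k * g)⁻¹ * (k' * g) ∈ 𝔾.Str.N p) : k = k' := by
  obtain ⟨x0, hx0⟩ := (𝔾.hU _ p.2.1).2.2
  have hd := 𝔾.Str.mul hk'.1 hk.2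
  have hd' : k⁻¹ * k' ∈ Gf := 𝔾.hG hd.1
  have e0 : k⁻¹ * k' = g * ((k * g)⁻¹ * (k' * g)) * g⁻¹ := by group
  have e1 : ∀ y ∈ p.1.1, (k⁻¹ * k').g (g.g y) = g.g y ∧ (k⁻¹ * k').ph (g.g y) = 1 := by
    intro y hy
    have h1 := h.2 y hy
    have h2 : g⁻¹.g (g.g y) = y := g.inv_apply y
    rw [e0]
    constructor
    · change g.g (((k * g)⁻¹ * (k' * g)).g (g⁻¹.g (g.g y))) = g.g y
      rw [h2, h1.1]
    · change g.ph (((k * g)⁻¹ * (k' * g)).g (g⁻¹.g (g.g y))) *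
        ((k * g)⁻¹ * (k' * g)).ph (g⁻¹.g (g.g y)) * (g.ph (g⁻¹.g (g.g y)))⁻¹ = 1
      rw [h2, h1.1, h1.2, mul_one, mul_inv_cancel]
  have haff : IsAff (k⁻¹ * k').g := by
    obtain ⟨m, n, h5⟩ := emp_aff 𝔾 hq hd
    exact ⟨m, n, fun y => h5 y (by
      rw [hq']
      trivial)⟩
  have hop : IsOpen (g.g '' p.1.1) := by
    have h6 : g.g '' p.1.1 = g.g.symm ⁻¹' p.1.1 := Equiv.image_eq_preimage_symm g.g p.1.1
    rw [h6]
    exact (𝔾.Ob_open p).preimage (Gf_PLH (𝔾.hG hg.1)).2.cont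
  have h7 := af_uniq hd' haff hop ⟨x0, hx0, rfl⟩ (by
    rintro _ ⟨y, hy, rfl⟩
    exact (e1 y hy).1) (e1 x0 hx0).2
  exact inv_mul_eq_one.1 h7

private theorem hextP : ∀ a ∈ gPLf.G, ∀ V ∈ gPLf.U, ∀ m n : L3,
    (∀ y ∈ V, a.g y = (m.ev y, n.ev y)) →
      ∃ b ∈ gPLf.G, IsAff b.g ∧ IsAff b.g⁻¹ ∧ ∀ y ∈ V, b.g y = a.g y ∧ b.ph y = a.ph y := by
  intro a ha V hV m n h
  obtain ⟨b, hb, -, h1⟩ := ext_af ha hV.1 hV.2.1 hV.2.2 m n h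
  exact ⟨b, hb, h1⟩

private theorem hextC : ∀ a ∈ gCnf.G, ∀ V ∈ gCnf.U, ∀ m n : L3,
    (∀ y ∈ V, a.g y = (m.ev y, n.ev y)) →
      ∃ b ∈ gCnf.G, IsAff b.g ∧ IsAff b.g⁻¹ ∧ ∀ y ∈ V, b.g y = a.g y ∧ b.ph y = a.ph y := by
  intro a ha V hV m n h
  obtain ⟨b, hb, -, h1⟩ := ext_afC ha hV m n h
  exact ⟨b, hb, h1⟩

private theorem dir_zero : dir 0 = e1 := by
  simp [dir, e1]

private theorem exists_sub {v w : P2} (hne : v ≠ w) : ∃ α ρ : ℝ, 0 < ρ ∧ w - v = ρ • dir α := by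
  obtain ⟨t, θ, ht, -, -, h⟩ := exists_dir (w - v) (sub_ne_zero.2 hne.symm) 0
  exact ⟨θ, t, ht, h⟩

/-- the chord goes to the x-axis -/
private theorem h1P {v w : P2} (hne : v ≠ w) : ∃ a ∈ Gf, IsAff a.g ∧ a.g v = 0 ∧
    ∃ ρ : ℝ, 0 < ρ ∧ a.g w = ρ • e1 := by
  obtain ⟨α, ρ, hρ, e⟩ := exists_sub hne
  obtain ⟨R, hR, r1, r2, r3⟩ := exists_rt (-α)
  have ht : IsAff (trl (-v)).g := ⟨⟨1, 0, -v.1⟩, ⟨0, 1, -v.2⟩, fun x => by
    rw [trl_g]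
    ext <;> simp [L3.ev]⟩
  refine ⟨R * trl (-v), Gf.mul_mem hR.1 (trl_mem _), IsAff_comp r1 ht, ?_, ρ, hρ, ?_⟩
  · change R.g (v + -v) = 0
    rw [add_neg_cancel]
    exact Cnf_zero hR
  · change R.g (w + -v) = ρ • e1
    rw [← sub_eq_add_neg, e, r3 α ρ hρ.le, add_neg_cancel, dir_zero]

private theorem aff_lin {R : FGr} (h : IsAff R.g) (h0 : R.g 0 = 0) (s : ℝ) (x : P2) :
    R.g (s • x) = s • R.g x := by
  obtain ⟨m, n, h⟩ := h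
  have h1 := h 0
  rw [h0] at h1
  have h2 : m.c = 0 := by
    have := congrArg Prod.fst h1
    simpa [L3.ev] using this.symm
  have h3 : n.c = 0 := by
    have := congrArg Prod.snd h1
    simpa [L3.ev] using this.symm
  rw [h, h]
  ext
  · simp only [L3.ev, h2, Prod.smul_fst, Prod.smul_snd, smul_eq_mul]
    ring
  · simp only [L3.ev, h3, Prod.smul_fst, Prod.smul_snd, smul_eq_mul]
    ring

private theorem h1C {v w : P2} (hne : v ≠ w) (hr : v.1 * w.2 = v.2 * w.1) :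
    ∃ a ∈ Cnf, IsAff a.g ∧ ∃ τ ρ : ℝ, 0 < ρ ∧ a.g v = τ • e1 ∧ a.g w = (τ + ρ) • e1 := by
  obtain ⟨α, ρ, hρ, e⟩ := exists_sub hne
  obtain ⟨R, hR, r1, r2, r3⟩ := exists_rt (-α)
  have hl := aff_lin r1 (Cnf_zero hR)
  have hd : R.g (dir α) = e1 := by
    have h1 := r3 α 1 zero_le_one
    rwa [one_smul, one_smul, add_neg_cancel, dir_zero] at h1
  have ev1 : w.1 = v.1 + ρ * Real.cos α := by
    have := congrArg Prod.fst e
    change w.1 - v.1 = ρ * Real.cos α at this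
    linarith
  have ev2 : w.2 = v.2 + ρ * Real.sin α := by
    have := congrArg Prod.snd e
    change w.2 - v.2 = ρ * Real.sin α at this
    linarith
  have h3 : v.1 * Real.sin α = v.2 * Real.cos α := by
    rw [ev1, ev2] at hr
    have h4 : ρ * (v.1 * Real.sin α - v.2 * Real.cos α) = 0 := by linarith
    rcases mul_eq_zero.1 h4 with h5 | h5
    · exact absurd h5 hρ.ne'
    · linarith
  have h6 := Real.sin_sq_add_cos_sq α
  have hv : v = (v.1 * Real.cos α + v.2 * Real.sin α) • dir α := by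
    ext
    · change v.1 = (v.1 * Real.cos α + v.2 * Real.sin α) * Real.cos α
      have : (v.1 * Real.cos α + v.2 * Real.sin α) * Real.cos α =
        v.1 * Real.cos α ^ 2 + Real.sin α * (v.2 * Real.cos α) := by ring
      rw [this, ← h3]
      linear_combination (-v.1) * h6
    · change v.2 = (v.1 * Real.cos α + v.2 * Real.sin α) * Real.sin α
      have : (v.1 * Real.cos α + v.2 * Real.sin α) * Real.sin α =
        v.2 * Real.sin α ^ 2 + Real.cos α * (v.1 * Real.sin α) := by ring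
      rw [this, h3]
      linear_combination (-v.2) * h6
  refine ⟨R, hR, r1, v.1 * Real.cos α + v.2 * Real.sin α, ρ, hρ, ?_, ?_⟩
  · conv_lhs => rw [hv]
    rw [hl, hd]
  · have hw : w = (v.1 * Real.cos α + v.2 * Real.sin α + ρ) • dir α := by
      rw [add_smul, ← hv, ← e]
      abel
    conv_lhs => rw [hw]
    rw [hl, hd]

/-! ## piecewise linear geometry -/

private theorem tor_P : HIso ((S1NP.El.restr fun o => o.1.1.2 = ∅).autF ⟨oNP, rfl⟩) := by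
  refine el_tor S1NP (fun o => o.1.1.2 = ∅) oNP.1 oNP.2 rfl ?_
    (fun b x g g' hb hg hg' _ _ => emp_h2 gPLf hextP hb rfl rfl hg hg')
    (fun b x g k k' hb hg _ hk hk' h => emp_h3 gPLf rfl rfl hg hk hk' h)
  rintro ⟨⟨U, A⟩, hU⟩ ⟨c, hc⟩ hb
  have hb : A = ∅ := hb
  subst hb
  induction c using c1_ind with
  | h v w hv hw hne e =>
    obtain ⟨a, ha, h1, h2, ρ, hρ, h3⟩ := h1P hne
    obtain ⟨m, n, h4⟩ := h1
    have h : gPLf.Str.Adm (⟨(U, ∅), hU⟩ : gPLf.Str.Ob) a (uP ∅) :=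
      ⟨ha, fun _ _ => trivial, fun x _ y _ _ => same_emp _ _, fun x _ => ⟨m, n, fun y _ => h4 y⟩⟩
    refine ⟨a, h, Subtype.ext (act_c1 gPLf h hv hw hne e trivial trivial
        e1_ne (same_emp _ _) (same_emp _ _) ⟨0, ?_⟩ ⟨ρ⁻¹, inv_pos.2 hρ, ?_⟩)⟩
    · rw [h2, zero_smul, sub_zero]
    · rw [h2, h3, sub_zero, sub_zero, smul_smul, inv_mul_cancel₀ hρ.ne', one_smul]

private theorem over_P : HIso (S1NP.El.restrIncl fun o => o.1.1.2 = ∅) := by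
  refine quillenA_over _ ?_
  rintro ⟨⟨p, c, hc⟩⟩
  revert hc
  induction c using c1_ind with
  | h x y hx hy hne e =>
    intro hc
    have hc' : Gen p.1.2 x := hc
    refine ActCat.acy_over_top (A := S1NP.El.restr fun o => o.1.1.2 = ∅) (A' := S1NP.El)
      (fun a => a.1) (fun h => h) (fun h => h) _
      ⟨⟨cOb gPLf p x (cell_mem p hx hc'), ⟨c1 x y ⟨hx, Same.refl _ _⟩ ⟨hy, e⟩ hne (same_emp _ _),
        gen_emp x⟩⟩, rfl⟩ 1 ⟨cOb_adm gPLf p x (cell_mem p hx hc'), rfl⟩ ?_ (fun _ _ _ _ _ h => h)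
    rintro ⟨⟨q, d, hd⟩, hq⟩ g ⟨hg, hg'⟩
    revert hd
    induction d using c1_ind with
    | h v w hv hw hne' e' =>
      intro hd hq hg hg'
      have hg' : S1NP.act (a := q) (b := p) hg ⟨c1 v w hv hw hne' e', hd⟩ =
        ⟨c1 x y hx hy hne e, hc⟩ := hg'
      have h0 : gPLf.S1.act hg (c1 v w hv hw hne' e') = c1 x y hx hy hne e :=
        (Subtype.ext_iff.1 hg' :)
      rw [gPLf.S1_act hg hv hw hne' e'] at h0
      have h1 := c1_eq.1 h0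
      have h2 := cOb_fac gPLf p x (cell_mem p hx hc') hq hg hv h1.1.symm
      refine ⟨g, ⟨h2, Subtype.ext (act_c1 gPLf h2 hv hw hne' e'
        ⟨hx, Same.refl _ _⟩ ⟨hy, e⟩ hne (same_emp _ _) (same_emp _ _) h1.2.1 h1.2.2)⟩, ?_⟩
      rw [one_mul, inv_mul_cancel]
      exact Subgroup.one_mem _

theorem elNP_aut : HIso (S1NP.El.autF oNP) :=
  ActCat.aut_restr S1NP.El (fun o => o.1.1.2 = ∅) oNP rfl tor_P over_P

/-! ## homogeneous geometry -/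

private theorem tor_C : HIso ((S1NC.El.restr fun o => o.1.1.2 = ∅).autF ⟨oNC, rfl⟩) := by
  refine el_tor S1NC (fun o => o.1.1.2 = ∅) oNC.1 oNC.2 rfl ?_
    (fun b x g g' hb hg hg' _ _ => emp_h2 gCnf hextC hb rfl rfl hg hg')
    (fun b x g k k' hb hg _ hk hk' h => emp_h3 gCnf rfl rfl hg hk hk' h)
  rintro ⟨⟨U, A⟩, hU⟩ ⟨⟨c, hr⟩, hc⟩ hb
  have hb : A = ∅ := hb
  subst hb
  revert hc hr
  induction c using c1_ind with
  | h v w hv hw hne e =>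
    intro hr hc _
    obtain ⟨a, ha, h1, τ, ρ, hρ, h2, h3⟩ := h1C hne hr
    obtain ⟨m, n, h4⟩ := h1
    have h : gCnf.Str.Adm (⟨(U, ∅), hU⟩ : gCnf.Str.Ob) a (uC ∅ emp_c) :=
      ⟨ha, fun _ _ => trivial, fun x _ y _ _ => same_emp _ _, fun x _ => ⟨m, n, fun y _ => h4 y⟩⟩
    refine ⟨a, h, Subtype.ext (Subtype.ext (act_c1 gCnf h hv hw hne e
        trivial trivial e1_ne (same_emp _ _) (same_emp _ _) ⟨-τ / ρ, ?_⟩
        ⟨ρ⁻¹, inv_pos.2 hρ, ?_⟩))⟩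
    · rw [h2, h3, add_smul, add_sub_cancel_left, smul_smul, div_mul_cancel₀ _ hρ.ne', zero_sub,
        neg_smul]
    · rw [h2, h3, add_smul, add_sub_cancel_left, sub_zero, smul_smul, inv_mul_cancel₀ hρ.ne',
        one_smul]

private theorem over_C : HIso (S1NC.El.restrIncl fun o => o.1.1.2 = ∅) := by
  refine quillenA_over _ ?_
  rintro ⟨⟨p, ⟨c, hr⟩, hc⟩⟩
  revert hc hr
  induction c using c1_ind with
  | h x y hx hy hne e =>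
    intro hr hc
    have hc' : Gen p.1.2 x := hc
    refine ActCat.acy_over_top (A := S1NC.El.restr fun o => o.1.1.2 = ∅) (A' := S1NC.El)
      (fun a => a.1) (fun h => h) (fun h => h) _
      ⟨⟨cOb gCnf p x (cell_memC p hx hc'), ⟨⟨c1 x y ⟨hx, Same.refl _ _⟩ ⟨hy, e⟩ hne (same_emp _ _),
        hr⟩, gen_emp x⟩⟩, rfl⟩ 1 ⟨cOb_adm gCnf p x (cell_memC p hx hc'), rfl⟩ ?_ (fun _ _ _ _ _ h => h)
    rintro ⟨⟨q, ⟨d, hr'⟩, hd⟩, hq⟩ g ⟨hg, hg'⟩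
    revert hd hr'
    induction d using c1_ind with
    | h v w hv hw hne' e' =>
      intro hr' hd hq hg hg'
      have hg' : S1NC.act (a := q) (b := p) hg ⟨⟨c1 v w hv hw hne' e', hr'⟩, hd⟩ =
        ⟨⟨c1 x y hx hy hne e, hr⟩, hc⟩ := hg'
      have h0 : gCnf.S1.act hg (c1 v w hv hw hne' e') = c1 x y hx hy hne e :=
        (Subtype.ext_iff.1 (Subtype.ext_iff.1 hg' :) :)
      rw [gCnf.S1_act hg hv hw hne' e'] at h0
      have h1 := c1_eq.1 h0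
      have h2 := cOb_fac gCnf p x (cell_memC p hx hc') hq hg hv h1.1.symm
      refine ⟨g, ⟨h2, Subtype.ext (Subtype.ext (act_c1 gCnf h2
        hv hw hne' e' ⟨hx, Same.refl _ _⟩ ⟨hy, e⟩ hne (same_emp _ _) (same_emp _ _)
        h1.2.1 h1.2.2))⟩, ?_⟩
      rw [one_mul, inv_mul_cancel]
      exact Subgroup.one_mem _

theorem elNC_aut : HIso (S1NC.El.autF oNC) :=
  ActCat.aut_restr S1NC.El (fun o => o.1.1.2 = ∅) oNC rfl tor_C over_C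

end C715
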