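import Pool.Agent.Work.MP_c71557_gt.H.ActDir
import Pool.Agent.Work.MP_c71557_gt.H.QA

set_option autoImplicit false
set_option linter.unusedVariables false

/-!
# MP_c71557_gt, module K/Aut: categories of partial group elements equivalent to a group (S-M)

`autG A o`: the group of the elements `g` with `g` and `g⁻¹` admissible `o → o`; `autF : autG → A`.

* `tor_hiso`: `quillenA_under` with `acy_under` (`A := sg (autG A o)`, `A' := A`, `f _ = o`): for an
  object `b`: nonempty by `h1`; for `g1, g2 : b → o` take `a3 = ()`, `g3 = g1`, `k1 = 1`, `k2` from `h2`;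
  parallel arrows `k, k'` with `(k g)⁻¹ (k' g) ∈ N b` are equal by `h3` (take `m = 1`, `g3 = g`;
  `(k * 1)⁻¹ * (k' * 1) = 1`).  (`autF A o` is `idFun`, by definition.)
* `autG_le`: images of admissible elements.
* `aut_sq`: the functors `autF A o ⋙ idFun f` and `sgIncl ⋙ autF A' (f o)` are equal
  (`CategoryTheory.Functor.ext (fun _ => rfl)`, arrows by `ActCat.ind`, see `fun_eq` in A/OutA), then
  `HIso.comp`, `HIso.of_comp_left`.
* `aut_restr`: `autF (A.restr P) ⟨o, ho⟩ ⋙ A.restrIncl P = autF A o` (the groups are equal by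
  definition).
-/

noncomputable section

namespace C715

open CategoryTheory

namespace ActCat

variable {Γ : Type} [Group Γ]

/-- automorphisms of an object -/
def autG (A : ActCat Γ) (o : A.Ob) : Subgroup Γ where
  carrier := {g | A.Adm o g o ∧ A.Adm o g⁻¹ o}
  mul_mem' := by
    rintro g h ⟨h1, h2⟩ ⟨h3, h4⟩
    refine ⟨A.mul h3 h1, ?_⟩
    rw [mul_inv_rev]
    exact A.mul h2 h4
  one_mem' := ⟨A.one o, by
    rw [inv_one]
    exact A.one o⟩
  inv_mem' := by
    rintro g ⟨h1, h2⟩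
    exact ⟨h2, by rwa [inv_inv]⟩

theorem mem_autG {A : ActCat Γ} {o : A.Ob} {g : Γ} :
    g ∈ A.autG o ↔ A.Adm o g o ∧ A.Adm o g⁻¹ o := Iff.rfl

/-- the group as a full subcategory -/
def autF (A : ActCat Γ) (o : A.Ob) : (sg (A.autG o)).Obj ⥤ A.Obj :=
  idFun (A := sg (A.autG o)) (A' := A) (fun _ => o) (fun h => h.1) (fun {_ n} hn => by
    have h' : n ∈ (⊥ : Subgroup Γ) := hn
    rw [Subgroup.mem_bot] at h'
    subst h'
    exact Subgroup.one_mem _)

theorem tor_hiso (A : ActCat Γ) (o : A.Ob) (h1 : ∀ b, ∃ g, A.Adm b g o)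
    (h2 : ∀ b g g', A.Adm b g o → A.Adm b g' o → ∃ k ∈ A.autG o, (k * g)⁻¹ * g' ∈ A.N b)
    (h3 : ∀ b g k k', A.Adm b g o → k ∈ A.autG o → k' ∈ A.autG o →
      (k * g)⁻¹ * (k' * g) ∈ A.N b → k = k') : HIso (A.autF o) := by
  refine quillenA_under (A.autF o) ?_
  rintro ⟨b⟩
  refine acy_under (A := sg (A.autG o)) (A' := A) (fun _ => o) (fun h => h.1) (fun {_ n} hn => by
    have h' : n ∈ (⊥ : Subgroup Γ) := hn
    rw [Subgroup.mem_bot] at h'
    subst h'
    exact Subgroup.one_mem _) b ?_ ?_ ?_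
  · obtain ⟨g, hg⟩ := h1 b
    exact ⟨(), g, hg⟩
  · intro a1 g1 a2 g2 hg1 hg2
    obtain ⟨k, hk, h⟩ := h2 b g1 g2 hg1 hg2
    refine ⟨(), g1, 1, k, hg1, Subgroup.one_mem (A.autG o), hk, ?_, h⟩
    rw [one_mul, inv_mul_cancel]
    exact Subgroup.one_mem _
  · intro a a' g k k' hg hk hk' h
    have e : k = k' := h3 b g k k' hg hk hk' h
    refine ⟨(), g, 1, hg, Subgroup.one_mem (A.autG o), ?_, ?_⟩
    · rw [one_mul, inv_mul_cancel]
      exact Subgroup.one_mem _
    · rw [e, inv_mul_cancel]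
      exact Subgroup.one_mem _

theorem autG_le {A A' : ActCat Γ} {f : A.Ob → A'.Ob}
    (hAdm : ∀ {a b : A.Ob} {g : Γ}, A.Adm a g b → A'.Adm (f a) g (f b)) (o : A.Ob) :
    A.autG o ≤ A'.autG (f o) := fun g h => ⟨hAdm h.1, hAdm h.2⟩

theorem aut_sq {A A' : ActCat Γ} (f : A.Ob → A'.Ob)
    (hAdm : ∀ {a b : A.Ob} {g : Γ}, A.Adm a g b → A'.Adm (f a) g (f b))
    (hN : ∀ {a : A.Ob} {n : Γ}, n ∈ A.N a → n ∈ A'.N (f a)) (o : A.Ob)
    (h1 : HIso (A.autF o)) (h2 : HIso (A'.autF (f o)))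
    (h3 : HIso (sgIncl (autG_le (fun {a b g} h => hAdm h) o))) : HIso (idFun f hAdm hN) := by
  have e : A.autF o ⋙ idFun f hAdm hN =
      sgIncl (autG_le (fun {a b g} h => hAdm h) o) ⋙ A'.autF (f o) := by
    refine CategoryTheory.Functor.ext (fun _ => rfl) (fun x y u => ?_)
    induction u using ActCat.ind with
    | h g hg =>
      refine Eq.trans ?_ (Category.id_comp _).symm
      exact (Category.comp_id _).symm
  refine HIso.of_comp_left h1 ?_
  rw [e]
  exact HIso.comp h3 h2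

theorem aut_restr (A : ActCat Γ) (P : A.Ob → Prop) (o : A.Ob) (ho : P o)
    (h1 : HIso ((A.restr P).autF ⟨o, ho⟩)) (h2 : HIso (A.restrIncl P)) : HIso (A.autF o) := by
  have e : (A.restr P).autF ⟨o, ho⟩ ⋙ A.restrIncl P = A.autF o := by
    refine CategoryTheory.Functor.ext (fun _ => rfl) (fun x y u => ?_)
    induction u using ActCat.ind with
    | h g hg =>
      refine Eq.trans ?_ (Category.id_comp _).symm
      exact (Category.comp_id _).symm
  rw [← e]
  exact HIso.comp h1 h2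

end ActCat
end C715
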