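import Pool.Agent.Work.MP_c71557_gt.K.Coefs
import Pool.Agent.Work.MP_c71557_gt.K.Aut

set_option autoImplicit false
set_option linter.unusedVariables false

/-!
# MP_c71557_gt, block K: radial chords, base objects of the categories of elements
-/

noncomputable section

namespace C715

open Ang CategoryTheory

/-- cells are convex -/
theorem Same.seg {A : Finset Ln} {x y z : P2} (h : Same A x y) (hz : z ∈ segment ℝ x y) :
    Same A x z := by
  intro l hl
  have h1 := h l hl
  obtain ⟨a, b, ha, hb, hab, rfl⟩ := hz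
  have h2 : l.ev (a • x + b • y) = a * l.ev x + b * l.ev y := by
    have h3 : (1 : ℝ) * l.c = a * l.c + b * l.c := by rw [← add_mul, hab]
    simp only [Ln.ev, Prod.fst_add, Prod.snd_add, Prod.smul_fst, Prod.smul_snd, smul_eq_mul]
    linarith
  rw [h2]
  rcases lt_trichotomy (l.ev x) 0 with h3 | h3 | h3
  · rw [sign_neg h3] at h1 ⊢
    have h4 := sign_eq_neg_one_iff.1 h1.symm
    symm
    rw [sign_eq_neg_one_iff]
    rcases lt_or_eq_of_le ha with h5 | h5
    · nlinarith
    · subst h5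
      have : b = 1 := by linarith
      subst this
      linarith
  · rw [h3, sign_zero] at h1
    have h4 := sign_eq_zero_iff.1 h1.symm
    rw [h3, h4]
    simp
  · rw [sign_pos h3] at h1 ⊢
    have h4 := sign_eq_one_iff.1 h1.symm
    symm
    rw [sign_eq_one_iff]
    rcases lt_or_eq_of_le ha with h5 | h5
    · nlinarith
    · subst h5
      have : b = 1 := by linarith
      subst this
      linarith

theorem Ce_act {p q : gCnf.Str.Ob} {a : FGr} (h : gCnf.Str.Adm p a q) (c : gCnf.S1.X p)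
    (hc : c ∈ Ce p.1.1 p.1.2) : gCnf.S1.act h c ∈ Ce q.1.1 q.1.2 := by
  induction c using c1_ind with
  | h x y hx hy hne e =>
    have hc : x.1 * y.2 = x.2 * y.1 := hc
    change (a.g x).1 * (a.g y).2 = (a.g x).2 * (a.g y).1
    have h0 := Cnf_zero h.1
    by_cases hx0 : x = 0
    · rw [hx0, h0]
      simp
    · obtain ⟨k, hk⟩ : ∃ k : ℝ, y = k • x := by
        by_cases h1 : x.1 = 0
        · have h2 : x.2 ≠ 0 := fun h2 => hx0 (Prod.ext h1 h2)
          have h3 : y.1 = 0 := by
            rw [h1, zero_mul] at hc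
            exact (mul_eq_zero.1 hc.symm).resolve_left h2
          refine ⟨y.2 / x.2, Prod.ext ?_ ?_⟩
          · change y.1 = y.2 / x.2 * x.1
            rw [h3, h1, mul_zero]
          · change y.2 = y.2 / x.2 * x.2
            rw [div_mul_cancel₀ _ h2]
        · refine ⟨y.1 / x.1, Prod.ext ?_ ?_⟩
          · change y.1 = y.1 / x.1 * x.1
            rw [div_mul_cancel₀ _ h1]
          · change y.2 = y.1 / x.1 * x.2
            rw [div_mul_eq_mul_div, eq_div_iff h1]
            linarith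
      have key : a.g y = k • a.g x := by
        rcases lt_or_ge 0 k with hk0 | hk0
        · rw [hk]
          exact h.1.2 k x hk0
        · have hs : (0 : P2) ∈ segment ℝ x y := by
            refine ⟨(-k) / (1 - k), 1 / (1 - k), div_nonneg (by linarith) (by linarith),
              div_nonneg zero_le_one (by linarith), ?_, ?_⟩
            · rw [← add_div]
              have : (1 - k) ≠ 0 := by linarith
              field_simp
              ring
            · rw [hk, smul_smul, ← add_smul]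
              have : -k / (1 - k) + 1 / (1 - k) * k = 0 := by ring
              rw [this, zero_smul]
          have h0U : (0 : P2) ∈ p.1.1 := ((gCnf.hU _ p.2.1).2.1).segment_subset hx hy hs
          have h0S : Same p.1.2 x 0 := Same.seg e hs
          have h5 := gCnf.adm_aff h h0U hx h0U hy h0S.symm (Same.refl _ _)
            (Same.trans h0S.symm e) (s := k) (by rw [sub_zero, sub_zero, hk])
          rwa [h0, sub_zero, sub_zero] at h5
      rw [key]
      simp only [Prod.smul_fst, Prod.smul_snd, smul_eq_mul]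
      ring

/-- radial chords -/
abbrev S1C : ActSet gCnf.Str := gCnf.S1.sub (fun p => Ce p.1.1 p.1.2) Ce_act

/-- radial chords in 2-cells -/
abbrev NWC (p : gCnf.Str.Ob) : Set (S1C.X p) := {c | c.1 ∈ NW p.1.1 p.1.2}

theorem NWC_act {p q : gCnf.Str.Ob} {a : FGr} (h : gCnf.Str.Adm p a q) (c : S1C.X p)
    (hc : c ∈ NWC p) : S1C.act h c ∈ NWC q := gCnf.NW_act h c.1 hc

/-- chords in 2-cells, piecewise linear geometry -/
abbrev S1NP : ActSet gPLf.Str := gPLf.S1.sub (fun p => NW p.1.1 p.1.2) gPLf.NW_act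

/-- radial chords in 2-cells, homogeneous geometry -/
abbrev S1NC : ActSet gCnf.Str := S1C.sub NWC NWC_act

/-- the unit vector of the x-axis -/
def e1 : P2 := (1, 0)

theorem e1_ne : (0 : P2) ≠ e1 := fun h => by
  have h1 : (0 : ℝ) = 1 := congrArg Prod.fst h
  norm_num at h1

/-- the x-axis, positive above -/
def lx : Ln := ⟨0, 1, 0, Or.inr one_ne_zero⟩

theorem lx_ev (x : P2) : lx.ev x = x.2 := by
  simp [Ln.ev, lx]

/-- the plane with lines -/
def uP (A : Finset Ln) : gPLf.Str.Ob :=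
  ⟨(Set.univ, A), ⟨isOpen_univ, convex_univ, Set.univ_nonempty⟩, fun _ _ => trivial⟩

/-- the plane with lines through the origin -/
def uC (A : Finset Ln) (h : ∀ l ∈ A, l.c = 0) : gCnf.Str.Ob :=
  ⟨(Set.univ, A), ⟨isOpen_univ, convex_univ, Set.univ_nonempty, fun _ _ _ _ => trivial⟩, h⟩

theorem kOb_uC (A : Finset Ln) (h : ∀ l ∈ A, l.c = 0) : kOb (uC A h) = uP A := rfl

theorem lx_c : ∀ l ∈ ({lx} : Finset Ln), l.c = 0 := fun l hl => by
  rw [Finset.mem_singleton.1 hl]
  rfl

theorem emp_c : ∀ l ∈ (∅ : Finset Ln), l.c = 0 := fun l hl => absurd hl (Finset.notMem_empty l)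

theorem gen_emp (x : P2) : Gen ∅ x := fun l hl => absurd hl (Finset.notMem_empty l)

theorem same_emp (x y : P2) : Same ∅ x y := fun l hl => absurd hl (Finset.notMem_empty l)

theorem same_lx : Same {lx} 0 e1 := fun l hl => by
  rw [Finset.mem_singleton.1 hl, lx_ev, lx_ev]
  rfl

/-- the plane as a 2-cell -/
def o2P : gPLf.S2.El.Ob := ⟨uP ∅, c2 0 trivial (gen_emp 0)⟩

/-- the plane as a 2-cell, homogeneous -/
def o2C : gCnf.S2.El.Ob := ⟨uC ∅ emp_c, c2 0 trivial (gen_emp 0)⟩

/-- the x-axis as a chord of the plane -/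
def oNP : S1NP.El.Ob := ⟨uP ∅, ⟨c1 0 e1 trivial trivial e1_ne (same_emp _ _), gen_emp 0⟩⟩

/-- the x-axis as a chord of the plane, homogeneous -/
def oNC : S1NC.El.Ob := ⟨uC ∅ emp_c, ⟨⟨c1 0 e1 trivial trivial e1_ne (same_emp _ _), by
  change (0 : ℝ) * 0 = 0 * 1
  ring⟩, gen_emp 0⟩⟩

/-- the x-axis as an edge -/
def oEP : gPLf.S1.El.Ob := ⟨uP {lx}, c1 0 e1 trivial trivial e1_ne same_lx⟩

/-- the x-axis as an edge, homogeneous -/
def oEC : S1C.El.Ob := ⟨uC {lx} lx_c, ⟨c1 0 e1 trivial trivial e1_ne same_lx, by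
  change (0 : ℝ) * 0 = 0 * 1
  ring⟩⟩

/-- 2-cells: `S2.El` over `gCnf` to `S2.El` over `gPLf` -/
abbrev el2 : gCnf.S2.El.Obj ⥤ gPLf.S2.El.Obj :=
  ActSet.elMap gCnf.S2 gPLf.S2 kOb kAdm kN (fun _ x => x) (fun {p q a} h c => by
    induction c using c2_ind with
    | h x hx hx' => rfl)

theorem xi1 {p q : gCnf.Str.Ob} {a : FGr} (h : gCnf.Str.Adm p a q) (c : gCnf.S1.X p) :
    (gCnf.S1.act h c : S1T q.1.1 q.1.2) = gPLf.S1.act (kAdm h) c := by
  induction c using c1_ind with
  | h x y hx hy hne e => rfl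

/-- chords -/
abbrev el1 : S1C.El.Obj ⥤ gPLf.S1.El.Obj :=
  ActSet.elMap S1C gPLf.S1 kOb kAdm kN (fun _ x => x.1) (fun h c => xi1 h c.1)

/-- chords in 2-cells -/
abbrev el1N : S1NC.El.Obj ⥤ S1NP.El.Obj :=
  ActSet.elMap S1NC S1NP kOb kAdm kN (fun _ x => ⟨x.1.1, x.2⟩)
    (fun h c => Subtype.ext (xi1 h c.1.1))

end C715
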