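import Pool.Agent.Work.MP_c71557_gt.K.TrC
import Pool.Agent.Work.MP_c71557_gt.K.Defs2
import Pool.Agent.Work.MP_c71557_gt.K.ExtA

set_option autoImplicit false
set_option linter.unusedVariables false

/-!
# MP_c71557_gt, module K/Tr2: the affine groups and their homogeneous subgroups (M)

`tr_common` with `F = gPLf.S2.El.autG o2P`, `L = gCnf.S2.El.autG o2C` (resp. `S1NP`, `S1NC`, `oNP`,
`oNC`).  An element of `F` is `a ∈ Gf` with `a`, `a⁻¹` affine (cell maps of `(univ, ∅)`: one affine map on the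
cell `univ`), in the second case also `act a (c1 0 e1) = c1 0 e1`, i.e. `a 0 = (s, 0)` and
`a e1 - a 0 = (t, 0)`, `t > 0`, and the same for `a⁻¹`.
* `L ≤ Cnf`: an element of `L` is in `gCnf.G = Cnf`.
* `hom2 ∈ F`: `hom2_g`, `2 x` is affine; `hom2⁻¹ x = x/2`.
* `h1`: `g ∈ F` affine, `trl v`: `g⁻¹ (g x + v) = x + w` with `w = g⁻¹ (g 0 + v)` (`g⁻¹` is affine);
  framing: `(g⁻¹ * trl v * g).ph x = (g.ph (x + w))⁻¹ * 1 * g.ph x = 1` (`ph_affine`).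
* `h3`: `f ∈ F`, `v = f.g 0`, `l = trl (-v) * f`: `l.g 0 = 0`, `l.g` affine, hence linear, so `l ∈ Cnf`;
  `l`, `l⁻¹ = f⁻¹ * trl v` are affine; `l ∈ L` (in the second case `v = (s, 0)`, so `l 0 = 0`,
  `l e1 = (t, 0)`).  `l⁻¹ * f = f⁻¹ * trl v * f = trl w` by `h1` (its proof does not need `trl v ∈ F`).
-/

noncomputable section

namespace C715

open Ang CategoryTheory

private theorem aff_diff {g : Equiv.Perm P2} (h : IsAff g) (x y v : P2) :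
    g (x + v) - g x = g (y + v) - g y := by
  obtain ⟨m, n, h⟩ := h
  rw [h, h, h, h]
  refine Prod.ext ?_ ?_
  · change m.ev _ - m.ev _ = m.ev _ - m.ev _
    simp only [L3.ev, Prod.fst_add, Prod.snd_add]
    ring
  · change n.ev _ - n.ev _ = n.ev _ - n.ev _
    simp only [L3.ev, Prod.fst_add, Prod.snd_add]
    ring

private theorem aff_smul {g : Equiv.Perm P2} (h : IsAff g) (x : P2) (t : ℝ) :
    g (t • x) - g 0 = t • (g x - g 0) := by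
  obtain ⟨m, n, h⟩ := h
  rw [h, h, h]
  refine Prod.ext ?_ ?_
  · change m.ev _ - m.ev _ = t * (m.ev _ - m.ev _)
    simp only [L3.ev, Prod.smul_fst, Prod.smul_snd, smul_eq_mul, Prod.fst_zero, Prod.snd_zero]
    ring
  · change n.ev _ - n.ev _ = t * (n.ev _ - n.ev _)
    simp only [L3.ev, Prod.smul_fst, Prod.smul_snd, smul_eq_mul, Prod.fst_zero, Prod.snd_zero]
    ring

private theorem aff_comp {g h : Equiv.Perm P2} (hg : IsAff g) (hh : IsAff h) : IsAff (g * h) := by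
  obtain ⟨m, n, hg⟩ := hg
  obtain ⟨m', n', hh⟩ := hh
  refine ⟨m.sub m' n', n.sub m' n', fun x => ?_⟩
  rw [L3.ev_sub, L3.ev_sub, ← hh, ← hg]
  rfl

private theorem aff_trl (v : P2) : IsAff (trl v).g := by
  refine ⟨⟨1, 0, v.1⟩, ⟨0, 1, v.2⟩, fun x => ?_⟩
  rw [trl_g]
  refine Prod.ext ?_ ?_
  · simp [L3.ev]
  · simp [L3.ev]

private theorem aff_hom2 : IsAff hom2.g := by
  refine ⟨⟨2, 0, 0⟩, ⟨0, 2, 0⟩, fun x => ?_⟩
  rw [hom2_g]
  refine Prod.ext ?_ ?_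
  · simp [L3.ev]
  · simp [L3.ev]

private theorem hom2_inv_g (x : P2) : hom2⁻¹.g x = (1 / 2 : ℝ) • x := by
  change hom2.g⁻¹ x = _
  rw [Equiv.Perm.inv_eq_iff_eq, hom2_g, smul_smul]
  norm_num

private theorem aff_hom2' : IsAff hom2⁻¹.g := by
  refine ⟨⟨1 / 2, 0, 0⟩, ⟨0, 1 / 2, 0⟩, fun x => ?_⟩
  rw [hom2_inv_g]
  refine Prod.ext ?_ ?_
  · simp [L3.ev]
  · simp [L3.ev]

private theorem conj_trl {g : FGr} (hg : g ∈ Gf) (h : IsAff g.g) (h' : IsAff g⁻¹.g) (v : P2) :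
    g⁻¹ * trl v * g = trl (g⁻¹.g (g.g 0 + v)) := by
  refine FGr.ext (Equiv.ext fun x => ?_) (funext fun x => ?_)
  · change g⁻¹.g (g.g x + v) = x + _
    have h1 := aff_diff h' (g.g x) (g.g 0) v
    rw [FGr.inv_apply, FGr.inv_apply, sub_zero] at h1
    exact sub_eq_iff_eq_add'.1 h1
  · change (g.ph (g.g⁻¹ ((trl v).g (g.g x))))⁻¹ * 1 * g.ph x = 1
    rw [mul_one, ph_affine hg h _ x, inv_mul_cancel]

private theorem lin_g (f : FGr) (x : P2) : (trl (-(f.g 0)) * f).g x = f.g x - f.g 0 := by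
  change f.g x + -(f.g 0) = _
  rw [sub_eq_add_neg]

private theorem lin_part {f : FGr} (hf : f ∈ Gf) (h : IsAff f.g) (h' : IsAff f⁻¹.g) :
    trl (-(f.g 0)) * f ∈ Cnf ∧ IsAff (trl (-(f.g 0)) * f).g ∧
    IsAff (trl (-(f.g 0)) * f)⁻¹.g ∧
    (trl (-(f.g 0)) * f)⁻¹ * f = trl (f⁻¹.g (f.g 0 + f.g 0)) := by
  refine ⟨⟨Gf.mul_mem (trl_mem _) hf, fun t x _ => ?_⟩, aff_comp (aff_trl _) h, ?_, ?_⟩
  · rw [lin_g, lin_g]
    exact aff_smul h x t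
  · rw [mul_inv_rev, trl_inv, neg_neg]
    exact aff_comp h' (aff_trl _)
  · rw [mul_inv_rev, trl_inv, neg_neg]
    exact conj_trl hf h h' _

private theorem admP {a : FGr} (ha : a ∈ Gf) (h : IsAff a.g) : gPLf.Str.Adm (uP ∅) a (uP ∅) := by
  obtain ⟨m, n, h⟩ := h
  exact ⟨ha, fun _ _ => trivial, fun _ _ _ _ _ => same_emp _ _, fun x _ => ⟨m, n, fun y _ => h y⟩⟩

private theorem admC {a : FGr} (ha : a ∈ Cnf) (h : IsAff a.g) :
    gCnf.Str.Adm (uC ∅ emp_c) a (uC ∅ emp_c) := by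
  obtain ⟨m, n, h⟩ := h
  exact ⟨ha, fun _ _ => trivial, fun _ _ _ _ _ => same_emp _ _, fun x _ => ⟨m, n, fun y _ => h y⟩⟩

private theorem ofP {a : FGr} (h : gPLf.Str.Adm (uP ∅) a (uP ∅)) : a ∈ Gf ∧ IsAff a.g := by
  obtain ⟨ha, -, -, h⟩ := h
  obtain ⟨m, n, h⟩ := h 0 trivial
  exact ⟨ha, m, n, fun y => h y ⟨trivial, same_emp _ _⟩⟩

private theorem c2e (x y : P2) : c2 (U := Set.univ) (A := ∅) x trivial (gen_emp x) =
    c2 (U := Set.univ) (A := ∅) y trivial (gen_emp y) := c2_eq.2 (same_emp _ _)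

private theorem mem2P {a : FGr} : a ∈ gPLf.S2.El.autG o2P ↔ a ∈ Gf ∧ IsAff a.g ∧ IsAff a⁻¹.g := by
  refine ⟨fun h => ⟨(ofP h.1.1).1, (ofP h.1.1).2, (ofP h.2.1).2⟩, fun h => ⟨⟨admP h.1 h.2.1, ?_⟩,
    admP (Gf.inv_mem h.1) h.2.2, ?_⟩⟩
  · exact c2e _ _
  · exact c2e _ _

private theorem mem2C {a : FGr} (ha : a ∈ Cnf) (h : IsAff a.g) (h' : IsAff a⁻¹.g) :
    a ∈ gCnf.S2.El.autG o2C := by
  refine ⟨⟨admC ha h, ?_⟩, admC (Cnf.inv_mem ha) h', ?_⟩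
  · exact c2e _ _
  · exact c2e _ _

theorem tr2 (h : gCnf.S2.El.autG o2C ≤ gPLf.S2.El.autG o2P) : HIso (ActCat.sgIncl h) := by
  refine tr_common _ _ h (fun a ha => ha.1.1.1) (mem2P.2 ⟨hom2_mem.1, aff_hom2, aff_hom2'⟩) ?_ ?_
  · intro g hg v _
    rw [mem2P] at hg
    exact ⟨_, conj_trl hg.1 hg.2.1 hg.2.2 v⟩
  · intro f hf
    rw [mem2P] at hf
    obtain ⟨h1, h2, h3, h4⟩ := lin_part hf.1 hf.2.1 hf.2.2
    exact ⟨_, mem2C h1 h2 h3, _, h4⟩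

/-- the action on the x-axis -/
private def Ax (a : FGr) : Prop := (∃ s : ℝ, a.g 0 = s • e1) ∧ ∃ t : ℝ, 0 < t ∧ a.g e1 - a.g 0 = t • e1

private theorem Ax_iff (a : FGr) (h : Same ∅ (a.g 0) (a.g e1)) (hne : a.g 0 ≠ a.g e1) :
    (c1 (U := Set.univ) (A := ∅) (a.g 0) (a.g e1) trivial trivial hne h =
      c1 (U := Set.univ) (A := ∅) 0 e1 trivial trivial e1_ne (same_emp _ _)) ↔ Ax a := by
  rw [c1_eq]
  constructor
  · rintro ⟨-, ⟨s, hs⟩, t, ht, ht'⟩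
    rw [sub_zero] at ht'
    have h1 : a.g e1 - a.g 0 = t⁻¹ • e1 := by
      have h2 : t⁻¹ • e1 = t⁻¹ • (t • (a.g e1 - a.g 0)) := congrArg _ ht'
      rw [h2, smul_smul, inv_mul_cancel₀ ht.ne', one_smul]
    refine ⟨⟨-(s * t⁻¹), ?_⟩, t⁻¹, inv_pos.2 ht, h1⟩
    rw [h1, smul_smul, zero_sub] at hs
    rw [neg_smul, ← hs, neg_neg]
  · rintro ⟨⟨s, hs⟩, t, ht, ht'⟩
    refine ⟨same_emp _ _, ⟨-(s * t⁻¹), ?_⟩, t⁻¹, inv_pos.2 ht, ?_⟩
    · rw [ht', hs, smul_smul, zero_sub, neg_mul, mul_assoc, inv_mul_cancel₀ ht.ne', mul_one,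
        neg_smul]
    · rw [ht', sub_zero, smul_smul, inv_mul_cancel₀ ht.ne', one_smul]

private theorem Ax_inv {a : FGr} (ha : IsAff a.g) (h : Ax a) : Ax a⁻¹ := by
  obtain ⟨⟨s, hs⟩, t, ht, ht'⟩ := h
  have key : ∀ r : ℝ, a.g (r • e1) = (s + r * t) • e1 := by
    intro r
    have h1 := aff_smul ha e1 r
    rw [ht', hs, smul_smul, sub_eq_iff_eq_add] at h1
    rw [h1, ← add_smul, add_comm]
  have key2 : ∀ r : ℝ, a⁻¹.g (r • e1) = ((r - s) / t) • e1 := by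
    intro r
    change a.g⁻¹ (r • e1) = _
    rw [Equiv.Perm.inv_eq_iff_eq, key, div_mul_cancel₀ _ ht.ne']
    congr 1
    ring
  have k0 := key2 0
  have k1 := key2 1
  rw [zero_smul] at k0
  rw [one_smul] at k1
  refine ⟨⟨_, k0⟩, t⁻¹, inv_pos.2 ht, ?_⟩
  rw [k0, k1, ← sub_smul]
  congr 1
  field_simp
  ring

private theorem memNP {a : FGr} : a ∈ S1NP.El.autG oNP ↔
    a ∈ Gf ∧ IsAff a.g ∧ IsAff a⁻¹.g ∧ Ax a := by
  constructor
  · intro h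
    have h1 := ofP h.1.1
    refine ⟨h1.1, h1.2, (ofP h.2.1).2, ?_⟩
    have h2 := congrArg Subtype.val h.1.2
    exact (Ax_iff a (same_emp _ _) (fun k => e1_ne (a.g.injective k))).1 h2
  · rintro ⟨h1, h2, h3, h4⟩
    refine ⟨⟨admP h1 h2, Subtype.ext ?_⟩, admP (Gf.inv_mem h1) h3, Subtype.ext ?_⟩
    · exact (Ax_iff a (same_emp _ _) (fun k => e1_ne (a.g.injective k))).2 h4
    · exact (Ax_iff a⁻¹ (same_emp _ _) (fun k => e1_ne (a⁻¹.g.injective k))).2 (Ax_inv h2 h4)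

private theorem memNC {a : FGr} (h1 : a ∈ Cnf) (h2 : IsAff a.g) (h3 : IsAff a⁻¹.g) (h4 : Ax a) :
    a ∈ S1NC.El.autG oNC := by
  refine ⟨⟨admC h1 h2, Subtype.ext (Subtype.ext ?_)⟩, admC (Cnf.inv_mem h1) h3,
    Subtype.ext (Subtype.ext ?_)⟩
  · exact (Ax_iff a (same_emp _ _) (fun k => e1_ne (a.g.injective k))).2 h4
  · exact (Ax_iff a⁻¹ (same_emp _ _) (fun k => e1_ne (a⁻¹.g.injective k))).2 (Ax_inv h2 h4)

theorem trN (h : S1NC.El.autG oNC ≤ S1NP.El.autG oNP) : HIso (ActCat.sgIncl h) := by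
  refine tr_common _ _ h (fun a ha => ha.1.1.1)
    (memNP.2 ⟨hom2_mem.1, aff_hom2, aff_hom2', ⟨0, ?_⟩, 2, two_pos, ?_⟩) ?_ ?_
  · rw [hom2_g, smul_zero, zero_smul]
  · rw [hom2_g, hom2_g, smul_zero, sub_zero]
  · intro g hg v _
    rw [memNP] at hg
    exact ⟨_, conj_trl hg.1 hg.2.1 hg.2.2.1 v⟩
  · intro f hf
    rw [memNP] at hf
    obtain ⟨h1, h2, h3, h4⟩ := lin_part hf.1 hf.2.1 hf.2.2.1
    obtain ⟨⟨s, hs⟩, t, ht, ht'⟩ := hf.2.2.2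
    refine ⟨_, memNC h1 h2 h3 ⟨⟨0, ?_⟩, t, ht, ?_⟩, _, h4⟩
    · rw [lin_g, sub_self, zero_smul]
    · rw [lin_g, lin_g, sub_self, sub_zero, ht']

end C715
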