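import Pool.Agent.Work.MP_c71557_gt.K.TrC
import Pool.Agent.Work.MP_c71557_gt.K.Defs2

set_option autoImplicit false
set_option linter.unusedVariables false

/-!
# MP_c71557_gt, module K/TrE: the group of the x-axis and its homogeneous subgroup (M)

`tr_common` with `F = gPLf.S1.El.autG oEP`, `L = S1C.El.autG oEC`.  An element `a` of `F`: `a ∈ Gf`, `a` and
`a⁻¹` are cell maps of `(univ, {lx})` (affine on `{y > 0}`, `{y < 0}`, `{y = 0}`, each mapped into one of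
them), `act a (c1 0 e1) = c1 0 e1`: `a 0` is on the x-axis (`Same {lx} (a 0) 0`), `a e1 - a 0 = (t, 0)`,
`t > 0`; the same for `a⁻¹`.
* `L ≤ Cnf`: an element of `L` is in `gCnf.G = Cnf`.  `hom2 ∈ F`: `hom2_g`.
* Affine maps on the closed half planes: the affine map of `a` on `{y > 0}` is valid on `{y = 0}` by
  continuity (`a.g` is continuous, `Gf_PLH`), the same for `{y < 0}`.
* `h1`: `trl v ∈ F` gives `v = (τ, 0)` (`trl v` maps `0` to the x-axis).  Let `g ∈ F`.  `g` maps `{y > 0}`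
  to `{y > 0}` or to `{y < 0}` (in fact to itself, not needed), `g x + v` is on the same side as `g x`, and
  `g⁻¹` is affine there: `g⁻¹ (g x + v) = x + w_±` with `w_±` the linear part of `g⁻¹` on that side applied
  to `v`; as the two affine maps of `g⁻¹` agree on the x-axis and `v` is parallel to it, `w_+ = w_- = w`,
  and `w = (τ', 0)` (`g⁻¹` maps the x-axis to itself).  Framing: `(g⁻¹ * trl v * g).ph x =
  (g.ph (x + w))⁻¹ * g.ph x = 1` by `FGeo.ph_cell` (`x` and `x + w` are in the same cell of `{lx}`).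
* `h3`: `f ∈ F`, `v = f.g 0 = (τ, 0)`, `l = trl (-v) * f`: `l.g 0 = 0` and `l.g` is affine on the closed half
  planes `{y ≥ 0}`, `{y ≤ 0}`, both containing `0`, so linear there, so `l.g (t • x) = t • l.g x` for
  `t > 0`: `l ∈ Cnf`.  `l`, `l⁻¹` are cell maps of `(univ, {lx})` (`trl (-v)` is), `act l (c1 0 e1) = c1 0 e1`.
  `l⁻¹ * f = f⁻¹ * trl v * f = trl w` by `h1` (`trl v ∈ F` because `v = (τ, 0)`).
-/

noncomputable section

namespace C715

open Ang CategoryTheory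

open scoped Topology

private theorem same_iff (x y : P2) : Same {lx} x y ↔ SignType.sign x.2 = SignType.sign y.2 := by
  constructor
  · intro h
    have h1 := h lx (Finset.mem_singleton_self _)
    rwa [lx_ev, lx_ev] at h1
  · intro h l hl
    rw [Finset.mem_singleton.1 hl, lx_ev, lx_ev]
    exact h

/-- affine on the closed half planes -/
private theorem hpl {a : FGr} (h : gPLf.Str.Adm (uP {lx}) a (uP {lx})) (σ : ℝ)
    (hσ : σ = 1 ∨ σ = -1) : ∃ m n : L3, ∀ y : P2, 0 ≤ σ * y.2 → a.g y = (m.ev y, n.ev y) := by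
  have hσ0 : σ * σ = 1 := by rcases hσ with rfl | rfl <;> norm_num
  obtain ⟨ha, -, -, h3⟩ := h
  obtain ⟨m, n, h⟩ := h3 ((0, σ) : P2) trivial
  refine ⟨m, n, fun y hy => ?_⟩
  have hop : ∀ z : P2, 0 < σ * z.2 → a.g z = (m.ev z, n.ev z) := by
    intro z hz
    refine h z ⟨trivial, (same_iff _ _).2 ?_⟩
    change SignType.sign σ = SignType.sign z.2
    rcases hσ with rfl | rfl
    · rw [one_mul] at hz
      rw [sign_pos one_pos, sign_pos hz]
    · have : z.2 < 0 := by linarith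
      rw [sign_neg (by norm_num), sign_neg this]
  have hc1 : Continuous a.g := ha.1.1.cont
  have hc2 : Continuous (fun z : P2 => ((m.ev z, n.ev z) : P2)) := by
    unfold L3.ev
    fun_prop
  have ht : Filter.Tendsto (fun t : ℝ => y + t • ((0, σ) : P2)) (𝓝[>] 0) (𝓝 y) := by
    have h3 : Continuous (fun t : ℝ => y + t • ((0, σ) : P2)) := by fun_prop
    have h4 := (h3.tendsto 0).mono_left (nhdsWithin_le_nhds (s := Set.Ioi 0))
    rwa [zero_smul, add_zero] at h4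
  refine tendsto_nhds_unique_of_eventuallyEq ((hc1.tendsto y).comp ht) ((hc2.tendsto y).comp ht) ?_
  filter_upwards [self_mem_nhdsWithin] with t ht
  refine hop _ ?_
  change 0 < σ * (y.2 + t * σ)
  have ht : 0 < t := ht
  nlinarith

private theorem exists_sg (y : ℝ) : ∃ σ : ℝ, (σ = 1 ∨ σ = -1) ∧ 0 ≤ σ * y := by
  rcases le_total 0 y with h | h
  · exact ⟨1, Or.inl rfl, by linarith⟩
  · exact ⟨-1, Or.inr rfl, by linarith⟩

private theorem hdiff {a : FGr} (h : gPLf.Str.Adm (uP {lx}) a (uP {lx})) {x y v : P2}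
    (hv : v.2 = 0) (hy : y.2 = 0) : a.g (x + v) - a.g x = a.g (y + v) - a.g y := by
  obtain ⟨σ, h1, h2⟩ := exists_sg x.2
  obtain ⟨m, n, h3⟩ := hpl h σ h1
  have e1 : 0 ≤ σ * (x + v).2 := by rw [Prod.snd_add, hv, add_zero]; exact h2
  have e2 : 0 ≤ σ * y.2 := by rw [hy, mul_zero]
  have e3 : 0 ≤ σ * (y + v).2 := by rw [Prod.snd_add, hv, hy, add_zero, mul_zero]
  rw [h3 _ e1, h3 _ h2, h3 _ e2, h3 _ e3]
  refine Prod.ext ?_ ?_
  · change m.ev _ - m.ev _ = m.ev _ - m.ev _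
    simp only [L3.ev, Prod.fst_add, Prod.snd_add]
    ring
  · change n.ev _ - n.ev _ = n.ev _ - n.ev _
    simp only [L3.ev, Prod.fst_add, Prod.snd_add]
    ring

private theorem hsm {a : FGr} (h : gPLf.Str.Adm (uP {lx}) a (uP {lx})) (x : P2) (t : ℝ)
    (ht : 0 ≤ t ∨ x.2 = 0) : a.g (t • x) - a.g 0 = t • (a.g x - a.g 0) := by
  obtain ⟨σ, h1, h2⟩ := exists_sg x.2
  obtain ⟨m, n, h3⟩ := hpl h σ h1
  have e1 : 0 ≤ σ * (t • x).2 := by
    rw [Prod.smul_snd, smul_eq_mul]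
    rcases ht with ht | ht
    · have := mul_nonneg ht h2
      linarith
    · rw [ht, mul_zero, mul_zero]
  have e2 : 0 ≤ σ * (0 : P2).2 := by rw [Prod.snd_zero, mul_zero]
  rw [h3 _ e1, h3 _ h2, h3 _ e2]
  refine Prod.ext ?_ ?_
  · change m.ev _ - m.ev _ = t * (m.ev _ - m.ev _)
    simp only [L3.ev, Prod.smul_fst, Prod.smul_snd, smul_eq_mul, Prod.fst_zero, Prod.snd_zero]
    ring
  · change n.ev _ - n.ev _ = t * (n.ev _ - n.ev _)
    simp only [L3.ev, Prod.smul_fst, Prod.smul_snd, smul_eq_mul, Prod.fst_zero, Prod.snd_zero]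
    ring

/-- the action on the x-axis -/
private def Ax (a : FGr) : Prop :=
  (∃ s : ℝ, a.g 0 = s • e1) ∧ ∃ t : ℝ, 0 < t ∧ a.g e1 - a.g 0 = t • e1

private theorem e1_snd (s : ℝ) : (s • e1).2 = 0 := by
  change s * 0 = 0
  rw [mul_zero]

private theorem Ax_iff (a : FGr) (h : Same {lx} (a.g 0) (a.g e1)) (hne : a.g 0 ≠ a.g e1) :
    (c1 (U := Set.univ) (A := {lx}) (a.g 0) (a.g e1) trivial trivial hne h =
      c1 (U := Set.univ) (A := {lx}) 0 e1 trivial trivial e1_ne same_lx) ↔ Ax a := by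
  rw [c1_eq]
  constructor
  · rintro ⟨-, ⟨s, hs⟩, t, ht, ht'⟩
    rw [sub_zero] at ht'
    have h1 : a.g e1 - a.g 0 = t⁻¹ • e1 := by
      have h2 : t⁻¹ • e1 = t⁻¹ • (t • (a.g e1 - a.g 0)) := congrArg _ ht'
      rw [h2, smul_smul, inv_mul_cancel₀ ht.ne', one_smul]
    refine ⟨⟨-(s * t⁻¹), ?_⟩, t⁻¹, inv_pos.2 ht, h1⟩
    rw [h1, smul_smul, zero_sub] at hs
    rw [neg_smul, ← hs, neg_neg]
  · rintro ⟨⟨s, hs⟩, t, ht, ht'⟩
    refine ⟨(same_iff _ _).2 ?_, ⟨-(s * t⁻¹), ?_⟩, t⁻¹, inv_pos.2 ht, ?_⟩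
    · rw [hs, e1_snd]
      rfl
    · rw [ht', hs, smul_smul, zero_sub, neg_mul, mul_assoc, inv_mul_cancel₀ ht.ne', mul_one,
        neg_smul]
    · rw [ht', sub_zero, smul_smul, inv_mul_cancel₀ ht.ne', one_smul]

private theorem Ax_ax {a : FGr} (ha : gPLf.Str.Adm (uP {lx}) a (uP {lx})) (h : Ax a) :
    ∃ s t : ℝ, 0 < t ∧ (∀ r : ℝ, a.g (r • e1) = (s + r * t) • e1) ∧
      ∀ r : ℝ, a⁻¹.g (r • e1) = ((r - s) / t) • e1 := by
  obtain ⟨⟨s, hs⟩, t, ht, ht'⟩ := h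
  have key : ∀ r : ℝ, a.g (r • e1) = (s + r * t) • e1 := by
    intro r
    have h1 := hsm ha e1 r (Or.inr rfl)
    rw [ht', hs, smul_smul, sub_eq_iff_eq_add] at h1
    rw [h1, ← add_smul, add_comm]
  refine ⟨s, t, ht, key, fun r => ?_⟩
  change a.g⁻¹ (r • e1) = _
  rw [Equiv.Perm.inv_eq_iff_eq, key, div_mul_cancel₀ _ ht.ne']
  congr 1
  ring

private theorem Ax_inv {a : FGr} (ha : gPLf.Str.Adm (uP {lx}) a (uP {lx})) (h : Ax a) :
    Ax a⁻¹ := by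
  obtain ⟨s, t, ht, -, key2⟩ := Ax_ax ha h
  have k0 := key2 0
  have k1 := key2 1
  rw [zero_smul] at k0
  rw [one_smul] at k1
  refine ⟨⟨_, k0⟩, t⁻¹, inv_pos.2 ht, ?_⟩
  rw [k0, k1, ← sub_smul]
  congr 1
  field_simp
  ring

private theorem memE {a : FGr} : a ∈ gPLf.S1.El.autG oEP ↔
    gPLf.Str.Adm (uP {lx}) a (uP {lx}) ∧ gPLf.Str.Adm (uP {lx}) a⁻¹ (uP {lx}) ∧ Ax a := by
  constructor
  · intro h
    exact ⟨h.1.1, h.2.1, (Ax_iff a (h.1.1.2.2.1 0 trivial e1 trivial same_lx)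
      (fun k => e1_ne (a.g.injective k))).1 h.1.2⟩
  · rintro ⟨h1, h2, h3⟩
    exact ⟨⟨h1, (Ax_iff a (h1.2.2.1 0 trivial e1 trivial same_lx)
      (fun k => e1_ne (a.g.injective k))).2 h3⟩, h2, (Ax_iff a⁻¹
      (h2.2.2.1 0 trivial e1 trivial same_lx)
      (fun k => e1_ne (a⁻¹.g.injective k))).2 (Ax_inv h1 h3)⟩

private theorem memC {a : FGr} (ha : a ∈ Cnf) (h1 : gPLf.Str.Adm (uP {lx}) a (uP {lx}))
    (h2 : gPLf.Str.Adm (uP {lx}) a⁻¹ (uP {lx})) (h3 : Ax a) : a ∈ S1C.El.autG oEC := by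
  refine ⟨⟨⟨ha, h1.2.1, h1.2.2⟩, Subtype.ext ?_⟩, ⟨Cnf.inv_mem ha, h2.2.1, h2.2.2⟩,
    Subtype.ext ?_⟩
  · exact (Ax_iff a (h1.2.2.1 0 trivial e1 trivial same_lx)
      (fun k => e1_ne (a.g.injective k))).2 h3
  · exact (Ax_iff a⁻¹ (h2.2.2.1 0 trivial e1 trivial same_lx)
      (fun k => e1_ne (a⁻¹.g.injective k))).2 (Ax_inv h1 h3)

private theorem adm_trl (v : P2) (hv : v.2 = 0) : gPLf.Str.Adm (uP {lx}) (trl v) (uP {lx}) := by
  refine ⟨trl_mem v, fun _ _ => trivial, fun x _ y _ h => ?_, fun x _ =>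
    ⟨⟨1, 0, v.1⟩, ⟨0, 1, v.2⟩, fun y _ => ?_⟩⟩
  · have h : Same {lx} x y := h
    change Same {lx} (x + v) (y + v)
    rw [same_iff] at h ⊢
    rw [Prod.snd_add, Prod.snd_add, hv, add_zero, add_zero]
    exact h
  · rw [trl_g]
    refine Prod.ext ?_ ?_
    · simp [L3.ev]
    · simp [L3.ev]

private theorem hom2_inv_g (x : P2) : hom2⁻¹.g x = (1 / 2 : ℝ) • x := by
  change hom2.g⁻¹ x = _
  rw [Equiv.Perm.inv_eq_iff_eq, hom2_g, smul_smul]
  norm_num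

private theorem adm_sc {a : FGr} (ha : a ∈ Gf) (c : ℝ) (hc : 0 < c) (h : ∀ x, a.g x = c • x) :
    gPLf.Str.Adm (uP {lx}) a (uP {lx}) := by
  refine ⟨ha, fun _ _ => trivial, fun x _ y _ h' => ?_, fun x _ =>
    ⟨⟨c, 0, 0⟩, ⟨0, c, 0⟩, fun y _ => ?_⟩⟩
  · have h' : Same {lx} x y := h'
    change Same {lx} (a.g x) (a.g y)
    rw [same_iff] at h' ⊢
    rw [h, h, Prod.smul_snd, Prod.smul_snd, smul_eq_mul, smul_eq_mul, sign_mul, sign_mul,
      sign_pos hc, one_mul, one_mul]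
    exact h'
  · rw [h]
    refine Prod.ext ?_ ?_
    · simp [L3.ev]
    · simp [L3.ev]

private theorem conj_trl {g : FGr} (h : gPLf.Str.Adm (uP {lx}) g (uP {lx}))
    (h' : gPLf.Str.Adm (uP {lx}) g⁻¹ (uP {lx})) (hax : Ax g) (v : P2) (hv : v.2 = 0) :
    g⁻¹ * trl v * g = trl (g⁻¹.g (g.g 0 + v)) := by
  obtain ⟨s, t, ht, k1, k2⟩ := Ax_ax h hax
  have g0 : g.g 0 = s • e1 := by
    have := k1 0
    rwa [zero_smul, zero_mul, add_zero] at this
  have hv1 : v = v.1 • e1 := Prod.ext (by simp [e1]) (by simp [e1, hv])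
  have hw : (g⁻¹.g (g.g 0 + v)).2 = 0 := by
    rw [g0, hv1, ← add_smul, k2, e1_snd]
  have key : ∀ x, g⁻¹.g (g.g x + v) = x + g⁻¹.g (g.g 0 + v) := by
    intro x
    have h1 := hdiff h' (x := g.g x) (y := g.g 0) hv (by rw [g0, e1_snd])
    rw [FGr.inv_apply, FGr.inv_apply, sub_zero] at h1
    exact sub_eq_iff_eq_add'.1 h1
  refine FGr.ext (Equiv.ext fun x => ?_) (funext fun x => ?_)
  · exact key x
  · change (g.ph (g⁻¹.g (g.g x + v)))⁻¹ * 1 * g.ph x = 1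
    rw [mul_one, key]
    have h1 : g.ph (x + g⁻¹.g (g.g 0 + v)) = g.ph x := by
      refine gPLf.ph_cell h trivial trivial ((same_iff _ _).2 ?_)
      rw [Prod.snd_add, hw, add_zero]
    rw [h1, inv_mul_cancel]

private theorem lin_g (f : FGr) (x : P2) : (trl (-(f.g 0)) * f).g x = f.g x - f.g 0 := by
  change f.g x + -(f.g 0) = _
  rw [sub_eq_add_neg]

theorem trE (h : S1C.El.autG oEC ≤ gPLf.S1.El.autG oEP) : HIso (ActCat.sgIncl h) := by
  refine tr_common _ _ h (fun a ha => ha.1.1.1)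
    (memE.2 ⟨adm_sc hom2_mem.1 2 two_pos hom2_g,
      adm_sc (Gf.inv_mem hom2_mem.1) (1 / 2) (by norm_num) hom2_inv_g, ⟨0, ?_⟩, 2, two_pos, ?_⟩)
    ?_ ?_
  · rw [hom2_g, smul_zero, zero_smul]
  · rw [hom2_g, hom2_g, smul_zero, sub_zero]
  · intro g hg v hv
    rw [memE] at hg hv
    obtain ⟨⟨s, hs⟩, -⟩ := hv.2.2
    rw [trl_g, zero_add] at hs
    exact ⟨_, conj_trl hg.1 hg.2.1 hg.2.2 v (by rw [hs, e1_snd])⟩
  · intro f hf
    rw [memE] at hf
    obtain ⟨h1, h2, h3⟩ := hf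
    obtain ⟨⟨s, hs⟩, t, ht, ht'⟩ := h3
    have hv : (f.g 0).2 = 0 := by rw [hs, e1_snd]
    have hv' : (-(f.g 0)).2 = 0 := by rw [Prod.snd_neg, hv, neg_zero]
    have einv : (trl (-(f.g 0)) * f)⁻¹ = f⁻¹ * trl (f.g 0) := by
      rw [mul_inv_rev, trl_inv, neg_neg]
    refine ⟨trl (-(f.g 0)) * f, memC ⟨Gf.mul_mem (trl_mem _) h1.1, fun t x ht => ?_⟩
      (gPLf.Str.mul h1 (adm_trl _ hv')) ?_ ⟨⟨0, ?_⟩, t, ht, ?_⟩,
      f⁻¹.g (f.g 0 + f.g 0), ?_⟩
    · rw [lin_g, lin_g]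
      exact hsm h1 x t (Or.inl ht.le)
    · rw [einv]
      exact gPLf.Str.mul (adm_trl _ hv) h2
    · rw [lin_g, sub_self, zero_smul]
    · rw [lin_g, lin_g, sub_self, sub_zero, ht']
    · rw [einv]
      exact conj_trl h1 h2 ⟨⟨s, hs⟩, t, ht, ht'⟩ _ hv

end C715
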