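import Pool.Agent.Work.MP_c71557_gt.K.El2
import Pool.Agent.Work.MP_c71557_gt.K.ElN
import Pool.Agent.Work.MP_c71557_gt.K.ElE
import Pool.Agent.Work.MP_c71557_gt.K.Tr2
import Pool.Agent.Work.MP_c71557_gt.K.TrE

set_option autoImplicit false
set_option linter.unusedVariables false

/-!
# MP_c71557_gt, module K/Fq: `F2`, `F1` (proved from the stubs)
-/

noncomputable section

namespace C715

open Ang CategoryTheory

theorem el_adm {S : ActSet gCnf.Str} {S' : ActSet gPLf.Str} (ξ : ∀ a, S.X a → S'.X (kOb a))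
    (hξ : ∀ {a b : gCnf.Str.Ob} {g : FGr} (h : gCnf.Str.Adm a g b) (x : S.X a),
      ξ b (S.act h x) = S'.act (kAdm h) (ξ a x)) {a b : S.El.Ob} {g : FGr} (h : S.El.Adm a g b) :
    S'.El.Adm (⟨kOb a.1, ξ a.1 a.2⟩ : S'.El.Ob) g ⟨kOb b.1, ξ b.1 b.2⟩ := by
  obtain ⟨h, e⟩ := h
  exact ⟨kAdm h, by rw [← hξ h, e]⟩

theorem el2_hiso : HIso el2 :=
  ActCat.aut_sq (A := gCnf.S2.El) (A' := gPLf.S2.El) (fun p => ⟨kOb p.1, p.2⟩)
    (fun h => el_adm (S := gCnf.S2) (S' := gPLf.S2) (fun _ x => x) (fun {p q a} h c => by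
      induction c using c2_ind with
      | h x hx hx' => rfl) h) (fun h => kN h) o2C el2C_aut el2P_aut (tr2 _)

theorem el1N_hiso : HIso el1N :=
  ActCat.aut_sq (A := S1NC.El) (A' := S1NP.El) (fun p => ⟨kOb p.1, ⟨p.2.1.1, p.2.2⟩⟩)
    (fun h => el_adm (S := S1NC) (S' := S1NP) (fun _ x => ⟨x.1.1, x.2⟩)
      (fun h c => Subtype.ext (xi1 h c.1.1)) h) (fun h => kN h) oNC elNC_aut elNP_aut (trN _)

theorem el1_hiso : HIso el1 :=
  ActCat.aut_sq (A := S1C.El) (A' := gPLf.S1.El) (fun p => ⟨kOb p.1, p.2.1⟩)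
    (fun h => el_adm (S := S1C) (S' := gPLf.S1) (fun _ x => x.1) (fun h c => xi1 h c.1) h)
    (fun h => kN h) oEC elEC_aut elEP_aut (trE _)

theorem F2_qis : Cx.Qis (barPush kap gPLf.F2) :=
  ActSet.free_qis gCnf.S2 gPLf.S2 kOb kAdm kN (fun _ x => x) (fun {p q a} h c => by
    induction c using c2_ind with
    | h x hx hx' => rfl) (fun _ => Function.bijective_id) el2_hiso

theorem wall_radial {p : gCnf.Str.Ob} (c : S1T p.1.1 p.1.2) (h : c ∉ NW p.1.1 p.1.2) :
    c ∈ Ce p.1.1 p.1.2 := by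
  induction c using c1_ind with
  | h x y hx hy hne e =>
    have h1 : ¬ Gen p.1.2 x := h
    unfold Gen at h1
    push Not at h1
    obtain ⟨l, hl, h2⟩ := h1
    have h3 := e l hl
    rw [h2, sign_zero] at h3
    have h4 := sign_eq_zero_iff.1 h3.symm
    have h5 : l.c = 0 := p.2.2 l hl
    change x.1 * y.2 = x.2 * y.1
    simp only [Ln.ev, h5, add_zero] at h2 h4
    rcases l.ne with h6 | h6
    · have : l.a * (x.1 * y.2 - x.2 * y.1) = 0 := by linear_combination y.2 * h2 - x.2 * h4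
      have := (mul_eq_zero.1 this).resolve_left h6
      linarith
    · have : l.b * (x.1 * y.2 - x.2 * y.1) = 0 := by linear_combination x.1 * h4 - y.1 * h2
      have := (mul_eq_zero.1 this).resolve_left h6
      linarith

theorem F1or_qis : Cx.Qis (barPush kap gPLf.F1or) :=
  ActSet.qf_qis S1C gPLf.S1 kOb kAdm kN (fun _ x => x.1) (fun h c => xi1 h c.1) NWC NWC_act
    (fun p => NW p.1.1 p.1.2) gPLf.NW_act (fun _ _ => Iff.rfl) (fun _ => Subtype.val_injective)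
    (fun p y hy => ⟨⟨y, wall_radial (p := p) y hy⟩, rfl⟩) el1_hiso el1N_hiso

theorem F1_qis : Cx.Qis (barPush kap gPLf.F1) :=
  qis_anti kap gPLf.F1or gPLf.swH gPLf.swH_swH F1or_qis

end C715
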