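import Pool.Agent.Work.MP_c71557_gt.K.Hf

set_option autoImplicit false
set_option linter.unusedVariables false

/-!
# MP_c71557_gt, module K/Trl: translations, the homothety of ratio 2, linear elements (M)

* `trl_mem`: PL: `PLH_aff`.  For `R` take `b ∈ Gc` from `gm_spec.real 1 0 v (2 R + 2)`: `b x = x + v` for
  `‖x‖ ≤ R + 1` (`vec 1 θ = dir θ`; `x = t • dir θ` with `t ≤ 2 ‖x‖`), `gm b 0 = 1`.  `gm b x = 1` for `‖x‖ ≤ R`:
  `ph_seg` for `gfl b ∈ Gf`, `U` the open ball of radius `R + 1` (sup norm), `A = ∅`, the segment from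
  `0` to `x`.
* `sc`: the scaling by `c > 0` as an element of `XX` (in `Ft`, central).  `hom2 = hf (sc 2)`:
  `hom2.g x = 2 x`, `hom2.ph = sc 2` (`ph_affine`).
* `hom2_comm`: `sc 2` commutes with all of `Ft` (`XX.ext_ev`), `hf` is a homomorphism, `hf_uniq`.
* `hom2_trl`: the `g` components: `2 (x/2 + v) = x + 2 v`; framings: `sc 2 * 1 * (sc 2)⁻¹ = 1`.
* `exists_rt`: framed rotation by `α`: `hf` of `rot α` (`rot α ∈ Ft`); `vec (rot α) θ = dir (θ + α)`.
-/

noncomputable section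

namespace C715

open Ang CategoryTheory
open scoped Topology

/-- translations -/
def trl (v : P2) : FGr := ⟨Equiv.addRight v, fun _ => 1⟩

theorem trl_g (v x : P2) : (trl v).g x = x + v := rfl

theorem trl_ph (v x : P2) : (trl v).ph x = 1 := rfl

theorem trl_mul (v w : P2) : trl v * trl w = trl (v + w) :=
  FGr.ext (Equiv.ext fun x => by
    change x + w + v = x + (v + w)
    abel) (funext fun x => mul_one _)

theorem trl_zero : trl 0 = 1 := FGr.ext (Equiv.ext fun x => add_zero x) rfl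

theorem trl_inv (v : P2) : (trl v)⁻¹ = trl (-v) := by
  rw [inv_eq_iff_mul_eq_one, trl_mul, add_neg_cancel, trl_zero]

theorem trl_inj : Function.Injective trl := fun v w h => by
  have h1 : (trl v).g 0 = (trl w).g 0 := by rw [h]
  rwa [trl_g, trl_g, zero_add, zero_add] at h1

private theorem trl_pl (v : P2) : (trl v).g ∈ PLH := by
  refine PLH_aff _ ⟨1, 0, v.1⟩ ⟨0, 1, v.2⟩ ⟨1, 0, -v.1⟩ ⟨0, 1, -v.2⟩ (fun x => ?_) (fun x => ?_)
  · rw [trl_g]
    refine Prod.ext ?_ ?_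
    · simp [L3.ev]
    · simp [L3.ev]
  · change x + -v = _
    refine Prod.ext ?_ ?_
    · simp [L3.ev]
    · simp [L3.ev]

private theorem vec_one (θ : ℝ) : vec (1 : XX) θ = dir θ := by
  have h1 : (1 : XX).r θ = 1 := rfl
  have h2 : (1 : XX).f θ = θ := rfl
  unfold vec
  rw [h1, h2, one_smul]

theorem trl_mem (v : P2) : trl v ∈ Gf := by
  refine ⟨trl_pl v, fun R => ?_⟩
  set R' := max R 0 with hR'
  have hR0 : 0 ≤ R' := le_max_right _ _
  obtain ⟨b, hb0, hb1, hb⟩ := gm_spec.real 1 0 v (2 * R' + 2)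
  have key : ∀ x : P2, ‖x‖ ≤ R' + 1 → b.1 x = x + v := by
    intro x hx
    by_cases hx0 : x = 0
    · rw [hx0, hb0, zero_add]
    · obtain ⟨t, θ, ht, -, -, rfl⟩ := exists_dir x hx0 0
      rw [norm_smul, Real.norm_eq_abs, abs_of_pos ht] at hx
      have h1 := mul_le_mul_of_nonneg_left (dir_norm_ge θ) ht.le
      have h2 := hb θ t ht.le (by linarith)
      rw [zero_add] at h2
      rw [h2, add_comm]
      congr 2
      exact vec_one θ
  refine ⟨b, fun x hx => ?_⟩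
  have hx' : ‖x‖ ≤ R' := hx.trans (le_max_left _ _)
  refine ⟨?_, ?_⟩
  · rw [key x (by linarith), trl_g]
  · have hseg : ∀ z ∈ segment ℝ (0 : P2) x, z ∈ Metric.ball (0 : P2) (R' + 1) ∧ Same ∅ 0 z := by
      intro z hz
      refine ⟨(convex_ball (0 : P2) (R' + 1)).segment_subset (Metric.mem_ball_self (by linarith)) ?_ hz,
        fun l hl => absurd hl (Finset.notMem_empty l)⟩
      rw [mem_ball_zero_iff]
      linarith
    have h1 := ph_seg (gfl_mem b) (U := Metric.ball (0 : P2) (R' + 1)) Metric.isOpen_ball ∅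
      (fun y hy => ⟨⟨1, 0, v.1⟩, ⟨0, 1, v.2⟩, fun z hz => by
        rw [gfl_g, key z (by
          have h2 := mem_ball_zero_iff.1 hz.1
          exact h2.le)]
        refine Prod.ext ?_ ?_
        · simp [L3.ev]
        · simp [L3.ev]⟩) 0 x hseg
    rw [gfl_ph, gfl_ph, hb1] at h1
    exact h1

/-- the scaling by `c` -/
theorem exists_sc (c : ℝ) (hc : 0 < c) : ∃ F : ↥Ft, ∀ s, F.1.ev s = (s, c) := by
  have hl : ∀ A : Set ℝ, LinOn (OrderIso.refl ℝ) (fun _ => c) A := by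
    intro A
    refine ⟨⟨c, 0⟩, ⟨0, c⟩, fun s _ => ?_⟩
    refine Complex.ext ?_ ?_
    · rw [V_re]
      simp only [Complex.add_re, Complex.smul_re, smul_eq_mul, mul_zero, add_zero]
      exact mul_comm _ _
    · rw [V_im]
      simp only [Complex.add_im, Complex.smul_im, smul_eq_mul, mul_zero, zero_add]
      exact mul_comm _ _
  let F : XX := ⟨OrderIso.refl ℝ, fun _ => c, fun _ => hc, fun t => ⟨1, one_pos, hl _, hl _⟩⟩
  have hF : F ∈ Ft := by
    rw [mem_Ft]
    intro s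
    rfl
  exact ⟨⟨F, hF⟩, fun s => rfl⟩

/-- the homothety of ratio 2 -/
def hom2 : FGr := hf (exists_sc 2 two_pos).choose

theorem hom2_mem : hom2 ∈ Cnf := hf_mem _

private theorem sc_vec (θ : ℝ) : vec (exists_sc 2 two_pos).choose.1 θ = (2 : ℝ) • dir θ := by
  have h := (exists_sc 2 two_pos).choose_spec θ
  have h1 : (exists_sc 2 two_pos).choose.1.f θ = θ := congrArg Prod.fst h
  have h2 : (exists_sc 2 two_pos).choose.1.r θ = 2 := congrArg Prod.snd h
  unfold vec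
  rw [h1, h2]

theorem hom2_g (x : P2) : hom2.g x = (2 : ℝ) • x := by
  by_cases hx : x = 0
  · rw [hx, Cnf_zero hom2_mem, smul_zero]
  · obtain ⟨t, θ, ht, -, -, rfl⟩ := exists_dir x hx 0
    have h1 := hf_g (exists_sc 2 two_pos).choose θ t ht.le
    rw [sc_vec, smul_comm] at h1
    exact h1

private theorem hom2_aff : IsAff hom2.g := by
  refine ⟨⟨2, 0, 0⟩, ⟨0, 2, 0⟩, fun x => ?_⟩
  rw [hom2_g]
  refine Prod.ext ?_ ?_
  · simp [L3.ev]
  · simp [L3.ev]

theorem hom2_comm {a : FGr} (ha : a ∈ Cnf) : hom2 * a = a * hom2 := by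
  have h1 : (exists_sc 2 two_pos).choose * a.ph 0 = a.ph 0 * (exists_sc 2 two_pos).choose :=
    Subtype.ext (cen_comm two_pos sc_vec (a.ph 0).2)
  have h2 : hom2 * hf (a.ph 0) = hf (a.ph 0) * hom2 := by
    change hf _ * hf _ = hf _ * hf _
    rw [← map_mul, h1, map_mul]
  rwa [hf_uniq ha] at h2

theorem hom2_trl (v : P2) : hom2 * trl v * hom2⁻¹ = trl v * trl v := by
  refine FGr.ext (Equiv.ext fun x => ?_) (funext fun x => ?_)
  · change hom2.g ((trl v).g (hom2⁻¹.g x)) = (trl v).g ((trl v).g x)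
    have h1 := FGr.apply_inv hom2 x
    rw [hom2_g] at h1
    rw [hom2_g, trl_g, trl_g, trl_g, smul_add, h1, two_smul ℝ v, add_assoc]
  · rw [FGr.mul_ph, FGr.mul_ph, FGr.mul_ph, trl_ph, trl_ph, trl_ph, FGr.inv_ph, mul_one, mul_one,
      ph_affine hom2_mem.1 hom2_aff ((trl v).g (hom2⁻¹.g x)) (hom2.g⁻¹ x), mul_inv_cancel]

/-- framed rotations -/
theorem exists_rt (α : ℝ) : ∃ a ∈ Cnf, IsAff a.g ∧ IsAff a.g⁻¹ ∧
    (∀ θ t : ℝ, 0 ≤ t → a.g (t • dir θ) = t • dir (θ + α)) := by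
  have hm : XX.rot α ∈ Ft := by
    rw [mem_Ft]
    intro s
    rw [XX.rot_ev, XX.rot_f, XX.rot_r]
    refine Prod.ext ?_ rfl
    change s + 2 * Real.pi + α = s + α + 2 * Real.pi
    ring
  have hv : ∀ θ, vec (XX.rot α) θ = dir (θ + α) := by
    intro θ
    unfold vec
    rw [XX.rot_f, XX.rot_r, one_smul]
  have hg : ∀ x, (hf ⟨XX.rot α, hm⟩).g x = rt α x := by
    intro x
    by_cases hx : x = 0
    · rw [hx, Cnf_zero (hf_mem _)]
      have h1 := rt_smul α 0 0
      rw [zero_smul, zero_smul] at h1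
      exact h1.symm
    · obtain ⟨t, θ, ht, -, -, rfl⟩ := exists_dir x hx 0
      rw [hf_g _ _ _ ht.le, rt_dir]
      change t • vec (XX.rot α) θ = _
      rw [hv]
  refine ⟨hf ⟨XX.rot α, hm⟩, hf_mem _, ⟨⟨Real.cos α, -Real.sin α, 0⟩, ⟨Real.sin α, Real.cos α, 0⟩,
    fun x => ?_⟩, ⟨⟨Real.cos (-α), -Real.sin (-α), 0⟩, ⟨Real.sin (-α), Real.cos (-α), 0⟩,
    fun x => ?_⟩, fun θ t ht => ?_⟩
  · rw [hg]
    unfold rt L3.ev
    refine Prod.ext ?_ ?_
    · change _ = Real.cos α * x.1 + -Real.sin α * x.2 + 0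
      ring
    · change _ = Real.sin α * x.1 + Real.cos α * x.2 + 0
      ring
  · have h1 : (hf ⟨XX.rot α, hm⟩).g⁻¹ x = rt (-α) x := by
      rw [Equiv.Perm.inv_eq_iff_eq, hg, rt_add, add_neg_cancel, rt_zero]
    rw [h1]
    unfold rt L3.ev
    refine Prod.ext ?_ ?_
    · change _ = Real.cos (-α) * x.1 + -Real.sin (-α) * x.2 + 0
      ring
    · change _ = Real.sin (-α) * x.1 + Real.cos (-α) * x.2 + 0
      ring
  · rw [hf_g _ _ _ ht]
    change t • vec (XX.rot α) θ = _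
    rw [hv]

end C715
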