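import Pool.Agent.Work.MP_c71557_gt.K.Ex
import Pool.Agent.Work.MP_c71557_gt.K.Fq
import Pool.Agent.Work.MP_c71557_gt.S.Fin
import Pool.Agent.Work.MP_c71557_gt.C.Cone
import Pool.Agent.Work.MP_c71557_gt.Q.Cmp

set_option autoImplicit false
set_option linter.unusedVariables false

/-!
# MP_c71557_gt, block K: the local computation from the exact sequence
-/

noncomputable section

namespace C715

open Ang CategoryTheory

theorem kap_hiso : HIso kap := by
  obtain ⟨d0, d1, ε, h0, h1, h2, h3⟩ := exists_ex
  exact devis kap gPLf.F0 gPLf.F1 gPLf.F2 d0 d1 ε h0 h1 h2 h3 F0_qis F1_qis F2_qis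

/-- the local computation: `H_n` of the category of thin sets with at most one special point is
zero for `1 ≤ n ≤ 5` -/
theorem loc (n : ℕ) (h1 : 1 ≤ n) (h5 : n ≤ 5) :
    Subsingleton (HC (V0 A0 A0_wind).Obj n) := by
  refine cmp n ?_
  have := cone_zero n h1 h5
  exact (Equiv.ofBijective _ (kap_hiso n)).symm.subsingleton

end C715
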