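import Pool.Agent.Work.MP_c71557_gt.G.Germ
import Pool.Agent.Work.MP_c71557_gt.H.ActEl

set_option autoImplicit false
set_option linter.unusedVariables false

/-!
# MP_c71557_gt, block K: framed piecewise linear homeomorphisms, structured open sets

`FGr`: permutations `g` of the plane with a framing `ph : P2 → Ft`; `Gf`: those which on every
bounded set agree with `(g', gm g')`, `g' ∈ Gc`.  `FGeo`: a geometry; `Str`: structured open sets
`(U, A)`.  `S2` = 2-cells, `S1` = oriented chords (classes of ordered pairs of distinct points of a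
cell), `S0` = points; all proofs complete.
-/

noncomputable section

namespace C715

open Ang CategoryTheory
open scoped Topology

/-- permutations of the plane with a framing -/
@[ext] structure FGr where
  g : Equiv.Perm P2
  ph : P2 → ↥Ft

namespace FGr

instance : Mul FGr := ⟨fun a b => ⟨a.g * b.g, fun v => a.ph (b.g v) * b.ph v⟩⟩
instance : One FGr := ⟨⟨1, fun _ => 1⟩⟩
instance : Inv FGr := ⟨fun a => ⟨a.g⁻¹, fun v => (a.ph (a.g⁻¹ v))⁻¹⟩⟩

@[simp] theorem mul_g (a b : FGr) : (a * b).g = a.g * b.g := rfl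
@[simp] theorem mul_ph (a b : FGr) (v : P2) : (a * b).ph v = a.ph (b.g v) * b.ph v := rfl
@[simp] theorem one_g : (1 : FGr).g = 1 := rfl
@[simp] theorem one_ph (v : P2) : (1 : FGr).ph v = 1 := rfl
@[simp] theorem inv_g (a : FGr) : (a⁻¹).g = a.g⁻¹ := rfl
@[simp] theorem inv_ph (a : FGr) (v : P2) : (a⁻¹).ph v = (a.ph (a.g⁻¹ v))⁻¹ := rfl

instance : Group FGr where
  mul_assoc a b c := FGr.ext (mul_assoc _ _ _) (funext fun v => by
    change a.ph (b.g (c.g v)) * b.ph (c.g v) * c.ph v = a.ph (b.g (c.g v)) * (b.ph (c.g v) * c.ph v)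
    rw [mul_assoc])
  one_mul a := FGr.ext (one_mul _) (funext fun v => by
    change 1 * a.ph v = a.ph v
    rw [one_mul])
  mul_one a := FGr.ext (mul_one _) (funext fun v => by
    change a.ph v * 1 = a.ph v
    rw [mul_one])
  inv_mul_cancel a := FGr.ext (inv_mul_cancel _) (funext fun v => by
    change (a.ph (a.g⁻¹ (a.g v)))⁻¹ * a.ph v = 1
    have h : a.g⁻¹ (a.g v) = v := a.g.symm_apply_apply v
    rw [h, inv_mul_cancel])

/-- the underlying permutation -/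
def toPerm : FGr →* Equiv.Perm P2 where
  toFun a := a.g
  map_one' := rfl
  map_mul' _ _ := rfl

theorem inv_apply (a : FGr) (x : P2) : a⁻¹.g (a.g x) = x := a.g.symm_apply_apply x

theorem apply_inv (a : FGr) (x : P2) : a.g (a⁻¹.g x) = x := a.g.apply_symm_apply x

end FGr

/-- framed piecewise linear homeomorphisms -/
def Gf : Subgroup FGr where
  carrier := {a | a.g ∈ PLH ∧ ∀ R : ℝ, ∃ b : ↥Gc, ∀ x : P2, ‖x‖ ≤ R →
    a.g x = b.1 x ∧ a.ph x = gm b x}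
  mul_mem' := by
    rintro a b ⟨ha, h1⟩ ⟨hb, h2⟩
    refine ⟨PLH.mul_mem ha hb, fun R => ?_⟩
    obtain ⟨R', hR'⟩ := PLH_bdd b.g hb R
    obtain ⟨b', e2⟩ := h2 R
    obtain ⟨a', e1⟩ := h1 R'
    refine ⟨a' * b', fun x hx => ?_⟩
    have h3 := e1 _ (hR' x hx)
    have h4 := e2 x hx
    refine ⟨?_, ?_⟩
    · change a.g (b.g x) = a'.1 (b'.1 x)
      rw [h3.1, h4.1]
    · rw [gm_mul, FGr.mul_ph, h3.2, h4.2, h4.1]
  one_mem' := ⟨PLH.one_mem, fun R => ⟨1, fun x _ => ⟨rfl, (gm_one x).symm⟩⟩⟩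
  inv_mem' := by
    rintro a ⟨ha, h1⟩
    refine ⟨PLH.inv_mem ha, fun R => ?_⟩
    obtain ⟨R', hR'⟩ := PLH_bdd a.g⁻¹ (PLH.inv_mem ha) R
    obtain ⟨a', e1⟩ := h1 R'
    refine ⟨a'⁻¹, fun x hx => ?_⟩
    have h2 := e1 (a.g⁻¹ x) (hR' x hx)
    have h3 : a.g (a.g⁻¹ x) = x := a.g.apply_symm_apply x
    rw [h3] at h2
    refine ⟨?_, ?_⟩
    · change a.g⁻¹ x = a'.1⁻¹ x
      rw [eq_comm, Equiv.Perm.inv_eq_iff_eq]
      exact h2.1
    · rw [FGr.inv_ph, h2.2, ← gm_inv, ← h2.1]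

theorem Gf_PLH {a : FGr} (h : a ∈ Gf) : a.g ∈ PLH := h.1

/-- the embedding of `Gc` -/
def gfl : ↥Gc →* FGr where
  toFun g := ⟨g.1, gm g⟩
  map_one' := FGr.ext rfl (funext fun v => gm_one v)
  map_mul' g h := FGr.ext rfl (funext fun v => gm_mul g h v)

theorem gfl_mem (g : ↥Gc) : gfl g ∈ Gf := ⟨g.2.1, fun _ => ⟨g, fun _ _ => ⟨rfl, rfl⟩⟩⟩

theorem gfl_g (g : ↥Gc) : (gfl g).g = g.1 := rfl

theorem gfl_ph (g : ↥Gc) (v : P2) : (gfl g).ph v = gm g v := rfl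

/-! ## lines, cells -/

theorem Ln.ev_sub (l : Ln) (x y : P2) : l.ev y - l.ev x = l.lin (y - x) := by
  simp only [Ln.ev, Ln.lin, Prod.fst_sub, Prod.snd_sub]
  ring

theorem Ln.lin_smul (l : Ln) (s : ℝ) (v : P2) : l.lin (s • v) = s * l.lin v := by
  simp only [Ln.lin, Prod.smul_fst, Prod.smul_snd, smul_eq_mul]
  ring

theorem L3.ev_sub' (l : L3) (x y : P2) : l.ev y - l.ev x = l.lin (y - x) := by
  simp only [L3.ev, L3.lin, Prod.fst_sub, Prod.snd_sub]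
  ring

theorem L3.lin_smul (l : L3) (s : ℝ) (v : P2) : l.lin (s • v) = s * l.lin v := by
  simp only [L3.lin, Prod.smul_fst, Prod.smul_snd, smul_eq_mul]
  ring

theorem Ln.cont (l : Ln) : Continuous l.ev := by
  unfold Ln.ev
  fun_prop

theorem Same.refl (A : Finset Ln) (x : P2) : Same A x x := fun _ _ => rfl

theorem Same.symm {A : Finset Ln} {x y : P2} (h : Same A x y) : Same A y x :=
  fun l hl => (h l hl).symm

theorem Same.trans {A : Finset Ln} {x y z : P2} (h : Same A x y) (h' : Same A y z) : Same A x z :=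
  fun l hl => (h l hl).trans (h' l hl)

/-- points off the lines -/
def Gen (A : Finset Ln) (x : P2) : Prop := ∀ l ∈ A, l.ev x ≠ 0

theorem Gen.same {A : Finset Ln} {x y : P2} (h : Gen A x) (h' : Same A x y) : Gen A y := by
  intro l hl e
  have h1 := h' l hl
  rw [e, sign_zero] at h1
  exact h l hl (sign_eq_zero_iff.1 h1)

theorem Ln.sign_nhds (l : Ln) {x : P2} (h : l.ev x ≠ 0) :
    ∀ᶠ y in 𝓝 x, SignType.sign (l.ev x) = SignType.sign (l.ev y) := by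
  rcases lt_or_gt_of_ne h with h | h
  · filter_upwards [l.cont.continuousAt.eventually (gt_mem_nhds h)] with y hy
    rw [sign_neg h, sign_neg hy]
  · filter_upwards [l.cont.continuousAt.eventually (lt_mem_nhds h)] with y hy
    rw [sign_pos h, sign_pos hy]

theorem Gen.nhds {A : Finset Ln} {x : P2} (h : Gen A x) : ∀ᶠ y in 𝓝 x, Same A x y := by
  unfold Same
  rw [Filter.eventually_all_finset]
  exact fun l hl => l.sign_nhds (h l hl)

/-- elements of `Gf` map generic points to generic points -/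
theorem gen_map {U : Set P2} {A A' : Finset Ln} {a : FGr} (ha : a ∈ Gf) (hU : IsOpen U)
    (hc : CellMap U A a.g A') {x : P2} (hx : x ∈ U) (h : Gen A x) : Gen A' (a.g x) := by
  intro l hl e
  have h1 : ∀ᶠ y in 𝓝 x, l.ev (a.g y) = 0 := by
    filter_upwards [h.nhds, hU.mem_nhds hx] with y hy hyU
    have h2 := hc.1 x hx y hyU hy l hl
    rw [e, sign_zero] at h2
    exact sign_eq_zero_iff.1 h2.symm
  have hs : Continuous a.g.symm := ha.1.2.cont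
  have h2 : Filter.Tendsto (fun t : ℝ => a.g.symm (a.g x + t • (l.a, l.b))) (𝓝 0) (𝓝 x) := by
    have h3 : Continuous (fun t : ℝ => a.g.symm (a.g x + t • ((l.a, l.b) : P2))) :=
      hs.comp (continuous_const.add (continuous_id.smul continuous_const))
    have h4 := h3.tendsto 0
    rwa [zero_smul, add_zero, a.g.symm_apply_apply] at h4
  have h3 := h2.eventually h1
  have h4 : ∀ᶠ t in 𝓝 (0 : ℝ), t * (l.a * l.a + l.b * l.b) = 0 := by
    filter_upwards [h3] with t ht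
    rw [a.g.apply_symm_apply] at ht
    have h5 : l.ev (a.g x + t • ((l.a, l.b) : P2)) =
        l.ev (a.g x) + t * (l.a * l.a + l.b * l.b) := by
      simp only [Ln.ev, Prod.fst_add, Prod.snd_add, Prod.smul_fst, Prod.smul_snd, smul_eq_mul]
      ring
    rw [h5, e, zero_add] at ht
    exact ht
  obtain ⟨ε, hε, h5⟩ := Metric.eventually_nhds_iff.1 h4
  have h6 := h5 (y := ε / 2) (by
    rw [Real.dist_eq, sub_zero, abs_of_pos (half_pos hε)]
    exact half_lt_self hε)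
  have h7 : l.a * l.a + l.b * l.b = 0 := by
    rcases mul_eq_zero.1 h6 with h | h
    · exact absurd h (half_pos hε).ne'
    · exact h
  have h8 : l.a = 0 ∧ l.b = 0 := by
    constructor <;> nlinarith [mul_self_nonneg l.a, mul_self_nonneg l.b]
  rcases l.ne with h | h
  · exact h h8.1
  · exact h h8.2

/-- 2-cells of `(U, A)` -/
abbrev s2 (U : Set P2) (A : Finset Ln) : Setoid {x : P2 // x ∈ U ∧ Gen A x} where
  r x y := Same A x.1 y.1
  iseqv := ⟨fun x => Same.refl A x.1, fun h => h.symm, fun h h' => h.trans h'⟩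

/-- the set of 2-cells -/
def S2T (U : Set P2) (A : Finset Ln) : Type := Quotient (s2 U A)

/-- the 2-cell of a point -/
def c2 {U : Set P2} {A : Finset Ln} (x : P2) (h : x ∈ U) (h' : Gen A x) : S2T U A :=
  Quotient.mk (s2 U A) ⟨x, h, h'⟩

theorem c2_eq {U : Set P2} {A : Finset Ln} {x y : P2} {h : x ∈ U} {h' : Gen A x} {k : y ∈ U}
    {k' : Gen A y} : c2 x h h' = c2 y k k' ↔ Same A x y := Quotient.eq (r := s2 U A)

theorem c2_ind {U : Set P2} {A : Finset Ln} {p : S2T U A → Prop}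
    (h : ∀ x (h : x ∈ U) (h' : Gen A x), p (c2 x h h')) (c : S2T U A) : p c :=
  Quotient.ind (fun x => h x.1 x.2.1 x.2.2) c

/-- pairs of distinct points of a cell -/
abbrev PrT (U : Set P2) (A : Finset Ln) : Type :=
  {p : P2 × P2 // p.1 ∈ U ∧ p.2 ∈ U ∧ p.1 ≠ p.2 ∧ Same A p.1 p.2}

/-- oriented chords -/
abbrev s1 (U : Set P2) (A : Finset Ln) : Setoid (PrT U A) where
  r p q := Same A p.1.1 q.1.1 ∧ (∃ s : ℝ, q.1.1 - p.1.1 = s • (p.1.2 - p.1.1)) ∧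
    ∃ t : ℝ, 0 < t ∧ q.1.2 - q.1.1 = t • (p.1.2 - p.1.1)
  iseqv :=
    { refl := fun p => ⟨Same.refl _ _, ⟨0, by rw [sub_self, zero_smul]⟩, 1, one_pos,
        (one_smul _ _).symm⟩
      symm := by
        rintro p q ⟨h, ⟨s, hs⟩, t, ht, ht'⟩
        refine ⟨h.symm, ⟨-(s / t), ?_⟩, t⁻¹, inv_pos.2 ht, ?_⟩
        · rw [ht', smul_smul, neg_mul, div_mul_cancel₀ _ ht.ne', neg_smul, ← hs, neg_sub]
        · rw [ht', smul_smul, inv_mul_cancel₀ ht.ne', one_smul]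
      trans := by
        rintro p q r ⟨h, ⟨s, hs⟩, t, ht, ht'⟩ ⟨h2, ⟨s2, hs2⟩, t2, ht2, ht2'⟩
        refine ⟨h.trans h2, ⟨s2 * t + s, ?_⟩, t2 * t, mul_pos ht2 ht, ?_⟩
        · have : r.1.1 - p.1.1 = (r.1.1 - q.1.1) + (q.1.1 - p.1.1) := by abel
          rw [this, hs, hs2, ht', smul_smul, add_smul]
        · rw [ht2', ht', smul_smul] }

/-- the set of oriented chords -/
def S1T (U : Set P2) (A : Finset Ln) : Type := Quotient (s1 U A)

/-- the oriented chord through two points -/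
def c1 {U : Set P2} {A : Finset Ln} (x y : P2) (hx : x ∈ U) (hy : y ∈ U) (hne : x ≠ y)
    (h : Same A x y) : S1T U A := Quotient.mk (s1 U A) ⟨(x, y), hx, hy, hne, h⟩

theorem c1_eq {U : Set P2} {A : Finset Ln} {x y x' y' : P2} {hx : x ∈ U} {hy : y ∈ U}
    {hne : x ≠ y} {h : Same A x y} {hx' : x' ∈ U} {hy' : y' ∈ U} {hne' : x' ≠ y'}
    {h' : Same A x' y'} : c1 x y hx hy hne h = c1 x' y' hx' hy' hne' h' ↔
      Same A x x' ∧ (∃ s : ℝ, x' - x = s • (y - x)) ∧ ∃ t : ℝ, 0 < t ∧ y' - x' = t • (y - x) :=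
  Quotient.eq (r := s1 U A)

theorem c1_ind {U : Set P2} {A : Finset Ln} {p : S1T U A → Prop}
    (h : ∀ x y hx hy hne h, p (c1 x y hx hy hne h)) (c : S1T U A) : p c :=
  Quotient.ind (fun q => h q.1.1 q.1.2 q.2.1 q.2.2.1 q.2.2.2.1 q.2.2.2.2) c

/-- a lift to the chords -/
def c1_lift {U : Set P2} {A : Finset Ln} {T : Type} (f : PrT U A → T)
    (h : ∀ p q, (s1 U A).r p q → f p = f q) (c : S1T U A) : T := Quotient.lift f h c

/-- reversing the orientation -/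
def sw {U : Set P2} {A : Finset Ln} : S1T U A → S1T U A :=
  c1_lift (fun p => c1 p.1.2 p.1.1 p.2.2.1 p.2.1 p.2.2.2.1.symm p.2.2.2.2.symm) (by
    rintro ⟨⟨x, y⟩, hx, hy, hne, h⟩ ⟨⟨x', y'⟩, hx', hy', hne', h'⟩ ⟨e, ⟨s, hs⟩, t, ht, ht'⟩
    refine c1_eq.2 ⟨h.symm.trans (Same.trans e h'), ⟨1 - s - t, ?_⟩, t, ht, ?_⟩
    · have h1 : y' - y = (y' - x') + (x' - x) - (y - x) := by abel
      change x' - x = s • (y - x) at hs
      change y' - x' = t • (y - x) at ht'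
      rw [h1, hs, ht']
      module
    · change y' - x' = t • (y - x) at ht'
      rw [← neg_sub y' x', ht']
      module)

theorem sw_c1 {U : Set P2} {A : Finset Ln} {x y : P2} (hx : x ∈ U) (hy : y ∈ U) (hne : x ≠ y)
    (h : Same A x y) : sw (c1 x y hx hy hne h) = c1 y x hy hx hne.symm h.symm := rfl

theorem sw_sw {U : Set P2} {A : Finset Ln} (c : S1T U A) : sw (sw c) = c := by
  induction c using c1_ind with
  | h x y hx hy hne h => rfl

/-- chords in 2-cells -/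
def NW (U : Set P2) (A : Finset Ln) : Set (S1T U A) :=
  {c | c1_lift (fun p => Gen A p.1.1) (by
    rintro p q ⟨h, _, _⟩
    exact propext ⟨fun k => k.same h, fun k => k.same h.symm⟩) c}

theorem mem_NW {U : Set P2} {A : Finset Ln} {x y : P2} {hx : x ∈ U} {hy : y ∈ U} {hne : x ≠ y}
    {h : Same A x y} : c1 x y hx hy hne h ∈ NW U A ↔ Gen A x := Iff.rfl

/-- points which are not vertices -/
def NV (U : Set P2) (A : Finset Ln) : Set {x : P2 // x ∈ U} :=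
  {x | ∃ y ∈ U, y ≠ x.1 ∧ Same A x.1 y}

/-- chords whose line contains the origin -/
def Ce (U : Set P2) (A : Finset Ln) : Set (S1T U A) :=
  {c | c1_lift (fun p => p.1.1.1 * p.1.2.2 = p.1.1.2 * p.1.2.1) (by
    rintro ⟨⟨⟨x1, x2⟩, ⟨y1, y2⟩⟩, hx, hy, hne, h⟩ ⟨⟨⟨z1, z2⟩, ⟨w1, w2⟩⟩, hx', hy', hne', h'⟩
      ⟨e, ⟨s, hs⟩, t, ht, ht'⟩
    have h1 := congrArg Prod.fst hs
    have h2 := congrArg Prod.snd hs
    have h3 := congrArg Prod.fst ht'
    have h4 := congrArg Prod.snd ht'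
    change z1 - x1 = s * (y1 - x1) at h1
    change z2 - x2 = s * (y2 - x2) at h2
    change w1 - z1 = t * (y1 - x1) at h3
    change w2 - z2 = t * (y2 - x2) at h4
    change (x1 * y2 = x2 * y1) = (z1 * w2 = z2 * w1)
    have h5 : z1 * w2 - z2 * w1 = t * (x1 * y2 - x2 * y1) := by
      have e1 : w1 = z1 + t * (y1 - x1) := by linarith
      have e2 : w2 = z2 + t * (y2 - x2) := by linarith
      have e3 : z1 = x1 + s * (y1 - x1) := by linarith
      have e4 : z2 = x2 + s * (y2 - x2) := by linarith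
      rw [e1, e2, e3, e4]
      ring
    refine propext ⟨fun k => ?_, fun k => ?_⟩
    · have : x1 * y2 - x2 * y1 = 0 := sub_eq_zero.2 k
      rw [this, mul_zero] at h5
      exact sub_eq_zero.1 h5
    · have : z1 * w2 - z2 * w1 = 0 := sub_eq_zero.2 k
      rw [this] at h5
      exact sub_eq_zero.1 ((mul_eq_zero.1 h5.symm).resolve_left ht.ne')) c}

theorem mem_Ce {U : Set P2} {A : Finset Ln} {x y : P2} {hx : x ∈ U} {hy : y ∈ U} {hne : x ≠ y}
    {h : Same A x y} : c1 x y hx hy hne h ∈ Ce U A ↔ x.1 * y.2 = x.2 * y.1 := Iff.rfl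

/-! ## geometries -/

/-- a geometry: a group, a class of open convex sets, a class of lines -/
structure FGeo where
  G : Subgroup FGr
  U : Set (Set P2)
  L : Set Ln
  hG : G ≤ Gf
  hU : ∀ V ∈ U, IsOpen V ∧ Convex ℝ V ∧ V.Nonempty

namespace FGeo

/-- the category of structured open sets -/
def Str (𝔾 : FGeo) : ActCat FGr where
  Ob := {p : Set P2 × Finset Ln // p.1 ∈ 𝔾.U ∧ ∀ l ∈ p.2, l ∈ 𝔾.L}
  Adm p a q := a ∈ 𝔾.G ∧ (∀ x ∈ p.1.1, a.g x ∈ q.1.1) ∧ CellMap p.1.1 p.1.2 a.g q.1.2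
  N p :=
    { carrier := {a | a ∈ 𝔾.G ∧ ∀ x ∈ p.1.1, a.g x = x ∧ a.ph x = 1}
      mul_mem' := by
        rintro a b ⟨ha, h1⟩ ⟨hb, h2⟩
        refine ⟨𝔾.G.mul_mem ha hb, fun x hx => ⟨?_, ?_⟩⟩
        · change a.g (b.g x) = x
          rw [(h2 x hx).1, (h1 x hx).1]
        · rw [FGr.mul_ph, (h2 x hx).1, (h2 x hx).2, (h1 x hx).2, one_mul]
      one_mem' := ⟨𝔾.G.one_mem, fun _ _ => ⟨rfl, rfl⟩⟩
      inv_mem' := by
        rintro a ⟨ha, h1⟩
        have h2 : ∀ x ∈ p.1.1, a.g⁻¹ x = x := fun x hx => by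
          rw [Equiv.Perm.inv_eq_iff_eq, (h1 x hx).1]
        refine ⟨𝔾.G.inv_mem ha, fun x hx => ⟨h2 x hx, ?_⟩⟩
        rw [FGr.inv_ph, h2 x hx, (h1 x hx).2, inv_one] }
  one p := ⟨𝔾.G.one_mem, fun _ hx => hx, fun _ _ _ _ h => h,
    fun x hx => ⟨⟨1, 0, 0⟩, ⟨0, 1, 0⟩, fun y _ => by simp [L3.ev]⟩⟩
  mul := by
    rintro p q r g h ⟨hg, h1, h2, h3⟩ ⟨hh, h4, h5, h6⟩
    refine ⟨𝔾.G.mul_mem hh hg, fun x hx => h4 _ (h1 x hx),
      fun x hx y hy e => h5 _ (h1 x hx) _ (h1 y hy) (h2 x hx y hy e), fun x hx => ?_⟩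
    obtain ⟨m, n, e1⟩ := h3 x hx
    obtain ⟨m', n', e2⟩ := h6 (g.g x) (h1 x hx)
    refine ⟨m'.sub m n, n'.sub m n, fun y hy => ?_⟩
    change h.g (g.g y) = _
    rw [L3.ev_sub, L3.ev_sub, e2 (g.g y) ⟨h1 y hy.1, h2 x hx y hy.1 hy.2⟩, e1 y hy]
  nAdm := by
    rintro p n ⟨hn, h1⟩
    have h1 : ∀ x ∈ p.1.1, n.g x = x := fun x hx => (h1 x hx).1
    refine ⟨hn, fun x hx => by rw [h1 x hx]; exact hx, fun x hx y hy e => by
      rw [h1 x hx, h1 y hy]; exact e, fun x hx =>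
      ⟨⟨1, 0, 0⟩, ⟨0, 1, 0⟩, fun y hy => by rw [h1 y hy.1]; simp [L3.ev]⟩⟩
  conj := by
    rintro p q g n ⟨hg, h1, _, _⟩ ⟨hn, h2⟩
    refine ⟨𝔾.G.mul_mem (𝔾.G.mul_mem (𝔾.G.inv_mem hg) hn) hg, fun x hx => ?_⟩
    have h3 := h2 (g.g x) (h1 x hx)
    have h4 : g.g⁻¹ (g.g x) = x := g.g.symm_apply_apply x
    refine ⟨?_, ?_⟩
    · change g.g⁻¹ (n.g (g.g x)) = x
      rw [h3.1, h4]
    · rw [FGr.mul_ph, FGr.mul_ph, FGr.inv_ph, h3.1, h3.2, h4, mul_one, inv_mul_cancel]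

variable (𝔾 : FGeo)

theorem mem_N {p : 𝔾.Str.Ob} {a : FGr} :
    a ∈ 𝔾.Str.N p ↔ a ∈ 𝔾.G ∧ ∀ x ∈ p.1.1, a.g x = x ∧ a.ph x = 1 := Iff.rfl

theorem Ob_open (p : 𝔾.Str.Ob) : IsOpen p.1.1 := (𝔾.hU _ p.2.1).1

/-- points -/
def S0 : ActSet 𝔾.Str where
  X p := {x : P2 // x ∈ p.1.1}
  act {p q a} h x := ⟨a.g x.1, h.2.1 x.1 x.2⟩
  act_one p x := rfl
  act_mul hg hh x := rfl
  act_n {p n} hn x := Subtype.ext ((hn.2 x.1 x.2).1)

/-- 2-cells -/
def S2 : ActSet 𝔾.Str where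
  X p := S2T p.1.1 p.1.2
  act {p q a} h := Quotient.lift (fun x => c2 (a.g x.1) (h.2.1 x.1 x.2.1)
    (gen_map (𝔾.hG h.1) (𝔾.Ob_open p) h.2.2 x.2.1 x.2.2)) (by
      rintro ⟨x, hx, hx'⟩ ⟨y, hy, hy'⟩ (e : Same p.1.2 x y)
      exact c2_eq.2 (h.2.2.1 x hx y hy e))
  act_one p c := by
    induction c using c2_ind with
    | h x h h' => rfl
  act_mul hg hh c := by
    induction c using c2_ind with
    | h x h h' => rfl
  act_n {p n} hn c := by
    induction c using c2_ind with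
    | h x h h' =>
      refine c2_eq.2 ?_
      rw [(hn.2 x h).1]
      exact Same.refl _ _

theorem S2_act {p q : 𝔾.Str.Ob} {a : FGr} (h : 𝔾.Str.Adm p a q) {x : P2} (hx : x ∈ p.1.1)
    (hx' : Gen p.1.2 x) : 𝔾.S2.act h (c2 x hx hx') =
      c2 (a.g x) (h.2.1 x hx) (gen_map (𝔾.hG h.1) (𝔾.Ob_open p) h.2.2 hx hx') := rfl

/-- affine on cells -/
theorem adm_aff {p q : 𝔾.Str.Ob} {a : FGr} (h : 𝔾.Str.Adm p a q) {x y z w : P2}
    (hx : x ∈ p.1.1) (hy : y ∈ p.1.1) (hz : z ∈ p.1.1) (hw : w ∈ p.1.1) (hy' : Same p.1.2 x y)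
    (hz' : Same p.1.2 x z) (hw' : Same p.1.2 x w) {s : ℝ} (e : w - z = s • (y - x)) :
    a.g w - a.g z = s • (a.g y - a.g x) := by
  obtain ⟨m, n, h1⟩ := h.2.2.2 x hx
  rw [h1 w ⟨hw, hw'⟩, h1 z ⟨hz, hz'⟩, h1 y ⟨hy, hy'⟩, h1 x ⟨hx, Same.refl _ _⟩]
  refine Prod.ext ?_ ?_
  · change m.ev w - m.ev z = s * (m.ev y - m.ev x)
    rw [L3.ev_sub', L3.ev_sub', e, L3.lin_smul]
  · change n.ev w - n.ev z = s * (n.ev y - n.ev x)
    rw [L3.ev_sub', L3.ev_sub', e, L3.lin_smul]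

/-- oriented chords -/
def S1 : ActSet 𝔾.Str where
  X p := S1T p.1.1 p.1.2
  act {p q a} h := c1_lift (fun r => c1 (a.g r.1.1) (a.g r.1.2) (h.2.1 _ r.2.1) (h.2.1 _ r.2.2.1)
    (fun e => r.2.2.2.1 (a.g.injective e)) (h.2.2.1 _ r.2.1 _ r.2.2.1 r.2.2.2.2)) (by
      rintro ⟨⟨x, y⟩, hx, hy, hne, e⟩ ⟨⟨x', y'⟩, hx', hy', hne', e'⟩ ⟨k, ⟨s, hs⟩, t, ht, ht'⟩
      refine c1_eq.2 ⟨h.2.2.1 x hx x' hx' k, ⟨s, ?_⟩, t, ht, ?_⟩
      · exact 𝔾.adm_aff h hx hy hx hx' e (Same.refl _ _) k hs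
      · exact 𝔾.adm_aff h hx hy hx' hy' e k (Same.trans k e') ht')
  act_one p c := by
    induction c using c1_ind with
    | h x y hx hy hne h => rfl
  act_mul hg hh c := by
    induction c using c1_ind with
    | h x y hx hy hne h => rfl
  act_n {p n} hn c := by
    induction c using c1_ind with
    | h x y hx hy hne h =>
      have h1 := 𝔾.Str.nAdm hn
      refine (c1_eq (hx := h1.2.1 x hx) (hy := h1.2.1 y hy) (hne := fun k => hne (n.g.injective k))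
        (h := h1.2.2.1 x hx y hy h)).2 ⟨?_, ⟨0, ?_⟩, 1, one_pos, ?_⟩
      · rw [(hn.2 x hx).1]
        exact Same.refl _ _
      · rw [(hn.2 x hx).1, sub_self, zero_smul]
      · rw [(hn.2 x hx).1, (hn.2 y hy).1, one_smul]

theorem S1_act {p q : 𝔾.Str.Ob} {a : FGr} (h : 𝔾.Str.Adm p a q) {x y : P2} (hx : x ∈ p.1.1)
    (hy : y ∈ p.1.1) (hne : x ≠ y) (e : Same p.1.2 x y) : 𝔾.S1.act h (c1 x y hx hy hne e) =
      c1 (a.g x) (a.g y) (h.2.1 x hx) (h.2.1 y hy) (fun k => hne (a.g.injective k))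
        (h.2.2.1 x hx y hy e) := rfl

theorem S1_sw {p q : 𝔾.Str.Ob} {a : FGr} (h : 𝔾.Str.Adm p a q) (c : 𝔾.S1.X p) :
    𝔾.S1.act h (sw c) = sw (𝔾.S1.act h c) := by
  induction c using c1_ind with
  | h x y hx hy hne e => rfl

theorem NW_act {p q : 𝔾.Str.Ob} {a : FGr} (h : 𝔾.Str.Adm p a q) (c : 𝔾.S1.X p)
    (hc : c ∈ NW p.1.1 p.1.2) : 𝔾.S1.act h c ∈ NW q.1.1 q.1.2 := by
  induction c using c1_ind with
  | h x y hx hy hne e => exact gen_map (𝔾.hG h.1) (𝔾.Ob_open p) h.2.2 hx hc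

theorem NV_act {p q : 𝔾.Str.Ob} {a : FGr} (h : 𝔾.Str.Adm p a q) (x : 𝔾.S0.X p)
    (hx : x ∈ NV p.1.1 p.1.2) : 𝔾.S0.act h x ∈ NV q.1.1 q.1.2 := by
  obtain ⟨y, hy, hne, e⟩ := hx
  exact ⟨a.g y, h.2.1 y hy, fun k => hne (a.g.injective k), h.2.2.1 x.1 x.2 y hy e⟩

end FGeo

/-- the piecewise linear geometry -/
def gPLf : FGeo where
  G := Gf
  U := {U | IsOpen U ∧ Convex ℝ U ∧ U.Nonempty}
  L := Set.univ
  hG := le_rfl
  hU _ h := h

/-- homogeneous elements -/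
def Cnf : Subgroup FGr where
  carrier := {a | a ∈ Gf ∧ ∀ (t : ℝ) (x : P2), 0 < t → a.g (t • x) = t • a.g x}
  mul_mem' := by
    rintro g h ⟨hg, h1⟩ ⟨hh, h2⟩
    refine ⟨Gf.mul_mem hg hh, fun t x ht => ?_⟩
    change g.g (h.g (t • x)) = t • g.g (h.g x)
    rw [h2 t x ht, h1 t _ ht]
  one_mem' := ⟨Gf.one_mem, fun _ _ _ => rfl⟩
  inv_mem' := by
    rintro g ⟨hg, h1⟩
    refine ⟨Gf.inv_mem hg, fun t x ht => ?_⟩
    change g.g⁻¹ (t • x) = t • g.g⁻¹ x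
    rw [Equiv.Perm.inv_eq_iff_eq, h1 t _ ht]
    congr 1
    exact (g.g.apply_symm_apply x).symm

/-- the homogeneous geometry: open convex cones (with the plane), lines through the origin -/
def gCnf : FGeo where
  G := Cnf
  U := {U | IsOpen U ∧ Convex ℝ U ∧ U.Nonempty ∧
    (∀ (t : ℝ) (x : P2), 0 < t → x ∈ U → t • x ∈ U)}
  L := {l | l.c = 0}
  hG _ h := h.1
  hU _ h := ⟨h.1, h.2.1, h.2.2.1⟩

/-- a cone structured set as a structured set -/
def kOb (p : gCnf.Str.Ob) : gPLf.Str.Ob := ⟨p.1, ⟨p.2.1.1, p.2.1.2.1, p.2.1.2.2.1⟩,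
  fun _ _ => trivial⟩

theorem kAdm {p q : gCnf.Str.Ob} {a : FGr} (h : gCnf.Str.Adm p a q) :
    gPLf.Str.Adm (kOb p) a (kOb q) := ⟨h.1.1, h.2.1, h.2.2⟩

theorem kN {p : gCnf.Str.Ob} {a : FGr} (h : a ∈ gCnf.Str.N p) : a ∈ gPLf.Str.N (kOb p) :=
  ⟨h.1.1, h.2⟩

/-- `Str gCnf → Str gPLf` -/
abbrev kap : gCnf.Str.Obj ⥤ gPLf.Str.Obj := ActCat.idFun kOb kAdm kN

/-- the origin -/
def Or (U : Set P2) : Set {x : P2 // x ∈ U} := {x | x.1 = 0}

theorem Cnf_zero {a : FGr} (h : a ∈ Cnf) : a.g 0 = 0 := by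
  have h1 := h.2 2 0 two_pos
  rw [smul_zero] at h1
  have h2 : a.g 0 + 0 = a.g 0 + a.g 0 := by
    rw [add_zero, ← two_smul ℝ (a.g 0)]
    exact h1
  exact (add_left_cancel h2).symm

theorem Or_act {p q : gCnf.Str.Ob} {a : FGr} (h : gCnf.Str.Adm p a q) (x : gCnf.S0.X p)
    (hx : x ∈ Or p.1.1) : gCnf.S0.act h x ∈ Or q.1.1 := by
  change a.g x.1 = 0
  have hx : x.1 = 0 := hx
  rw [hx]
  exact Cnf_zero h.1

end C715
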