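import Pool.Agent.Work.MP_c71557_gt.K.Defs2

set_option autoImplicit false
set_option linter.unusedVariables false

/-!
# MP_c71557_gt, module K/Chs: the set of points of a chord; neighbourhoods (M)

`chs c`: for `c = c1 x y` the points `z ∈ U` in the cell of `x` with `z - x ∈ ℝ (y - x)`.
* `chs_conv`: `U` convex, `Same.seg`, the line is convex.
* `chs_act`: `𝔾.adm_aff` (with the pairs `(x, y)`, `(x, z)`), `CellMap`.  `act h (c1 x y) = c1 (a x) (a y)`.
* `chs_img`: for `K ⊆ chs c`, `K` convex, the image `a.g '' K` is convex, and for `K ⊆ a.g '' chs c`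
  convex the preimage in `chs c` is convex: `a.g (p + τ (q - p)) = a.g p + τ (a.g q - a.g p)` for
  `p, q ∈ chs c` (`adm_aff`), `τ ∈ [0,1]`.
* `wall_line`: `c = c1 x y` a chord of `(U, A)`; the line `m = ⟨-(v.2), v.1, …⟩`, `v = y - x`, with
  `m.ev z = v.1 (z.2 - x.2) - v.2 (z.1 - x.1)`, vanishes on `chs c`, and every `l ∈ A` with `l.ev x = 0` is
  proportional to `m` (`l.lin v = 0`, as `l.ev y = 0` by `Same`).  For `z ∈ chs c` the same `l ∈ A`
  vanish.  (In the homogeneous case the line of a radial chord has `c = 0`.)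
* `chs_nbhd`: the set `W` of all `z ∈ U` such that `sign (l.ev z) = sign (l.ev x)` for all `l ∈ A` with
  `l.ev x ≠ 0` is open, contains `chs c`, and two points `z, z' ∈ W` with the same sign of `m` are in the
  same cell of `A`.
* `nbh_conv`: `Metric.thickening δ K` (`Convex.thickening`, `IsCompact.exists_thickening_subset_open`).
* `nbh_cone`: `{t • z | t > 0, z ∈ ball x δ}` with `ball x δ ⊆ W`: open (union of balls
  `t • ball`), convex (`t z + t' z' = (t + t') z''` with `z''` a convex combination), a cone.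
-/

noncomputable section

namespace C715

open Ang CategoryTheory

/-- the points of a chord -/
def chs {U : Set P2} {A : Finset Ln} (c : S1T U A) : Set P2 :=
  c1_lift (fun p => {z | z ∈ U ∧ Same A p.1.1 z ∧ ∃ s : ℝ, z - p.1.1 = s • (p.1.2 - p.1.1)}) (by
    rintro ⟨⟨x, y⟩, hx, hy, hne, h⟩ ⟨⟨x', y'⟩, hx', hy', hne', h'⟩ ⟨e, ⟨s, hs⟩, t, ht, ht'⟩
    change x' - x = s • (y - x) at hs
    change y' - x' = t • (y - x) at ht'
    ext z
    constructor
    · rintro ⟨h1, h2, r, h3⟩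
      change z - x = r • (y - x) at h3
      refine ⟨h1, Same.trans e.symm h2, (r - s) / t, ?_⟩
      change z - x' = ((r - s) / t) • (y' - x')
      rw [ht', smul_smul, div_mul_cancel₀ _ ht.ne', sub_smul, ← h3, ← hs]
      abel
    · rintro ⟨h1, h2, r, h3⟩
      change z - x' = r • (y' - x') at h3
      refine ⟨h1, Same.trans e h2, r * t + s, ?_⟩
      change z - x = (r * t + s) • (y - x)
      rw [add_smul, ← hs, mul_smul, ← ht', ← h3]
      abel) c

theorem mem_chs {U : Set P2} {A : Finset Ln} {x y : P2} {hx : x ∈ U} {hy : y ∈ U} {hne : x ≠ y}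
    {h : Same A x y} {z : P2} : z ∈ chs (c1 x y hx hy hne h) ↔
      z ∈ U ∧ Same A x z ∧ ∃ s : ℝ, z - x = s • (y - x) := Iff.rfl

theorem chs_conv {U : Set P2} {A : Finset Ln} (hU : Convex ℝ U) (c : S1T U A) :
    Convex ℝ (chs c) := by
  induction c using c1_ind with
  | h x y hx hy hne h =>
    rintro z ⟨h1, h2, s, h3⟩ z' ⟨h1', h2', s', h3'⟩ a b ha hb hab
    change z - x = s • (y - x) at h3
    change z' - x = s' • (y - x) at h3'
    refine ⟨hU h1 h1' ha hb hab, ?_, a * s + b * s', ?_⟩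
    · have h4 : Same A z z' := Same.trans h2.symm h2'
      exact Same.trans h2 (Same.seg h4 ⟨a, b, ha, hb, hab, rfl⟩)
    · change a • z + b • z' - x = (a * s + b * s') • (y - x)
      have e : a • z + b • z' - x = a • (z - x) + b • (z' - x) := by
        have : x = a • x + b • x := by rw [← add_smul, hab, one_smul]
        rw [smul_sub, smul_sub]
        nth_rewrite 1 [this]
        abel
      rw [e, h3, h3', smul_smul, smul_smul, add_smul]

theorem chs_ne {U : Set P2} {A : Finset Ln} (c : S1T U A) : (chs c).Nonempty := by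
  induction c using c1_ind with
  | h x y hx hy hne h =>
    exact ⟨x, mem_chs.2 ⟨hx, Same.refl _ _, 0, by rw [sub_self, zero_smul]⟩⟩

theorem chs_act (𝔾 : FGeo) {p q : 𝔾.Str.Ob} {a : FGr} (h : 𝔾.Str.Adm p a q) (c : 𝔾.S1.X p)
    {z : P2} (hz : z ∈ chs c) : a.g z ∈ chs (U := q.1.1) (A := q.1.2) (𝔾.S1.act h c) := by
  induction c using c1_ind with
  | h x y hx hy hne e =>
    obtain ⟨h1, h2, s, h3⟩ := hz
    change z - x = s • (y - x) at h3
    change Same p.1.2 x z at h2
    refine ⟨h.2.1 z h1, h.2.2.1 x hx z h1 h2, s, ?_⟩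
    exact 𝔾.adm_aff h hx hy hx h1 e (Same.refl _ _) h2 h3

private theorem aff_seg (𝔾 : FGeo) {p q : 𝔾.Str.Ob} {a : FGr} (h : 𝔾.Str.Adm p a q)
    (c : 𝔾.S1.X p) {z z' : P2} (hz : z ∈ chs c) (hz' : z' ∈ chs c) {α β : ℝ}
    (hm : α • z + β • z' ∈ chs c) (hαβ : α + β = 1) :
    a.g (α • z + β • z') = α • a.g z + β • a.g z' := by
  induction c using c1_ind with
  | h x y hx hy hne e =>
    obtain ⟨h1, h2, s, h3⟩ := hz
    obtain ⟨h1', h2', s', h3'⟩ := hz'
    obtain ⟨h1'', h2'', s'', h3''⟩ := hm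
    change Same p.1.2 x z at h2
    change Same p.1.2 x z' at h2'
    change Same p.1.2 x (α • z + β • z') at h2''
    have hα : α = 1 - β := by linarith
    have h4 := 𝔾.adm_aff h h1 h1' h1 h1'' (Same.trans h2.symm h2') (Same.refl _ _)
      (Same.trans h2.symm h2'') (s := β) (by rw [hα]; module)
    have h5 : a.g (α • z + β • z') = a.g z + β • (a.g z' - a.g z) := by
      rw [← h4]; abel
    rw [h5, hα]
    module

theorem chs_img (𝔾 : FGeo) {p q : 𝔾.Str.Ob} {a : FGr} (h : 𝔾.Str.Adm p a q) (c : 𝔾.S1.X p)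
    {K : Set P2} (hK : Convex ℝ K) (hKc : K ⊆ chs c) : Convex ℝ (a.g '' K) := by
  rintro _ ⟨z, hz, rfl⟩ _ ⟨z', hz', rfl⟩ α β hα hβ hαβ
  refine ⟨α • z + β • z', hK hz hz' hα hβ hαβ, ?_⟩
  exact aff_seg 𝔾 h c (hKc hz) (hKc hz') (hKc (hK hz hz' hα hβ hαβ)) hαβ

theorem chs_pre (𝔾 : FGeo) {p q : 𝔾.Str.Ob} {a : FGr} (h : 𝔾.Str.Adm p a q) (c : 𝔾.S1.X p)
    {K : Set P2} (hK : Convex ℝ K) (hKc : K ⊆ a.g '' chs c) : Convex ℝ (a.g ⁻¹' K) := by
  have hmem : ∀ z ∈ a.g ⁻¹' K, z ∈ chs c := by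
    intro z hz
    obtain ⟨w, hw, hwz⟩ := hKc hz
    rw [← a.g.injective hwz]
    exact hw
  intro z hz z' hz' α β hα hβ hαβ
  have hc := chs_conv (𝔾.hU _ p.2.1).2.1 c (hmem z hz) (hmem z' hz') hα hβ hαβ
  change a.g (α • z + β • z') ∈ K
  rw [aff_seg 𝔾 h c (hmem z hz) (hmem z' hz') hc hαβ]
  exact hK hz hz' hα hβ hαβ

theorem chs_nbhd {U : Set P2} (hU : IsOpen U) (A : Finset Ln) (c : S1T U A) :
    ∃ (m : Ln) (W : Set P2), IsOpen W ∧ W ⊆ U ∧ chs c ⊆ W ∧ (∀ z ∈ chs c, m.ev z = 0) ∧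
      (∀ z ∈ W, ∀ z' ∈ W, Same {m} z z' → Same A z z') ∧
      (c ∈ Ce U A → m.c = 0) ∧
      (∀ (t : ℝ), 0 < t → (∀ z ∈ U, t • z ∈ U) → (∀ l ∈ A, l.c = 0) → ∀ z ∈ W, t • z ∈ W) := by
  induction c using c1_ind with
  | h x y hx hy hne h =>
    have hv : y.1 - x.1 ≠ 0 ∨ y.2 - x.2 ≠ 0 := by
      by_contra hcon
      push Not at hcon
      exact hne (Prod.ext (by linarith [hcon.1]) (by linarith [hcon.2]))
    let m : Ln := ⟨-(y.2 - x.2), y.1 - x.1, (y.2 - x.2) * x.1 - (y.1 - x.1) * x.2, by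
      rcases hv with h | h
      · exact Or.inr h
      · exact Or.inl (neg_ne_zero.2 h)⟩
    have hm : ∀ z : P2, m.ev z = (y.1 - x.1) * (z.2 - x.2) - (y.2 - x.2) * (z.1 - x.1) := by
      intro z
      simp only [Ln.ev, m]
      ring
    refine ⟨m, {z | z ∈ U ∧ ∀ l ∈ A, l.ev x ≠ 0 →
      SignType.sign (l.ev z) = SignType.sign (l.ev x)}, ?_, fun z hz => hz.1, ?_, ?_, ?_, ?_, ?_⟩
    · have e : {z : P2 | z ∈ U ∧ ∀ l ∈ A, l.ev x ≠ 0 →
          SignType.sign (l.ev z) = SignType.sign (l.ev x)} =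
          U ∩ ⋂ l ∈ A, {z : P2 | l.ev x ≠ 0 → SignType.sign (l.ev z) = SignType.sign (l.ev x)} := by
        ext z
        simp only [Set.mem_setOf_eq, Set.mem_inter_iff, Set.mem_iInter]
      rw [e]
      refine hU.inter (isOpen_biInter_finset fun l _ => ?_)
      rcases lt_trichotomy (l.ev x) 0 with h1 | h1 | h1
      · have e2 : {z : P2 | l.ev x ≠ 0 → SignType.sign (l.ev z) = SignType.sign (l.ev x)} =
            {z : P2 | l.ev z < 0} := by
          ext z
          simp only [Set.mem_setOf_eq, sign_neg h1, sign_eq_neg_one_iff]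
          exact ⟨fun h2 => h2 h1.ne, fun h2 _ => h2⟩
        rw [e2]
        exact isOpen_lt l.cont continuous_const
      · have e2 : {z : P2 | l.ev x ≠ 0 → SignType.sign (l.ev z) = SignType.sign (l.ev x)} =
            Set.univ := by
          ext z
          simp only [Set.mem_setOf_eq, Set.mem_univ, iff_true]
          exact fun h2 => absurd h1 h2
        rw [e2]
        exact isOpen_univ
      · have e2 : {z : P2 | l.ev x ≠ 0 → SignType.sign (l.ev z) = SignType.sign (l.ev x)} =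
            {z : P2 | 0 < l.ev z} := by
          ext z
          simp only [Set.mem_setOf_eq, sign_pos h1, sign_eq_one_iff]
          exact ⟨fun h2 => h2 h1.ne', fun h2 _ => h2⟩
        rw [e2]
        exact isOpen_lt continuous_const l.cont
    · rintro z ⟨h1, h2, s, h3⟩
      exact ⟨h1, fun l hl _ => (h2 l hl).symm⟩
    · rintro z ⟨h1, h2, s, h3⟩
      change z - x = s • (y - x) at h3
      have e1 : z.1 - x.1 = s * (y.1 - x.1) := congrArg Prod.fst h3
      have e2 : z.2 - x.2 = s * (y.2 - x.2) := congrArg Prod.snd h3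
      rw [hm, e1, e2]
      ring
    · rintro z ⟨h1, h2⟩ z' ⟨h1', h2'⟩ hs l hl
      by_cases hlx : l.ev x = 0
      · have hly : l.ev y = 0 := by
          have h3 := h l hl
          rw [hlx, sign_zero] at h3
          exact sign_eq_zero_iff.1 h3.symm
        have hlv : l.a * (y.1 - x.1) + l.b * (y.2 - x.2) = 0 := by
          have h4 := Ln.ev_sub l x y
          rw [hlx, hly] at h4
          simp only [Ln.lin, Prod.fst_sub, Prod.snd_sub] at h4
          linarith
        obtain ⟨κ, hκ1, hκ2⟩ : ∃ κ : ℝ, l.a = κ * -(y.2 - x.2) ∧ l.b = κ * (y.1 - x.1) := by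
          rcases hv with h5 | h5
          · refine ⟨l.b / (y.1 - x.1), ?_, ?_⟩
            · rw [div_mul_eq_mul_div, eq_div_iff h5]
              linarith
            · rw [div_mul_cancel₀ _ h5]
          · refine ⟨-l.a / (y.2 - x.2), ?_, ?_⟩
            · rw [div_mul_eq_mul_div, eq_div_iff h5]
              ring
            · rw [div_mul_eq_mul_div, eq_div_iff h5]
              linarith
        have hev : ∀ w : P2, l.ev w = κ * m.ev w := by
          intro w
          have h4 := Ln.ev_sub l x w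
          rw [hlx, sub_zero] at h4
          rw [h4, hm]
          simp only [Ln.lin, Prod.fst_sub, Prod.snd_sub]
          rw [hκ1, hκ2]
          ring
        rw [hev z, hev z', sign_mul, sign_mul, hs m (Finset.mem_singleton_self m)]
      · rw [h2 l hl hlx, h2' l hl hlx]
    · intro hc
      have hc : x.1 * y.2 = x.2 * y.1 := hc
      change (y.2 - x.2) * x.1 - (y.1 - x.1) * x.2 = 0
      linarith
    · rintro t ht hUt hAc z ⟨h1, h2⟩
      refine ⟨hUt z h1, fun l hl hlx => ?_⟩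
      have e : l.ev (t • z) = t * l.ev z := by
        simp only [Ln.ev, Prod.smul_fst, Prod.smul_snd, smul_eq_mul, hAc l hl]
        ring
      rw [e, sign_mul, sign_pos ht, one_mul]
      exact h2 l hl hlx

theorem nbh_conv {K W : Set P2} (hK : IsCompact K) (hc : Convex ℝ K) (hne : K.Nonempty)
    (hW : IsOpen W) (h : K ⊆ W) : ∃ V : Set P2, V ∈ gPLf.U ∧ K ⊆ V ∧ V ⊆ W := by
  obtain ⟨δ, hδ, hδW⟩ := hK.exists_thickening_subset_open hW h
  refine ⟨Metric.thickening δ K, ⟨Metric.isOpen_thickening, hc.thickening δ, ?_⟩,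
    Metric.self_subset_thickening hδ K, hδW⟩
  exact hne.mono (Metric.self_subset_thickening hδ K)

theorem nbh_cone {W : Set P2} (hW : IsOpen W) (h : ∀ (t : ℝ) (z : P2), 0 < t → z ∈ W → t • z ∈ W)
    {x : P2} (hx : x ∈ W) : ∃ V : Set P2, V ∈ gCnf.U ∧ x ∈ V ∧ V ⊆ W := by
  obtain ⟨δ, hδ, hδW⟩ := Metric.isOpen_iff.1 hW x hx
  refine ⟨{w | ∃ t : ℝ, 0 < t ∧ t • w ∈ Metric.ball x δ}, ⟨?_, ?_, ?_, ?_⟩, ?_, ?_⟩
  · have e : {w : P2 | ∃ t : ℝ, 0 < t ∧ t • w ∈ Metric.ball x δ} =
        ⋃ t ∈ {t : ℝ | 0 < t}, (fun w : P2 => t • w) ⁻¹' Metric.ball x δ := by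
      ext w
      simp only [Set.mem_setOf_eq, Set.mem_iUnion, Set.mem_preimage, exists_prop]
    rw [e]
    exact isOpen_biUnion fun t _ => Metric.isOpen_ball.preimage (continuous_const_smul t)
  · rintro w ⟨t, ht, hw⟩ w' ⟨t', ht', hw'⟩ α β hα hβ hαβ
    have hpos : 0 < α / t + β / t' := by
      rcases lt_or_eq_of_le hα with h1 | h1
      · have : 0 < α / t := div_pos h1 ht
        have : 0 ≤ β / t' := div_nonneg hβ ht'.le
        linarith
      · have h2 : β = 1 := by linarith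
        rw [← h1, h2, zero_div, zero_add]
        exact div_pos one_pos ht'
    refine ⟨(α / t + β / t')⁻¹, inv_pos.2 hpos, ?_⟩
    have p1 : 0 ≤ (α / t + β / t')⁻¹ * (α / t) :=
      mul_nonneg (inv_pos.2 hpos).le (div_nonneg hα ht.le)
    have p2 : 0 ≤ (α / t + β / t')⁻¹ * (β / t') :=
      mul_nonneg (inv_pos.2 hpos).le (div_nonneg hβ ht'.le)
    have p3 : (α / t + β / t')⁻¹ * (α / t) + (α / t + β / t')⁻¹ * (β / t') = 1 := by
      rw [← mul_add, inv_mul_cancel₀ hpos.ne']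
    have hc := (convex_ball x δ) hw hw' p1 p2 p3
    have e : (α / t + β / t')⁻¹ • (α • w + β • w') =
        ((α / t + β / t')⁻¹ * (α / t)) • t • w + ((α / t + β / t')⁻¹ * (β / t')) • t' • w' := by
      rw [smul_smul, smul_smul, smul_add, smul_smul, smul_smul]
      congr 2
      · rw [mul_assoc, div_mul_cancel₀ _ ht.ne']
      · rw [mul_assoc, div_mul_cancel₀ _ ht'.ne']
    rw [e]
    exact hc
  · exact ⟨x, 1, one_pos, by rw [one_smul]; exact Metric.mem_ball_self hδ⟩
  · rintro r w hr ⟨t, ht, hw⟩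
    refine ⟨t / r, div_pos ht hr, ?_⟩
    rw [smul_smul, div_mul_cancel₀ _ hr.ne']
    exact hw
  · exact ⟨1, one_pos, by rw [one_smul]; exact Metric.mem_ball_self hδ⟩
  · rintro w ⟨t, ht, hw⟩
    have h1 := h t⁻¹ (t • w) (inv_pos.2 ht) (hδW hw)
    rwa [smul_smul, inv_mul_cancel₀ ht.ne', one_smul] at h1

end C715
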