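import Pool.Agent.Work.MP_c71557_gt.K.Defs
import Pool.Agent.Work.MP_c71557_gt.H.Devis

set_option autoImplicit false
set_option linter.unusedVariables false

/-!
# MP_c71557_gt, block K: the coefficient systems `F0`, `F1`, `F2` on the structured open sets
-/

noncomputable section

namespace C715

open Ang CategoryTheory

namespace FGeo

variable (𝔾 : FGeo)

/-- 2-cells -/
abbrev F2 : Coef 𝔾.Str.Obj := Coef.free 𝔾.S2.toF

/-- oriented chords modulo the chords in 2-cells -/
abbrev F1or : Coef 𝔾.Str.Obj := 𝔾.S1.qf (fun p => NW p.1.1 p.1.2) (𝔾.NW_act)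

/-- points modulo the points which are not vertices -/
abbrev F0 : Coef 𝔾.Str.Obj := 𝔾.S0.qf (fun p => NV p.1.1 p.1.2) (𝔾.NV_act)

theorem sw_NW {U : Set P2} {A : Finset Ln} (c : S1T U A) (h : c ∈ NW U A) : sw c ∈ NW U A := by
  induction c using c1_ind with
  | h x y hx hy hne e => exact Gen.same (mem_NW.1 h) e

/-- reversing the orientation -/
def swH : Coef.Hom 𝔾.F1or 𝔾.F1or where
  f c := Submodule.mapQ _ _ (Finsupp.lmapDomain ℚ ℚ (sw : 𝔾.S1.X c.o → 𝔾.S1.X c.o)) (by
    classical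
    intro x hx
    rw [Submodule.mem_comap, Finsupp.mem_supported]
    rw [Finsupp.mem_supported] at hx
    intro y hy
    have h1 := Finsupp.mapDomain_support (f := (sw : 𝔾.S1.X c.o → 𝔾.S1.X c.o)) (s := x) hy
    rw [Finset.mem_image] at h1
    obtain ⟨z, hz, rfl⟩ := h1
    exact sw_NW z (hx hz))
  comm {a b} u x := by
    obtain ⟨x, rfl⟩ := Submodule.Quotient.mk_surjective _ x
    refine congrArg Submodule.Quotient.mk ?_
    change Finsupp.mapDomain sw (Finsupp.mapDomain (𝔾.S1.toF.map u) x) =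
      Finsupp.mapDomain (𝔾.S1.toF.map u) (Finsupp.mapDomain sw x)
    rw [← Finsupp.mapDomain_comp, ← Finsupp.mapDomain_comp]
    congr 1
    funext c
    induction u using ActCat.ind with
    | h g hg => exact (𝔾.S1_sw hg c).symm

theorem swH_mk (c : 𝔾.Str.Obj) (x : 𝔾.S1.X c.o →₀ ℚ) :
    𝔾.swH.f c (Submodule.Quotient.mk x) = Submodule.Quotient.mk (Finsupp.mapDomain sw x) := rfl

theorem swH_swH (c : 𝔾.Str.Obj) (x : 𝔾.F1or.M c) : 𝔾.swH.f c (𝔾.swH.f c x) = x := by
  obtain ⟨x, rfl⟩ := Submodule.Quotient.mk_surjective _ x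
  refine congrArg Submodule.Quotient.mk ?_
  change Finsupp.mapDomain sw (Finsupp.mapDomain sw x) = x
  rw [← Finsupp.mapDomain_comp]
  exact (Finsupp.mapDomain_congr fun c _ => sw_sw c).trans Finsupp.mapDomain_id

/-- oriented edges, with signs -/
abbrev F1 : Coef 𝔾.Str.Obj := 𝔾.F1or.anti 𝔾.swH

end FGeo
end C715
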