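import Pool.Agent.Work.MP_c71557_gt.K.Chs

set_option autoImplicit false
set_option linter.unusedVariables false

/-!
# MP_c71557_gt, block K: structured sets with one line through the chord
-/

noncomputable section

namespace C715

open Ang CategoryTheory

/-- one line, containing the chord -/
def PE (o : gPLf.S1.El.Ob) : Prop := (∃ m : Ln, o.1.1.2 = {m}) ∧ o.2 ∉ NW o.1.1.1 o.1.1.2

/-- one line, containing the chord, homogeneous geometry -/
def PEC (o : S1C.El.Ob) : Prop := (∃ m : Ln, o.1.1.2 = {m}) ∧ o.2.1 ∉ NW o.1.1.1 o.1.1.2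

theorem lx_nw : ¬ Gen {lx} 0 := fun h => h lx (Finset.mem_singleton_self _) (by
  rw [lx_ev]
  rfl)

theorem oEP_PE : PE oEP := ⟨⟨lx, rfl⟩, lx_nw⟩

theorem oEC_PEC : PEC oEC := ⟨⟨lx, rfl⟩, lx_nw⟩

end C715
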