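import Pool.Agent.Work.MP_c71557_gt.K.Defs2
import Pool.Agent.Work.MP_c71557_gt.K.ExtA

set_option autoImplicit false
set_option linter.unusedVariables false

/-!
# MP_c71557_gt, module K/El2: the category of 2-cells is equivalent to the affine group (M)

`A` = `gPLf.S2.El` (resp. `gCnf.S2.El`), `P o` : the set of lines of `o` is empty.  By
`ActCat.aut_restr` it is enough to prove that `A.restrIncl P` and `(A.restr P).autF ⟨o2P, rfl⟩` are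
homology isomorphisms.

(1) `A.restrIncl P` (by definition `idFun` of `fun a => a.1`): `quillenA_over` with `acy_over_top` at
`b = ((U, A), c)`, `c = c2 x`: `a0 = ((cell U A x, ∅), c2 x)`, `g0 = 1` (`cell_mem`, `cell_memC` in
K/ExtA).  Admissible: the identity maps `cell U A x` into `U`, and all points of it are in the same
cell of `(U, A)`.  `htop`: `g : ((V, ∅), c2 v) → b`, `act g (c2 v) = c2 x`, i.e. `Same A (g v) x`; take
`k = g`: for `y ∈ V`, `Same ∅ y v` gives `Same A (g y) (g v)`, so `g y ∈ cell U A x`; affine on `V` since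
`g` is a cell map; `act k (c2 v) = c2 x` in the cell because all points are `Same ∅`.
`(1 * g)⁻¹ * g = 1`.  `hthin`: `N` is the same set.
(2) `ActCat.tor_hiso` for `A.restr P` at the plane.  `h1`: `g = 1 : (V, ∅) → (univ, ∅)`.
`h2`: `g, g' : (V, ∅) → (univ, ∅)` are affine on `V`; `ext_af` (resp. `ext_afC`) gives `b, b'` with
`b = g`, `b' = g'` on `V` (both components), `IsAff` with inverses; `k = b' * b⁻¹`.  On `V`:
`(k * g).g y = b' (b⁻¹ (g y)) = g' y`, `(k * g).ph y = b'.ph y * (b.ph y)⁻¹ * g.ph y = g'.ph y`, so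
`(k * g)⁻¹ * g'` is the identity on `V` with framing 1.  `k ∈ autG`: `k`, `k⁻¹ = b * b'⁻¹` are affine
(compositions), all points are `Same ∅`.
`h3`: `k⁻¹ * k'` is in `Gf` and affine, it is the identity with framing `1` on `g (V)`, which is open
(`g.g` is a homeomorphism, `Gf_PLH`) and nonempty: `af_uniq`.
-/

noncomputable section

namespace C715

open Ang CategoryTheory

private theorem q_eq {U : Set P2} {A : Finset Ln} {x y : {x : P2 // x ∈ U ∧ Gen A x}}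
    (h : Same A x.1 y.1) : Quotient.mk (s2 U A) x = Quotient.mk (s2 U A) y := Quotient.sound h

private theorem rel_eq {a b : FGr} {y : P2} (h : b.g y = a.g y) (h' : b.ph y = a.ph y) :
    (b⁻¹ * a).g y = y ∧ (b⁻¹ * a).ph y = 1 := by
  have h1 : b.g⁻¹ (b.g y) = y := b.g.symm_apply_apply y
  constructor
  · change b.g⁻¹ (a.g y) = y
    rw [← h, h1]
  · rw [FGr.mul_ph, FGr.inv_ph, ← h, h1, h', inv_mul_cancel]

private theorem emp_L (𝔾 : FGeo) : ∀ l ∈ (∅ : Finset Ln), l ∈ 𝔾.L :=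
  fun l hl => absurd hl (Finset.notMem_empty l)

/-- affine elements are admissible for the plane -/
private theorem adm_plane (𝔾 : FGeo) (hu : Set.univ ∈ 𝔾.U) {k : FGr} (hk : k ∈ 𝔾.G)
    (ha : IsAff k.g) : 𝔾.S2.El.Adm
      ⟨⟨(Set.univ, ∅), hu, emp_L 𝔾⟩, c2 0 trivial (gen_emp 0)⟩ k
      ⟨⟨(Set.univ, ∅), hu, emp_L 𝔾⟩, c2 0 trivial (gen_emp 0)⟩ := by
  obtain ⟨m, n, h⟩ := ha
  exact ⟨⟨hk, fun _ _ => trivial, fun _ _ _ _ _ => same_emp _ _,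
    fun x _ => ⟨m, n, fun y _ => h y⟩⟩, q_eq (same_emp _ _)⟩

private theorem aff_plane (𝔾 : FGeo) (hu : Set.univ ∈ 𝔾.U) {k : FGr}
    (h : 𝔾.S2.El.Adm
      ⟨⟨(Set.univ, ∅), hu, emp_L 𝔾⟩, c2 0 trivial (gen_emp 0)⟩ k
      ⟨⟨(Set.univ, ∅), hu, emp_L 𝔾⟩, c2 0 trivial (gen_emp 0)⟩) : k ∈ 𝔾.G ∧ IsAff k.g := by
  obtain ⟨h, -⟩ := h
  obtain ⟨m, n, h1⟩ := h.2.2.2 0 trivial
  exact ⟨h.1, m, n, fun y => h1 y ⟨trivial, same_emp _ _⟩⟩

private theorem over_gen (𝔾 : FGeo)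
    (hcell : ∀ (p : 𝔾.Str.Ob) (x : P2), x ∈ p.1.1 → Gen p.1.2 x → cell p.1.1 p.1.2 x ∈ 𝔾.U) :
    HIso (𝔾.S2.El.restrIncl (fun o => o.1.1.2 = ∅)) := by
  refine quillenA_over _ ?_
  rintro ⟨p, c⟩
  induction c using c2_ind with
  | h x hx hx' =>
    have h0 : 𝔾.Str.Adm ⟨(cell p.1.1 p.1.2 x, ∅), hcell p x hx hx', emp_L 𝔾⟩ 1 p :=
      ⟨𝔾.G.one_mem, fun y hy => hy.1, fun y hy z hz _ => hy.2.symm.trans hz.2,
        fun y _ => ⟨⟨1, 0, 0⟩, ⟨0, 1, 0⟩, fun z _ => by simp [L3.ev]⟩⟩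
    refine ActCat.acy_over_top (A := 𝔾.S2.El.restr (fun o => o.1.1.2 = ∅)) (A' := 𝔾.S2.El)
      (fun a => a.1) (fun h => h) (fun h => h) ⟨p, c2 x hx hx'⟩
      ⟨⟨⟨(cell p.1.1 p.1.2 x, ∅), hcell p x hx hx', emp_L 𝔾⟩,
        c2 x ⟨hx, Same.refl _ _⟩ (gen_emp x)⟩, rfl⟩ 1 ⟨h0, rfl⟩ ?_ (fun a k k' _ _ h => h)
    rintro ⟨⟨⟨⟨V, A⟩, hV, hA⟩, d⟩, hq⟩ g hg
    change A = ∅ at hq
    subst hq
    obtain ⟨hg, e⟩ := hg
    induction d using c2_ind with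
    | h v hv hv' =>
      have e1 : Same p.1.2 (g.g v) x := (c2_eq (h := hg.2.1 v hv)
        (h' := gen_map (𝔾.hG hg.1) (𝔾.hU V hV).1 hg.2.2 hv hv') (k := hx) (k' := hx')).1 e
      refine ⟨g, ⟨⟨hg.1, fun y hy => ⟨hg.2.1 y hy, ?_⟩, fun _ _ _ _ _ => same_emp _ _,
        hg.2.2.2⟩, q_eq (same_emp _ _)⟩, ?_⟩
      · exact e1.symm.trans (hg.2.2.1 v hv y hy (same_emp _ _))
      · rw [one_mul, inv_mul_cancel]
        exact Subgroup.one_mem _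

private theorem tor_gen (𝔾 : FGeo) (hu : Set.univ ∈ 𝔾.U)
    (hext : ∀ (a : FGr) (V : Set P2) (m n : L3), a ∈ 𝔾.G → V ∈ 𝔾.U →
      (∀ y ∈ V, a.g y = (m.ev y, n.ev y)) → ∃ b ∈ 𝔾.G, IsAff b.g ∧ IsAff b.g⁻¹ ∧
        ∀ y ∈ V, b.g y = a.g y ∧ b.ph y = a.ph y) :
    HIso ((𝔾.S2.El.restr (fun o => o.1.1.2 = ∅)).autF
      ⟨⟨⟨(Set.univ, ∅), hu, emp_L 𝔾⟩, c2 0 trivial (gen_emp 0)⟩, rfl⟩) := by
  refine ActCat.tor_hiso _ _ ?_ ?_ ?_
  · rintro ⟨⟨⟨⟨V, A⟩, hV, hA⟩, d⟩, hq⟩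
    change A = ∅ at hq
    subst hq
    induction d using c2_ind with
    | h v hv hv' =>
      refine ⟨1, ⟨𝔾.G.one_mem, fun _ _ => trivial, fun _ _ _ _ _ => same_emp _ _,
        fun y _ => ⟨⟨1, 0, 0⟩, ⟨0, 1, 0⟩, fun z _ => by simp [L3.ev]⟩⟩, ?_⟩
      exact q_eq (same_emp _ _)
  · rintro ⟨⟨⟨⟨V, A⟩, hV, hA⟩, d⟩, hq⟩ g g' hg hg'
    change A = ∅ at hq
    subst hq
    obtain ⟨hg, -⟩ := hg
    obtain ⟨hg', -⟩ := hg'
    induction d using c2_ind with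
    | h v hv hv' =>
      obtain ⟨m, n, h1⟩ := hg.2.2.2 v hv
      obtain ⟨m', n', h1'⟩ := hg'.2.2.2 v hv
      obtain ⟨b, hb, hb1, hb2, hb3⟩ := hext g V m n hg.1 hV
        (fun y hy => h1 y ⟨hy, same_emp _ _⟩)
      obtain ⟨c, hc, hc1, hc2, hc3⟩ := hext g' V m' n' hg'.1 hV
        (fun y hy => h1' y ⟨hy, same_emp _ _⟩)
      have k1 : IsAff (c * b⁻¹).g := IsAff_comp hc1 hb2
      have k2 : IsAff ((c * b⁻¹)⁻¹).g := by
        rw [mul_inv_rev, inv_inv]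
        exact IsAff_comp hb1 hc2
      have k3 : c * b⁻¹ ∈ 𝔾.G := 𝔾.G.mul_mem hc (𝔾.G.inv_mem hb)
      refine ⟨c * b⁻¹, ⟨adm_plane 𝔾 hu k3 k1, adm_plane 𝔾 hu (𝔾.G.inv_mem k3) k2⟩, ?_⟩
      refine ⟨𝔾.G.mul_mem (𝔾.G.inv_mem (𝔾.G.mul_mem k3 hg.1)) hg'.1, fun y hy => ?_⟩
      have r1 := rel_eq (hb3 y hy).1 (hb3 y hy).2
      refine rel_eq ?_ ?_
      · rw [mul_assoc]
        change c.g ((b⁻¹ * g).g y) = g'.g y
        rw [r1.1]
        exact (hc3 y hy).1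
      · rw [mul_assoc, FGr.mul_ph, r1.1, r1.2, mul_one]
        exact (hc3 y hy).2
  · rintro ⟨⟨⟨⟨V, A⟩, hV, hA⟩, d⟩, hq⟩ g k k' hg hk hk' hN
    change A = ∅ at hq
    subst hq
    obtain ⟨hg, -⟩ := hg
    induction d using c2_ind with
    | h v hv hv' =>
      have a1 := aff_plane 𝔾 hu hk.2
      have a2 := aff_plane 𝔾 hu hk'.1
      have hgf := 𝔾.hG hg.1
      have hs : Continuous g.g.symm := hgf.1.2.cont
      have hu1 : k⁻¹ * k' ∈ Gf := 𝔾.hG (𝔾.G.mul_mem a1.1 a2.1)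
      have hu2 : IsAff (k⁻¹ * k').g := IsAff_comp a1.2 a2.2
      have key : ∀ y ∈ V, (k⁻¹ * k').g (g.g y) = g.g y ∧ (k⁻¹ * k').ph (g.g y) = 1 := by
        intro y hy
        have h1 : (g⁻¹ * ((k⁻¹ * k') * g)).g y = y ∧ (g⁻¹ * ((k⁻¹ * k') * g)).ph y = 1 := by
          have h2 := hN.2 y hy
          have h3 : (k * g)⁻¹ * (k' * g) = g⁻¹ * ((k⁻¹ * k') * g) := by group
          rw [h3] at h2
          exact h2
        obtain ⟨h4, h5⟩ := h1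
        have h6 : (k⁻¹ * k').g (g.g y) = g.g y := by
          change g.g⁻¹ ((k⁻¹ * k').g (g.g y)) = y at h4
          rwa [Equiv.Perm.inv_eq_iff_eq] at h4
        refine ⟨h6, ?_⟩
        have h7 : g.g⁻¹ (g.g y) = y := g.g.symm_apply_apply y
        rw [FGr.mul_ph g⁻¹, FGr.mul_ph (k⁻¹ * k') g, FGr.inv_ph] at h5
        have h8 : ((k⁻¹ * k') * g).g y = g.g y := h6
        rw [h8, h7] at h5
        have h9 := inv_mul_eq_one.1 h5
        exact (mul_eq_right.1 h9.symm)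
      have hone := af_uniq hu1 hu2 (V := g.g.symm ⁻¹' V) ((𝔾.hU V hV).1.preimage hs)
        (x0 := g.g v) (by rw [Set.mem_preimage, g.g.symm_apply_apply]; exact hv) (fun x hx => by
          have h8 := (key (g.g.symm x) hx).1
          rwa [g.g.apply_symm_apply] at h8) (key v hv).2
      exact inv_mul_eq_one.1 hone

private theorem el2_gen (𝔾 : FGeo) (hu : Set.univ ∈ 𝔾.U)
    (hcell : ∀ (p : 𝔾.Str.Ob) (x : P2), x ∈ p.1.1 → Gen p.1.2 x → cell p.1.1 p.1.2 x ∈ 𝔾.U)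
    (hext : ∀ (a : FGr) (V : Set P2) (m n : L3), a ∈ 𝔾.G → V ∈ 𝔾.U →
      (∀ y ∈ V, a.g y = (m.ev y, n.ev y)) → ∃ b ∈ 𝔾.G, IsAff b.g ∧ IsAff b.g⁻¹ ∧
        ∀ y ∈ V, b.g y = a.g y ∧ b.ph y = a.ph y) :
    HIso (𝔾.S2.El.autF
      ⟨⟨(Set.univ, ∅), hu, emp_L 𝔾⟩, c2 0 trivial (gen_emp 0)⟩) :=
  ActCat.aut_restr 𝔾.S2.El (fun o => o.1.1.2 = ∅) _ rfl (tor_gen 𝔾 hu hext) (over_gen 𝔾 hcell)

theorem el2P_aut : HIso (gPLf.S2.El.autF o2P) := by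
  refine el2_gen gPLf ⟨isOpen_univ, convex_univ, Set.univ_nonempty⟩
    (fun p x hx h => cell_mem p hx h) (fun a V m n ha hV h => ?_)
  obtain ⟨b, hb, -, h1, h2, h3⟩ := ext_af ha hV.1 hV.2.1 hV.2.2 m n h
  exact ⟨b, hb, h1, h2, h3⟩

theorem el2C_aut : HIso (gCnf.S2.El.autF o2C) := by
  refine el2_gen gCnf ⟨isOpen_univ, convex_univ, Set.univ_nonempty, fun _ _ _ _ => trivial⟩
    (fun p x hx h => cell_memC p hx h) (fun a V m n ha hV h => ?_)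
  obtain ⟨b, hb, -, h1, h2, h3⟩ := ext_afC ha hV m n h
  exact ⟨b, hb, h1, h2, h3⟩

end C715
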