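import Pool.Agent.Work.MP_c71557_gt.K.ExtA
import Pool.Agent.Work.MP_c71557_gt.K.Defs2

set_option autoImplicit false
set_option linter.unusedVariables false

/-!
# MP_c71557_gt, module K/ExtB: extension of germs which are affine on both sides of a line (M-L)

`Bi m L b`: `b ∈ Gf` maps the cells of `(plane, {m})` affinely into those of `(plane, {L})`, and the
inverse does the same.

* `Ln_prop`: two lines with two common points are proportional: `l.lin v = l'.lin v = 0`, `v = y - x ≠ 0`,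
  so `(l'.a, l'.b) = κ (l.a, l.b)`, and `l'.ev z - κ l.ev z` is constant, `0` at `x`.
* `ext_bi`: `V` open convex, `m.ev x0 = 0`, `x0 ∈ V`, `a` affine on the cells of `(V, {m})`.
  Let `v = (m.b, -m.a) = ρ • dir θ0` (`ρ > 0`); `m.ev (x0 + t • dir (θ0 + ψ)) = t (sin ψ) ρ`, so
  `m > 0` for `0 < ψ < π`, `m < 0` for `-π < ψ < 0`.  Let `F = a.ph x0`.
  (a) for `x0 + z ∈ V` and `s ∈ [0,1]`: `a.g (x0 + s z) = a.g x0 + s (a.g (x0 + z) - a.g x0)`: for
  `s ∈ (0,1]` the points `x0 + s z` are in the same cell as `x0 + z` (`m.ev (x0 + s z) = s m.lin z`), on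
  which `a` is affine; let `s → 0` (continuity) to identify the constant term.
  (b) with `Gf_exp` at `x0`: `a.g (x0 + t • dir θ) = a.g x0 + t • vec F θ` whenever `t ≥ 0` and
  `x0 + t • dir θ ∈ V`.
  (c) on `[θ0, θ0 + π]`: `vec F θ = (M.lin (dir θ), N.lin (dir θ))`, `(M, N)` the affine map of `a` on the
  part `m > 0` of `V` (for `θ0 < θ < θ0 + π` by (b); at the ends by continuity of `θ ↦ vec F θ`); the
  same on `[θ0 - π, θ0]` with `(M', N')`.
  (d) `b = trl (a.g x0) * hf F * trl (-x0)`: `b.g (x0 + t • dir θ) = a.g x0 + t • vec F θ` for all `t ≥ 0`;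
  so `b.g = a.g` on `V`, `b.ph x0 = F`, and as in `ext_af` (`ph_one_of_id` for `b⁻¹ * a`) `b.ph = a.ph` on
  `V`.
  (e) `L`: the line through `a.g x0` with direction `dir (F.f θ0)`: with `(c, s) = dir (F.f θ0)`,
  `L.ev w = -s (w.1 - w0.1) + c (w.2 - w0.2)`, `w0 = a.g x0`; `L.ev (w0 + τ • dir (F.f θ0 + ψ)) = τ sin ψ`.
  By (c) `vec F (θ0 + π) = - vec F θ0`, so `F.f (θ0 + π) - F.f θ0 ∈ π + 2πℤ`; it is in `(0, 2π)` because
  `F.f` is strictly increasing and `F.f (θ0 + 2π) = F.f θ0 + 2π` (`mem_Ft`); so it is `π`.  For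
  `θ0 < θ < θ0 + π`: `F.f θ - F.f θ0 ∈ (0, π)`; the other side in the same way.  Hence
  `sign (L.ev (b.g y)) = sign (m.ev y)` for all `y`.
  (f) `b.g` is affine on the three cells of `{m}` by (c), (d); `b.g⁻¹` on the three cells of `{L}`: the
  linear parts are invertible (injective), the inverse of the affine map of the piece `m > 0` works on
  `L > 0` and on `L = 0`, the other one on `L < 0`.
* `ext_biC`: `a ∈ Cnf`, `V` a cone, `m.c = 0`: the `b` of `ext_bi` is homogeneous: let `(M, N)` be the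
  affine map of `a` on `{m > 0} ∩ V`, a nonempty open cone, so `M.c = N.c = 0` (compare `y` and `2 y`); by
  (b)-(d) `b.g y = (M.ev y, N.ev y)` on all of `{m ≥ 0}`: linear there; the same for `{m ≤ 0}`.  And
  `L.c = 0`: `b.g 0 = 0` and `m.ev 0 = 0`, so `L.ev 0 = 0`.
* `bi_uniq`: `b` is the identity on the open set `V`, which contains points of `{m > 0}` and
  `{m < 0}` near `x0`; an affine map which is the identity on a nonempty open set is the identity; so
  `b.g = 1` on `{m > 0}`, `{m < 0}` and by continuity everywhere; `ph_one_of_id` with `univ`.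
-/

noncomputable section

namespace C715

open Ang CategoryTheory

/-- biaffine framed homeomorphisms -/
def Bi (m L : Ln) (b : FGr) : Prop :=
  gPLf.Str.Adm (uP {m}) b (uP {L}) ∧ gPLf.Str.Adm (uP {L}) b⁻¹ (uP {m}) ∧
    ∀ y, SignType.sign (L.ev (b.g y)) = SignType.sign (m.ev y)

open scoped Topology

private theorem eb_L3_eq {l l' : L3} {V : Set P2} (hV : IsOpen V) {x0 : P2} (hx0 : x0 ∈ V)
    (h : ∀ x ∈ V, l.ev x = l'.ev x) : l = l' := by
  obtain ⟨e, he, hb⟩ := Metric.isOpen_iff.1 hV x0 hx0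
  have he2 : (0 : ℝ) < e / 2 := half_pos he
  have h1 : x0 + ((e / 2, 0) : P2) ∈ V := by
    apply hb
    rw [Metric.mem_ball, dist_eq_norm, add_sub_cancel_left, Prod.norm_mk, norm_zero,
      Real.norm_of_nonneg he2.le, max_eq_left he2.le]
    exact half_lt_self he
  have h2 : x0 + ((0, e / 2) : P2) ∈ V := by
    apply hb
    rw [Metric.mem_ball, dist_eq_norm, add_sub_cancel_left, Prod.norm_mk, norm_zero,
      Real.norm_of_nonneg he2.le, max_eq_right he2.le]
    exact half_lt_self he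
  have k0 := h x0 hx0
  have k1 := h _ h1
  have k2 := h _ h2
  simp only [L3.ev, Prod.fst_add, Prod.snd_add, add_zero] at k0 k1 k2
  have e1 : l.a = l'.a := by
    have : (l.a - l'.a) * (e / 2) = 0 := by linear_combination k1 - k0
    exact sub_eq_zero.1 ((mul_eq_zero.1 this).resolve_right he2.ne')
  have e2 : l.b = l'.b := by
    have : (l.b - l'.b) * (e / 2) = 0 := by linear_combination k2 - k0
    exact sub_eq_zero.1 ((mul_eq_zero.1 this).resolve_right he2.ne')
  have e3 : l.c = l'.c := by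
    rw [e1, e2] at k0
    exact add_left_cancel k0
  exact L3.ext e1 e2 e3

private theorem eb_same {m : Ln} {x y : P2} :
    Same {m} x y ↔ SignType.sign (m.ev x) = SignType.sign (m.ev y) := by
  constructor
  · intro h
    exact h m (Finset.mem_singleton_self m)
  · intro h l hl
    rw [Finset.mem_singleton.1 hl]
    exact h

private theorem eb_sq (m : Ln) : 0 < m.a * m.a + m.b * m.b := by
  rcases m.ne with h | h
  · have := mul_self_pos.2 h
    nlinarith [mul_self_nonneg m.b]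
  · have := mul_self_pos.2 h
    nlinarith [mul_self_nonneg m.a]

private theorem eb_ev_add (m : Ln) (x v : P2) : m.ev (x + v) = m.ev x + m.lin v := by
  simp only [Ln.ev, Ln.lin, Prod.fst_add, Prod.snd_add]
  ring

private theorem eb_L3_add (m : L3) (x v : P2) : m.ev (x + v) = m.ev x + m.lin v := by
  simp only [L3.ev, L3.lin, Prod.fst_add, Prod.snd_add]
  ring

private theorem eb_side {V : Set P2} (hV : IsOpen V) {m : Ln} {x0 : P2} (hx0 : x0 ∈ V)
    (h0 : m.ev x0 = 0) : (∃ y ∈ V, 0 < m.ev y) ∧ ∃ y ∈ V, m.ev y < 0 := by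
  have hcont : Continuous (fun t : ℝ => x0 + t • ((m.a, m.b) : P2)) := by fun_prop
  have h1 : ∀ᶠ t in 𝓝 (0 : ℝ), x0 + t • ((m.a, m.b) : P2) ∈ V := by
    apply hcont.continuousAt.eventually_mem
    rw [zero_smul, add_zero]
    exact hV.mem_nhds hx0
  obtain ⟨e, he, h2⟩ := Metric.eventually_nhds_iff.1 h1
  have hev : ∀ t : ℝ, m.ev (x0 + t • ((m.a, m.b) : P2)) = t * (m.a * m.a + m.b * m.b) := by
    intro t
    rw [eb_ev_add, h0, zero_add]
    simp only [Ln.lin, Prod.smul_fst, Prod.smul_snd, smul_eq_mul]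
    ring
  constructor
  · refine ⟨_, h2 (y := e / 2) ?_, ?_⟩
    · rw [Real.dist_eq, sub_zero, abs_of_pos (half_pos he)]
      exact half_lt_self he
    · rw [hev]
      exact mul_pos (half_pos he) (eb_sq m)
  · refine ⟨_, h2 (y := -(e / 2)) ?_, ?_⟩
    · rw [Real.dist_eq, sub_zero, abs_neg, abs_of_pos (half_pos he)]
      exact half_lt_self he
    · rw [hev]
      have := mul_pos (half_pos he) (eb_sq m)
      linarith

private theorem eb_inv {M N : L3} (h : ∀ v : P2, M.lin v = 0 → N.lin v = 0 → v = 0) :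
    ∃ M1 N1 : L3, ∀ y : P2, y = (M1.ev (M.ev y, N.ev y), N1.ev (M.ev y, N.ev y)) := by
  have hD : M.a * N.b - M.b * N.a ≠ 0 := by
    intro hD
    have k1 : ((-M.b, M.a) : P2) = 0 := by
      refine h _ ?_ ?_
      · simp only [L3.lin]
        ring
      · simp only [L3.lin]
        linear_combination hD
    have k2 : ((-N.b, N.a) : P2) = 0 := by
      refine h _ ?_ ?_
      · simp only [L3.lin]
        linear_combination -hD
      · simp only [L3.lin]
        ring
    have r2 : M.a = 0 := congrArg Prod.snd k1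
    have r4 : N.a = 0 := congrArg Prod.snd k2
    have k3 : ((1, 0) : P2) = 0 := by
      refine h _ ?_ ?_
      · simp [L3.lin, r2]
      · simp [L3.lin, r4]
    have : (1 : ℝ) = 0 := congrArg Prod.fst k3
    norm_num at this
  obtain ⟨k, hk⟩ : ∃ k : ℝ, k * (M.a * N.b - M.b * N.a) = 1 := ⟨_, inv_mul_cancel₀ hD⟩
  refine ⟨⟨k * N.b, -(k * M.b), k * (M.b * N.c - N.b * M.c)⟩,
    ⟨-(k * N.a), k * M.a, k * (N.a * M.c - M.a * N.c)⟩, fun y => ?_⟩
  refine Prod.ext ?_ ?_
  · simp only [L3.ev]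
    linear_combination (-y.1) * hk
  · simp only [L3.ev]
    linear_combination (-y.2) * hk

private theorem eb_ph {a b : FGr} (ha : a ∈ Gf) (hb : b ∈ Gf) {V : Set P2} (hV : IsOpen V)
    (hc : Convex ℝ V) {x0 : P2} (hx0 : x0 ∈ V) (hba : ∀ y ∈ V, b.g y = a.g y)
    (h0 : b.ph x0 = a.ph x0) : ∀ y ∈ V, b.ph y = a.ph y := by
  have hbi : ∀ y ∈ V, b.g⁻¹ (a.g y) = y := fun y hy => by
    rw [Equiv.Perm.inv_eq_iff_eq, hba y hy]
  have hd : b⁻¹ * a ∈ Gf := Gf.mul_mem (Gf.inv_mem hb) ha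
  have hdg : ∀ y ∈ V, (b⁻¹ * a).g y = y := fun y hy => hbi y hy
  have hdph : ∀ y ∈ V, (b⁻¹ * a).ph y = (b.ph y)⁻¹ * a.ph y := by
    intro y hy
    rw [FGr.mul_ph, FGr.inv_ph, hbi y hy]
  have hd0 : (b⁻¹ * a).ph x0 = 1 := by
    rw [hdph x0 hx0, h0, inv_mul_cancel]
  intro y hy
  have h3 := ph_one_of_id hd hV hc hdg hx0 hd0 y hy
  rw [hdph y hy, inv_mul_eq_one] at h3
  exact h3

/-- the affine map of a cell is valid at `x0` -/
private theorem eb_x0 {a : FGr} (ha : a ∈ Gf) {V : Set P2} (hc : Convex ℝ V) {m : Ln} {x0 : P2}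
    (hx0 : x0 ∈ V) (h0 : m.ev x0 = 0) {x : P2} (hx : x ∈ V) {M N : L3}
    (hMN : ∀ y ∈ cell V {m} x, a.g y = (M.ev y, N.ev y)) : a.g x0 = (M.ev x0, N.ev x0) := by
  have hcont : Continuous a.g := ha.1.1.cont
  have hM : ∀ l : L3, Continuous l.ev := by
    intro l
    unfold L3.ev
    fun_prop
  have key : ∀ s : ℝ, 0 < s → s ≤ 1 → x0 + s • (x - x0) ∈ cell V {m} x := by
    intro s hs0 hs1
    refine ⟨?_, ?_⟩
    · have := hc hx0 hx (sub_nonneg.2 hs1) hs0.le (by ring)
      have e : x0 + s • (x - x0) = (1 - s) • x0 + s • x := by module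
      rw [e]
      exact this
    · rw [eb_same, eb_ev_add, h0, zero_add, Ln.lin_smul, ← Ln.ev_sub, h0, sub_zero, sign_mul,
        sign_pos hs0, one_mul]
  have hD : Continuous (fun s : ℝ => a.g (x0 + s • (x - x0)) -
      ((M.ev (x0 + s • (x - x0)), N.ev (x0 + s • (x - x0))) : P2)) := by
    have hl : Continuous (fun s : ℝ => x0 + s • (x - x0)) := by fun_prop
    exact (hcont.comp hl).sub (((hM M).comp hl).prodMk ((hM N).comp hl))
  have h0' : (0 : ℝ) ∈ closure (Set.Ioc (0 : ℝ) 1) := by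
    rw [closure_Ioc zero_ne_one]
    exact ⟨le_rfl, zero_le_one⟩
  have hcl : IsClosed {s : ℝ | a.g (x0 + s • (x - x0)) -
      ((M.ev (x0 + s • (x - x0)), N.ev (x0 + s • (x - x0))) : P2) = 0} :=
    isClosed_eq hD continuous_const
  have h3 := hcl.closure_subset_iff.2 (fun s hs => by
    have := hMN _ (key s hs.1 hs.2)
    change a.g (x0 + s • (x - x0)) - _ = 0
    rw [this, sub_self]) h0'
  have h4 : a.g (x0 + (0 : ℝ) • (x - x0)) -
      ((M.ev (x0 + (0 : ℝ) • (x - x0)), N.ev (x0 + (0 : ℝ) • (x - x0))) : P2) = 0 := h3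
  rw [zero_smul, add_zero] at h4
  exact sub_eq_zero.1 h4

private theorem eb_core {a : FGr} (ha : a ∈ Gf) {V : Set P2} (ho : IsOpen V) (hc : Convex ℝ V)
    {m : Ln} {x0 : P2} (hx0 : x0 ∈ V) (h0 : m.ev x0 = 0)
    (hb : ∀ x ∈ V, ∃ M N : L3, ∀ y ∈ cell V {m} x, a.g y = (M.ev y, N.ev y)) :
    ∃ (L : Ln) (b : FGr) (M N M' N' : L3), b ∈ Gf ∧
      (∀ y, 0 ≤ m.ev y → b.g y = (M.ev y, N.ev y)) ∧
      (∀ y, m.ev y ≤ 0 → b.g y = (M'.ev y, N'.ev y)) ∧
      (∀ y, SignType.sign (L.ev (b.g y)) = SignType.sign (m.ev y)) ∧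
      ∀ y ∈ V, b.g y = a.g y ∧ b.ph y = a.ph y := by
  obtain ⟨ε, hε, hexp⟩ := Gf_exp ha x0
  obtain ⟨δ, hδ, hball⟩ := Metric.isOpen_iff.1 ho x0 hx0
  set F : ↥Ft := a.ph x0 with hF
  -- the angle of the line
  have hv : ((m.b, -m.a) : P2) ≠ 0 := by
    intro h
    have h1 : m.b = 0 := congrArg Prod.fst h
    have h2 : m.a = 0 := neg_eq_zero.1 (congrArg Prod.snd h)
    rcases m.ne with h3 | h3
    · exact h3 h2
    · exact h3 h1
  obtain ⟨ρ, θ0, hρ, -, -, hθ0⟩ := exists_dir _ hv 0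
  have hmb : m.b = ρ * Real.cos θ0 := congrArg Prod.fst hθ0
  have hma : -m.a = ρ * Real.sin θ0 := congrArg Prod.snd hθ0
  have hlin : ∀ θ, m.lin (dir θ) = ρ * Real.sin (θ - θ0) := by
    intro θ
    rw [Real.sin_sub]
    unfold Ln.lin dir
    dsimp only
    linear_combination Real.sin θ * hmb - Real.cos θ * hma
  have hev : ∀ t θ, m.ev (x0 + t • dir θ) = t * (ρ * Real.sin (θ - θ0)) := by
    intro t θ
    rw [eb_ev_add, h0, zero_add, Ln.lin_smul, hlin]
  -- small points
  have hsmall : ∀ θ t : ℝ, 0 < t → t ≤ δ / 2 → x0 + t • dir θ ∈ V := by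
    intro θ t ht ht2
    apply hball
    rw [Metric.mem_ball, dist_eq_norm, add_sub_cancel_left, norm_smul, Real.norm_of_nonneg ht.le]
    have := mul_le_mul_of_nonneg_left (dir_norm_le θ) ht.le
    linarith
  -- (b)
  have hray : ∀ θ t : ℝ, 0 ≤ t → x0 + t • dir θ ∈ V → a.g (x0 + t • dir θ) = a.g x0 + t • vec F.1 θ := by
    intro θ t ht hmem
    rcases ht.eq_or_lt with rfl | ht
    · rw [zero_smul, zero_smul, add_zero, add_zero]
    obtain ⟨M, N, hMN⟩ := hb _ hmem
    have e0 := eb_x0 ha hc hx0 h0 hmem hMN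
    let s : ℝ := min 1 (ε / t)
    have hs0 : 0 < s := lt_min one_pos (div_pos hε ht)
    have hs1 : s ≤ 1 := min_le_left _ _
    have hst : s * t ≤ ε := by
      have : s ≤ ε / t := min_le_right _ _
      calc s * t ≤ ε / t * t := mul_le_mul_of_nonneg_right this ht.le
        _ = ε := div_mul_cancel₀ _ ht.ne'
    have hcell : x0 + (s * t) • dir θ ∈ cell V {m} (x0 + t • dir θ) := by
      refine ⟨?_, ?_⟩
      · have := hc hx0 hmem (sub_nonneg.2 hs1) hs0.le (by ring)
        have e : x0 + (s * t) • dir θ = (1 - s) • x0 + s • (x0 + t • dir θ) := by module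
        rw [e]
        exact this
      · rw [eb_same, hev, hev, mul_assoc s t, sign_mul s, sign_pos hs0, one_mul]
    have e1 := hMN _ hcell
    have e2 := hMN _ ⟨hmem, Same.refl _ _⟩
    have e3 := hexp θ (s * t) (mul_pos hs0 ht).le hst
    have e4 : a.g (x0 + (s * t) • dir θ) = a.g x0 + s • (a.g (x0 + t • dir θ) - a.g x0) := by
      rw [e1, e2, e0]
      refine Prod.ext ?_ ?_
      · change M.ev (x0 + (s * t) • dir θ) = M.ev x0 + s * (M.ev (x0 + t • dir θ) - M.ev x0)
        rw [eb_L3_add, eb_L3_add, L3.lin_smul, L3.lin_smul]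
        ring
      · change N.ev (x0 + (s * t) • dir θ) = N.ev x0 + s * (N.ev (x0 + t • dir θ) - N.ev x0)
        rw [eb_L3_add, eb_L3_add, L3.lin_smul, L3.lin_smul]
        ring
    rw [e4] at e3
    have e5 := add_left_cancel e3
    rw [mul_smul] at e5
    have e6 := smul_right_injective P2 hs0.ne' e5
    rw [← e6]
    abel
  -- the two sides
  obtain ⟨⟨xp, hxp, hxp0⟩, xn, hxn, hxn0⟩ := eb_side ho hx0 h0
  obtain ⟨M, N, hMN⟩ := hb xp hxp
  obtain ⟨M', N', hMN'⟩ := hb xn hxn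
  have e0 := eb_x0 ha hc hx0 h0 hxp hMN
  have e0' := eb_x0 ha hc hx0 h0 hxn hMN'
  have hlinc : ∀ l : L3, Continuous (fun θ => l.lin (dir θ)) := by
    intro l
    unfold L3.lin dir
    fun_prop
  have hc1 : ∀ θ ∈ Set.Icc θ0 (θ0 + Real.pi), vec F.1 θ = (M.lin (dir θ), N.lin (dir θ)) := by
    have hop : ∀ θ ∈ Set.Ioo θ0 (θ0 + Real.pi), vec F.1 θ = (M.lin (dir θ), N.lin (dir θ)) := by
      intro θ hθ
      have hsin : 0 < Real.sin (θ - θ0) :=
        Real.sin_pos_of_pos_of_lt_pi (by linarith [hθ.1]) (by linarith [hθ.2])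
      have ht : (0 : ℝ) < δ / 2 := half_pos hδ
      have hmem := hsmall θ (δ / 2) ht le_rfl
      have hcell : x0 + (δ / 2) • dir θ ∈ cell V {m} xp := by
        refine ⟨hmem, ?_⟩
        rw [eb_same, sign_pos hxp0, hev, sign_pos (mul_pos ht (mul_pos hρ hsin))]
      have e1 := hMN _ hcell
      have e2 := hray θ (δ / 2) ht.le hmem
      rw [e1, e0] at e2
      have q1 : M.ev (x0 + (δ / 2) • dir θ) = M.ev x0 + (δ / 2) * (vec F.1 θ).1 :=
        congrArg Prod.fst e2
      have q2 : N.ev (x0 + (δ / 2) • dir θ) = N.ev x0 + (δ / 2) * (vec F.1 θ).2 :=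
        congrArg Prod.snd e2
      rw [eb_L3_add, L3.lin_smul] at q1 q2
      refine Prod.ext ?_ ?_
      · exact (mul_left_cancel₀ ht.ne' (add_left_cancel q1)).symm
      · exact (mul_left_cancel₀ ht.ne' (add_left_cancel q2)).symm
    intro θ hθ
    have hcl : IsClosed {θ | vec F.1 θ = (M.lin (dir θ), N.lin (dir θ))} :=
      isClosed_eq (vec_cont F.1) ((hlinc M).prodMk (hlinc N))
    have h3 := hcl.closure_subset_iff.2 (fun θ hθ => hop θ hθ)
    rw [closure_Ioo (by linarith [Real.pi_pos])] at h3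
    exact h3 hθ
  have hc2 : ∀ θ ∈ Set.Icc (θ0 - Real.pi) θ0, vec F.1 θ = (M'.lin (dir θ), N'.lin (dir θ)) := by
    have hop : ∀ θ ∈ Set.Ioo (θ0 - Real.pi) θ0,
        vec F.1 θ = (M'.lin (dir θ), N'.lin (dir θ)) := by
      intro θ hθ
      have hsin : Real.sin (θ - θ0) < 0 :=
        Real.sin_neg_of_neg_of_neg_pi_lt (by linarith [hθ.2]) (by linarith [hθ.1])
      have ht : (0 : ℝ) < δ / 2 := half_pos hδ
      have hmem := hsmall θ (δ / 2) ht le_rfl
      have hcell : x0 + (δ / 2) • dir θ ∈ cell V {m} xn := by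
        refine ⟨hmem, ?_⟩
        rw [eb_same, sign_neg hxn0, hev,
          sign_neg (mul_neg_of_pos_of_neg ht (mul_neg_of_pos_of_neg hρ hsin))]
      have e1 := hMN' _ hcell
      have e2 := hray θ (δ / 2) ht.le hmem
      rw [e1, e0'] at e2
      have q1 : M'.ev (x0 + (δ / 2) • dir θ) = M'.ev x0 + (δ / 2) * (vec F.1 θ).1 :=
        congrArg Prod.fst e2
      have q2 : N'.ev (x0 + (δ / 2) • dir θ) = N'.ev x0 + (δ / 2) * (vec F.1 θ).2 :=
        congrArg Prod.snd e2
      rw [eb_L3_add, L3.lin_smul] at q1 q2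
      refine Prod.ext ?_ ?_
      · exact (mul_left_cancel₀ ht.ne' (add_left_cancel q1)).symm
      · exact (mul_left_cancel₀ ht.ne' (add_left_cancel q2)).symm
    intro θ hθ
    have hcl : IsClosed {θ | vec F.1 θ = (M'.lin (dir θ), N'.lin (dir θ))} :=
      isClosed_eq (vec_cont F.1) ((hlinc M').prodMk (hlinc N'))
    have h3 := hcl.closure_subset_iff.2 (fun θ hθ => hop θ hθ)
    rw [closure_Ioo (by linarith [Real.pi_pos])] at h3
    exact h3 hθ
  -- (d)
  let b : FGr := trl (a.g x0) * hf F * trl (-x0)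
  have hbG : b ∈ Gf := Gf.mul_mem (Gf.mul_mem (trl_mem _) (hf_mem F).1) (trl_mem _)
  have hbray : ∀ θ t : ℝ, 0 ≤ t → b.g (x0 + t • dir θ) = a.g x0 + t • vec F.1 θ := by
    intro θ t ht
    change (hf F).g (x0 + t • dir θ + -x0) + a.g x0 = _
    have e : x0 + t • dir θ + -x0 = t • dir θ := by abel
    rw [e, hf_g F θ t ht, add_comm]
  have hbph : b.ph x0 = F := by
    change (trl (a.g x0) * hf F).ph ((trl (-x0)).g x0) * (trl (-x0)).ph x0 = F
    rw [trl_g, trl_ph, add_neg_cancel, mul_one, FGr.mul_ph, trl_ph, one_mul, hf_ph]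
  have hpolar : ∀ (y : P2) (α : ℝ), ∃ t θ : ℝ, 0 ≤ t ∧ α ≤ θ ∧ θ < α + 2 * Real.pi ∧
      y = x0 + t • dir θ ∧ (t = 0 → y = x0) ∧ (y ≠ x0 → 0 < t) := by
    intro y α
    by_cases hy : y = x0
    · refine ⟨0, α, le_rfl, le_rfl, by linarith [Real.pi_pos], ?_, fun _ => hy,
        fun h => absurd hy h⟩
      rw [zero_smul, add_zero, hy]
    · obtain ⟨t, θ, ht, h1, h2, h3⟩ := exists_dir (y - x0) (sub_ne_zero.2 hy) α
      refine ⟨t, θ, ht.le, h1, h2, ?_, fun h => absurd h ht.ne', fun _ => ht⟩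
      rw [← h3]
      abel
  have hpos : ∀ y, 0 ≤ m.ev y → b.g y = (M.ev y, N.ev y) := by
    intro y hy
    by_cases hyx : y = x0
    · have := hbray 0 0 le_rfl
      rw [zero_smul, zero_smul, add_zero, add_zero] at this
      rw [hyx, this, e0]
    obtain ⟨t, θ, -, h1, h2, h3, -, h4⟩ := hpolar y θ0
    have ht := h4 hyx
    rw [h3, hev] at hy
    have hs : 0 ≤ Real.sin (θ - θ0) := by
      have := nonneg_of_mul_nonneg_right hy ht
      exact nonneg_of_mul_nonneg_right this hρ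
    have hθ : θ ≤ θ0 + Real.pi := by
      by_contra hcon
      rw [not_le] at hcon
      have h5 : 0 < Real.sin (2 * Real.pi - (θ - θ0)) :=
        Real.sin_pos_of_pos_of_lt_pi (by linarith) (by linarith)
      have e : Real.sin (2 * Real.pi - (θ - θ0)) = -Real.sin (θ - θ0) := by
        rw [Real.sin_two_pi_sub]
      linarith
    rw [h3, hbray θ t ht.le, hc1 θ ⟨h1, hθ⟩, e0, eb_L3_add, eb_L3_add, L3.lin_smul, L3.lin_smul]
    rfl
  have hneg : ∀ y, m.ev y ≤ 0 → b.g y = (M'.ev y, N'.ev y) := by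
    intro y hy
    by_cases hyx : y = x0
    · have := hbray 0 0 le_rfl
      rw [zero_smul, zero_smul, add_zero, add_zero] at this
      rw [hyx, this, e0']
    obtain ⟨t, θ, -, h1, h2, h3, -, h4⟩ := hpolar y (θ0 - Real.pi)
    have ht := h4 hyx
    rw [h3, hev] at hy
    have hs : Real.sin (θ - θ0) ≤ 0 := by
      by_contra hcon
      rw [not_le] at hcon
      have := mul_pos ht (mul_pos hρ hcon)
      linarith
    have hθ : θ ≤ θ0 := by
      by_contra hcon
      rw [not_le] at hcon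
      have h5 : 0 < Real.sin (θ - θ0) :=
        Real.sin_pos_of_pos_of_lt_pi (by linarith) (by linarith)
      linarith
    rw [h3, hbray θ t ht.le, hc2 θ ⟨h1, hθ⟩, e0', eb_L3_add, eb_L3_add, L3.lin_smul, L3.lin_smul]
    rfl
  have hba : ∀ y ∈ V, b.g y = a.g y := by
    intro y hy
    obtain ⟨t, θ, ht, -, -, h3, -, -⟩ := hpolar y 0
    rw [h3] at hy ⊢
    rw [hbray θ t ht, hray θ t ht hy]
  -- (e)
  have hF2 : ∀ s, F.1.f (s + 2 * Real.pi) = F.1.f s + 2 * Real.pi := fun s =>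
    congrArg Prod.fst (mem_Ft.1 F.2 s)
  have hpi := Real.pi_pos
  have hfp : F.1.f (θ0 + Real.pi) = F.1.f θ0 + Real.pi := by
    have h1 : vec F.1 (θ0 + Real.pi) = -vec F.1 θ0 := by
      rw [hc1 _ ⟨by linarith, le_rfl⟩, hc1 _ ⟨le_rfl, by linarith⟩, dir_pi]
      refine Prod.ext ?_ ?_
      · change M.lin (-dir θ0) = -M.lin (dir θ0)
        simp only [L3.lin, Prod.fst_neg, Prod.snd_neg]
        ring
      · change N.lin (-dir θ0) = -N.lin (dir θ0)
        simp only [L3.lin, Prod.fst_neg, Prod.snd_neg]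
        ring
    have h2 : F.1.r (θ0 + Real.pi) • dir (F.1.f (θ0 + Real.pi)) =
        F.1.r θ0 • dir (F.1.f θ0 + Real.pi) := by
      rw [dir_pi, smul_neg]
      exact h1
    obtain ⟨-, k, hk⟩ := smul_dir_inj (F.1.pos _) (F.1.pos _) h2
    have h3 : F.1.f θ0 < F.1.f (θ0 + Real.pi) := F.1.f.strictMono (by linarith)
    have h4 : F.1.f (θ0 + Real.pi) < F.1.f (θ0 + 2 * Real.pi) := F.1.f.strictMono (by linarith)
    rw [hF2] at h4
    have h5 : (-1 : ℝ) < k := by
      by_contra hcon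
      rw [not_lt] at hcon
      have := mul_le_mul_of_nonneg_right hcon (by linarith : (0 : ℝ) ≤ 2 * Real.pi)
      linarith
    have h6 : (k : ℝ) < 1 := by
      by_contra hcon
      rw [not_lt] at hcon
      have := mul_le_mul_of_nonneg_right hcon (by linarith : (0 : ℝ) ≤ 2 * Real.pi)
      linarith
    have h7 : k = 0 := by
      have h8 : (-1 : ℤ) < k := by exact_mod_cast h5
      have h9 : k < 1 := by exact_mod_cast h6
      omega
    rw [hk, h7]
    push_cast
    ring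
  have hfm : F.1.f (θ0 - Real.pi) = F.1.f θ0 - Real.pi := by
    have h1 := hF2 (θ0 - Real.pi)
    have e : θ0 - Real.pi + 2 * Real.pi = θ0 + Real.pi := by ring
    rw [e, hfp] at h1
    linarith
  have hne : -Real.sin (F.1.f θ0) ≠ 0 ∨ Real.cos (F.1.f θ0) ≠ 0 := by
    by_contra hcon
    rw [not_or, not_not, not_not] at hcon
    have h3 := Real.sin_sq_add_cos_sq (F.1.f θ0)
    rw [neg_eq_zero.1 hcon.1, hcon.2] at h3
    norm_num at h3
  let L : Ln := ⟨-Real.sin (F.1.f θ0), Real.cos (F.1.f θ0),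
    Real.sin (F.1.f θ0) * (a.g x0).1 - Real.cos (F.1.f θ0) * (a.g x0).2, hne⟩
  have hLev : ∀ t θ : ℝ, L.ev (a.g x0 + t • vec F.1 θ) =
      t * (F.1.r θ * Real.sin (F.1.f θ - F.1.f θ0)) := by
    intro t θ
    rw [Real.sin_sub]
    simp only [L, Ln.ev, vec, dir, Prod.fst_add, Prod.snd_add, Prod.smul_fst, Prod.smul_snd,
      smul_eq_mul]
    ring
  have hsign : ∀ y, SignType.sign (L.ev (b.g y)) = SignType.sign (m.ev y) := by
    intro y
    obtain ⟨t, θ, ht, h1, h2, h3, h4, h5⟩ := hpolar y (θ0 - Real.pi)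
    rw [h3, hbray θ t ht, hLev, hev]
    rcases ht.eq_or_lt with rfl | ht
    · rw [zero_mul, zero_mul]
    rw [sign_mul, sign_mul t, sign_mul, sign_mul ρ, sign_pos hρ, sign_pos (F.1.pos θ)]
    congr 2
    rcases h1.eq_or_lt with h6 | h6
    · rw [← h6, hfm]
      have q1 : F.1.f θ0 - Real.pi - F.1.f θ0 = -Real.pi := by ring
      have q2 : θ0 - Real.pi - θ0 = -Real.pi := by ring
      rw [q1, q2]
    rcases lt_trichotomy θ θ0 with h7 | h7 | h7
    · have k1 : F.1.f θ < F.1.f θ0 := F.1.f.strictMono h7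
      have k2 : F.1.f (θ0 - Real.pi) < F.1.f θ := F.1.f.strictMono h6
      rw [hfm] at k2
      rw [sign_neg (Real.sin_neg_of_neg_of_neg_pi_lt (by linarith) (by linarith)),
        sign_neg (Real.sin_neg_of_neg_of_neg_pi_lt (by linarith) (by linarith))]
    · rw [h7, sub_self, sub_self]
    · have k1 : F.1.f θ0 < F.1.f θ := F.1.f.strictMono h7
      have k2 : F.1.f θ < F.1.f (θ0 + Real.pi) := F.1.f.strictMono (by linarith)
      rw [hfp] at k2
      rw [sign_pos (Real.sin_pos_of_pos_of_lt_pi (by linarith) (by linarith)),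
        sign_pos (Real.sin_pos_of_pos_of_lt_pi (by linarith) (by linarith))]
  exact ⟨L, b, M, N, M', N', hbG, hpos, hneg, hsign, fun y hy =>
    ⟨hba y hy, eb_ph ha hbG ho hc hx0 hba hbph y hy⟩⟩

private theorem eb_bi {m L : Ln} {b : FGr} {M N M' N' : L3} (hb : b ∈ Gf) {x0 : P2}
    (h0 : m.ev x0 = 0) (hpos : ∀ y, 0 ≤ m.ev y → b.g y = (M.ev y, N.ev y))
    (hneg : ∀ y, m.ev y ≤ 0 → b.g y = (M'.ev y, N'.ev y))
    (hsign : ∀ y, SignType.sign (L.ev (b.g y)) = SignType.sign (m.ev y)) : Bi m L b := by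
  have hsign' : ∀ w, SignType.sign (m.ev (b.g⁻¹ w)) = SignType.sign (L.ev w) := by
    intro w
    have h : b.g (b.g⁻¹ w) = w := b.g.apply_symm_apply w
    rw [← hsign, h]
  have hnn : ∀ {r s : ℝ}, SignType.sign r = SignType.sign s → 0 ≤ r → 0 ≤ s := by
    intro r s h hr
    by_contra hcon
    rw [not_le] at hcon
    rw [sign_neg hcon, sign_eq_neg_one_iff] at h
    linarith
  have hnp : ∀ {r s : ℝ}, SignType.sign r = SignType.sign s → r ≤ 0 → s ≤ 0 := by
    intro r s h hr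
    by_contra hcon
    rw [not_le] at hcon
    rw [sign_pos hcon, sign_eq_one_iff] at h
    linarith
  have hj1 : ∀ v : P2, M.lin v = 0 → N.lin v = 0 → v = 0 := by
    have key : ∀ v : P2, M.lin v = 0 → N.lin v = 0 → 0 ≤ m.lin v → v = 0 := by
      intro v h1 h2 h3
      have h4 : b.g (x0 + v) = b.g x0 := by
        rw [hpos _ (by rw [eb_ev_add, h0, zero_add]; exact h3), hpos _ h0.ge, eb_L3_add,
          eb_L3_add, h1, h2, add_zero, add_zero]
      have h5 := b.g.injective h4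
      exact left_eq_add.1 h5.symm
    intro v h1 h2
    rcases le_total 0 (m.lin v) with h3 | h3
    · exact key v h1 h2 h3
    · have := key (-v) (by
        have : M.lin (-v) = -M.lin v := by
          simp only [L3.lin, Prod.fst_neg, Prod.snd_neg]
          ring
        rw [this, h1, neg_zero]) (by
        have : N.lin (-v) = -N.lin v := by
          simp only [L3.lin, Prod.fst_neg, Prod.snd_neg]
          ring
        rw [this, h2, neg_zero]) (by
        have : m.lin (-v) = -m.lin v := by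
          simp only [Ln.lin, Prod.fst_neg, Prod.snd_neg]
          ring
        rw [this]
        linarith)
      exact neg_eq_zero.1 this
  have hj2 : ∀ v : P2, M'.lin v = 0 → N'.lin v = 0 → v = 0 := by
    have key : ∀ v : P2, M'.lin v = 0 → N'.lin v = 0 → m.lin v ≤ 0 → v = 0 := by
      intro v h1 h2 h3
      have h4 : b.g (x0 + v) = b.g x0 := by
        rw [hneg _ (by rw [eb_ev_add, h0, zero_add]; exact h3), hneg _ h0.le, eb_L3_add,
          eb_L3_add, h1, h2, add_zero, add_zero]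
      have h5 := b.g.injective h4
      exact left_eq_add.1 h5.symm
    intro v h1 h2
    rcases le_total (m.lin v) 0 with h3 | h3
    · exact key v h1 h2 h3
    · have := key (-v) (by
        have : M'.lin (-v) = -M'.lin v := by
          simp only [L3.lin, Prod.fst_neg, Prod.snd_neg]
          ring
        rw [this, h1, neg_zero]) (by
        have : N'.lin (-v) = -N'.lin v := by
          simp only [L3.lin, Prod.fst_neg, Prod.snd_neg]
          ring
        rw [this, h2, neg_zero]) (by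
        have : m.lin (-v) = -m.lin v := by
          simp only [Ln.lin, Prod.fst_neg, Prod.snd_neg]
          ring
        rw [this]
        linarith)
      exact neg_eq_zero.1 this
  obtain ⟨M1, N1, hi1⟩ := eb_inv hj1
  obtain ⟨M2, N2, hi2⟩ := eb_inv hj2
  refine ⟨⟨hb, fun _ _ => trivial, ?_, ?_⟩, ⟨Gf.inv_mem hb, fun _ _ => trivial, ?_, ?_⟩, hsign⟩
  · intro x _ y _ h
    change Same {L} (b.g x) (b.g y)
    have h' : Same {m} x y := h
    rw [eb_same] at h' ⊢
    rw [hsign, hsign, h']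
  · intro x _
    rcases le_total 0 (m.ev x) with h | h
    · refine ⟨M, N, fun y hy => hpos y ?_⟩
      have h1 : Same {m} x y := hy.2
      rw [eb_same] at h1
      exact hnn h1 h
    · refine ⟨M', N', fun y hy => hneg y ?_⟩
      have h1 : Same {m} x y := hy.2
      rw [eb_same] at h1
      exact hnp h1 h
  · intro x _ y _ h
    change Same {m} (b.g⁻¹ x) (b.g⁻¹ y)
    have h' : Same {L} x y := h
    rw [eb_same] at h' ⊢
    rw [hsign', hsign', h']
  · intro x _
    rcases le_total 0 (L.ev x) with h | h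
    · refine ⟨M1, N1, fun w hw => ?_⟩
      have h1 : Same {L} x w := hw.2
      rw [eb_same] at h1
      have h2 : 0 ≤ m.ev (b.g⁻¹ w) := hnn (hsign' w).symm (hnn h1 h)
      have h3 := hi1 (b.g⁻¹ w)
      rw [← hpos _ h2] at h3
      have h4 : b.g (b.g⁻¹ w) = w := b.g.apply_symm_apply w
      have h5 : ((M.ev (b.g⁻¹ w), N.ev (b.g⁻¹ w)) : P2) = w := by rw [← hpos _ h2, h4]
      have h6 := hi1 (b.g⁻¹ w)
      rw [h5] at h6
      exact h6
    · refine ⟨M2, N2, fun w hw => ?_⟩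
      have h1 : Same {L} x w := hw.2
      rw [eb_same] at h1
      have h2 : m.ev (b.g⁻¹ w) ≤ 0 := hnp (hsign' w).symm (hnp h1 h)
      have h4 : b.g (b.g⁻¹ w) = w := b.g.apply_symm_apply w
      have h5 : ((M'.ev (b.g⁻¹ w), N'.ev (b.g⁻¹ w)) : P2) = w := by rw [← hneg _ h2, h4]
      have h6 := hi2 (b.g⁻¹ w)
      rw [h5] at h6
      exact h6

theorem Ln_prop {l l' : Ln} {x y : P2} (hne : x ≠ y) (h1 : l.ev x = 0) (h2 : l.ev y = 0)
    (h3 : l'.ev x = 0) (h4 : l'.ev y = 0) : ∃ κ : ℝ, κ ≠ 0 ∧ ∀ z, l'.ev z = κ * l.ev z := by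
  unfold Ln.ev at h1 h2 h3 h4
  have hdet : l.a * l'.b - l.b * l'.a = 0 := by
    by_contra hD
    have k1 : (y.1 - x.1) * (l.a * l'.b - l.b * l'.a) = 0 := by
      linear_combination l'.b * (h2 - h1) - l.b * (h4 - h3)
    have k2 : (y.2 - x.2) * (l.a * l'.b - l.b * l'.a) = 0 := by
      linear_combination l.a * (h4 - h3) - l'.a * (h2 - h1)
    have r1 := (mul_eq_zero.1 k1).resolve_right hD
    have r2 := (mul_eq_zero.1 k2).resolve_right hD
    exact hne (Prod.ext (sub_eq_zero.1 r1).symm (sub_eq_zero.1 r2).symm)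
  rcases l.ne with ha | hb
  · have hk : l'.a ≠ 0 := by
      intro h
      rw [h, mul_zero, sub_zero] at hdet
      have h5 := (mul_eq_zero.1 hdet).resolve_left ha
      rcases l'.ne with h6 | h6
      · exact h6 h
      · exact h6 h5
    refine ⟨l'.a / l.a, div_ne_zero hk ha, fun z => ?_⟩
    have e1 : l'.b = l'.a / l.a * l.b := by
      field_simp
      linear_combination hdet
    have e2 : l'.c = l'.a / l.a * l.c := by
      have q : l'.c = -(l'.a * x.1 + l'.b * x.2) := by linarith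
      have q' : l.c = -(l.a * x.1 + l.b * x.2) := by linarith
      rw [q, q', e1]
      field_simp
    unfold Ln.ev
    rw [e2, e1]
    field_simp
  · have hk : l'.b ≠ 0 := by
      intro h
      rw [h, mul_zero, zero_sub, neg_eq_zero] at hdet
      have h5 := (mul_eq_zero.1 hdet).resolve_left hb
      rcases l'.ne with h6 | h6
      · exact h6 h5
      · exact h6 h
    refine ⟨l'.b / l.b, div_ne_zero hk hb, fun z => ?_⟩
    have e1 : l'.a = l'.b / l.b * l.a := by
      field_simp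
      linear_combination -hdet
    have e2 : l'.c = l'.b / l.b * l.c := by
      have q : l'.c = -(l'.a * x.1 + l'.b * x.2) := by linarith
      have q' : l.c = -(l.a * x.1 + l.b * x.2) := by linarith
      rw [q, q', e1]
      field_simp
    unfold Ln.ev
    rw [e2, e1]
    field_simp

theorem ext_bi {a : FGr} (ha : a ∈ Gf) {V : Set P2} (hV : V ∈ gPLf.U) {m : Ln} {x0 : P2}
    (hx0 : x0 ∈ V) (h0 : m.ev x0 = 0)
    (hb : ∀ x ∈ V, ∃ M N : L3, ∀ y ∈ cell V {m} x, a.g y = (M.ev y, N.ev y)) :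
    ∃ (L : Ln) (b : FGr), Bi m L b ∧ ∀ y ∈ V, b.g y = a.g y ∧ b.ph y = a.ph y := by
  obtain ⟨L, b, M, N, M', N', h1, h2, h3, h4, h5⟩ := eb_core ha hV.1 hV.2.1 hx0 h0 hb
  exact ⟨L, b, eb_bi h1 h0 h2 h3 h4, h5⟩

theorem ext_biC {a : FGr} (ha : a ∈ Cnf) {V : Set P2} (hV : V ∈ gCnf.U) {m : Ln} (hm : m.c = 0)
    {x0 : P2} (hx0 : x0 ∈ V) (h0 : m.ev x0 = 0)
    (hb : ∀ x ∈ V, ∃ M N : L3, ∀ y ∈ cell V {m} x, a.g y = (M.ev y, N.ev y)) :
    ∃ (L : Ln) (b : FGr), Bi m L b ∧ b ∈ Cnf ∧ L.c = 0 ∧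
      ∀ y ∈ V, b.g y = a.g y ∧ b.ph y = a.ph y := by
  obtain ⟨ho, hc, -, hcone⟩ := hV
  obtain ⟨L, b, M, N, M', N', h1, h2, h3, h4, h5⟩ := eb_core ha.1 ho hc hx0 h0 hb
  have hmt : ∀ (t : ℝ) (y : P2), m.ev (t • y) = t * m.ev y := by
    intro t y
    simp only [Ln.ev, Prod.smul_fst, Prod.smul_snd, smul_eq_mul, hm]
    ring
  obtain ⟨⟨xp, hxp, hxp0⟩, xn, hxn, hxn0⟩ := eb_side ho hx0 h0
  have hzero : ∀ (l : L3) (y : P2), l.ev ((2 : ℝ) • y) = 2 * l.ev y → l.c = 0 := by
    intro l y h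
    simp only [L3.ev, Prod.smul_fst, Prod.smul_snd, smul_eq_mul] at h
    linarith
  have kp : ((M.ev ((2 : ℝ) • xp), N.ev ((2 : ℝ) • xp)) : P2) = (2 : ℝ) • (M.ev xp, N.ev xp) := by
    have q2 : 0 ≤ m.ev ((2 : ℝ) • xp) := by
      rw [hmt]
      linarith
    rw [← h2 _ q2, ← h2 _ hxp0.le, (h5 _ (hcone 2 xp two_pos hxp)).1, (h5 xp hxp).1]
    exact ha.2 2 xp two_pos
  have kn : ((M'.ev ((2 : ℝ) • xn), N'.ev ((2 : ℝ) • xn)) : P2) =
      (2 : ℝ) • (M'.ev xn, N'.ev xn) := by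
    have q2 : m.ev ((2 : ℝ) • xn) ≤ 0 := by
      rw [hmt]
      linarith
    rw [← h3 _ q2, ← h3 _ hxn0.le, (h5 _ (hcone 2 xn two_pos hxn)).1, (h5 xn hxn).1]
    exact ha.2 2 xn two_pos
  have c1 : M.c = 0 := hzero M xp (congrArg Prod.fst kp)
  have c2 : N.c = 0 := hzero N xp (congrArg Prod.snd kp)
  have c3 : M'.c = 0 := hzero M' xn (congrArg Prod.fst kn)
  have c4 : N'.c = 0 := hzero N' xn (congrArg Prod.snd kn)
  have hlt : ∀ (l : L3), l.c = 0 → ∀ (t : ℝ) (y : P2), l.ev (t • y) = t * l.ev y := by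
    intro l hl t y
    simp only [L3.ev, Prod.smul_fst, Prod.smul_snd, smul_eq_mul, hl]
    ring
  have hbC : b ∈ Cnf := by
    refine ⟨h1, fun t y ht => ?_⟩
    rcases le_total 0 (m.ev y) with h6 | h6
    · rw [h2 y h6, h2 (t • y) (by rw [hmt]; exact mul_nonneg ht.le h6), hlt M c1, hlt N c2]
      rfl
    · rw [h3 y h6, h3 (t • y) (by rw [hmt]; exact mul_nonpos_of_nonneg_of_nonpos ht.le h6),
        hlt M' c3, hlt N' c4]
      rfl
  refine ⟨L, b, eb_bi h1 h0 h2 h3 h4, hbC, ?_, h5⟩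
  have h6 := h4 0
  rw [Cnf_zero hbC] at h6
  have h7 : m.ev 0 = 0 := by simp [Ln.ev, hm]
  have h8 : L.ev 0 = L.c := by simp [Ln.ev]
  rw [h7, h8, sign_zero] at h6
  exact sign_eq_zero_iff.1 h6

theorem bi_uniq {b : FGr} {m L : Ln} (hb : Bi m L b) {V : Set P2} (hV : IsOpen V) {x0 : P2}
    (hx0 : x0 ∈ V) (h0 : m.ev x0 = 0) (h1 : ∀ x ∈ V, b.g x = x) (h2 : b.ph x0 = 1) : b = 1 := by
  obtain ⟨⟨hbG, -, -, haff⟩, -, -⟩ := hb
  obtain ⟨⟨xp, hxp, hxp0⟩, xn, hxn, hxn0⟩ := eb_side hV hx0 h0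
  have hmc : Continuous m.ev := m.cont
  have hcont : Continuous b.g := hbG.1.1.cont
  have hp : ∀ y, 0 < m.ev y → b.g y = y := by
    obtain ⟨M, N, hMN⟩ := haff xp trivial
    have hMN' : ∀ y, 0 < m.ev y → b.g y = (M.ev y, N.ev y) := by
      intro y hy
      refine hMN y ⟨trivial, ?_⟩
      change Same {m} xp y
      rw [eb_same, sign_pos hxp0, sign_pos hy]
    have hopen : IsOpen (V ∩ {y | 0 < m.ev y}) := hV.inter (isOpen_lt continuous_const hmc)
    have em : M = ⟨1, 0, 0⟩ := by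
      refine eb_L3_eq hopen (x0 := xp) ⟨hxp, hxp0⟩ fun x hx => ?_
      have h3 := (hMN' x hx.2).symm.trans (h1 x hx.1)
      have h4 : M.ev x = x.1 := congrArg Prod.fst h3
      rw [h4]
      simp [L3.ev]
    have en : N = ⟨0, 1, 0⟩ := by
      refine eb_L3_eq hopen (x0 := xp) ⟨hxp, hxp0⟩ fun x hx => ?_
      have h3 := (hMN' x hx.2).symm.trans (h1 x hx.1)
      have h4 : N.ev x = x.2 := congrArg Prod.snd h3
      rw [h4]
      simp [L3.ev]
    intro y hy
    rw [hMN' y hy, em, en]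
    simp [L3.ev]
  have hn : ∀ y, m.ev y < 0 → b.g y = y := by
    obtain ⟨M, N, hMN⟩ := haff xn trivial
    have hMN' : ∀ y, m.ev y < 0 → b.g y = (M.ev y, N.ev y) := by
      intro y hy
      refine hMN y ⟨trivial, ?_⟩
      change Same {m} xn y
      rw [eb_same, sign_neg hxn0, sign_neg hy]
    have hopen : IsOpen (V ∩ {y | m.ev y < 0}) := hV.inter (isOpen_lt hmc continuous_const)
    have em : M = ⟨1, 0, 0⟩ := by
      refine eb_L3_eq hopen (x0 := xn) ⟨hxn, hxn0⟩ fun x hx => ?_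
      have h3 := (hMN' x hx.2).symm.trans (h1 x hx.1)
      have h4 : M.ev x = x.1 := congrArg Prod.fst h3
      rw [h4]
      simp [L3.ev]
    have en : N = ⟨0, 1, 0⟩ := by
      refine eb_L3_eq hopen (x0 := xn) ⟨hxn, hxn0⟩ fun x hx => ?_
      have h3 := (hMN' x hx.2).symm.trans (h1 x hx.1)
      have h4 : N.ev x = x.2 := congrArg Prod.snd h3
      rw [h4]
      simp [L3.ev]
    intro y hy
    rw [hMN' y hy, em, en]
    simp [L3.ev]
  have hz : ∀ y, m.ev y = 0 → b.g y = y := by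
    intro y hy
    have hc1 : Continuous (fun t : ℝ => b.g (y + t • ((m.a, m.b) : P2)) -
        (y + t • ((m.a, m.b) : P2))) := by
      have hl : Continuous (fun t : ℝ => y + t • ((m.a, m.b) : P2)) := by fun_prop
      exact (hcont.comp hl).sub hl
    have hcl : IsClosed {t : ℝ | b.g (y + t • ((m.a, m.b) : P2)) -
        (y + t • ((m.a, m.b) : P2)) = 0} := isClosed_eq hc1 continuous_const
    have h0' : (0 : ℝ) ∈ closure (Set.Ioc (0 : ℝ) 1) := by
      rw [closure_Ioc zero_ne_one]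
      exact ⟨le_rfl, zero_le_one⟩
    have h3 := hcl.closure_subset_iff.2 (fun t ht => by
      change b.g (y + t • ((m.a, m.b) : P2)) - (y + t • ((m.a, m.b) : P2)) = 0
      rw [hp, sub_self]
      rw [eb_ev_add, hy, zero_add, Ln.lin_smul]
      exact mul_pos ht.1 (eb_sq m)) h0'
    have h4 : b.g (y + (0 : ℝ) • ((m.a, m.b) : P2)) - (y + (0 : ℝ) • ((m.a, m.b) : P2)) = 0 := h3
    rw [zero_smul, add_zero] at h4
    exact sub_eq_zero.1 h4
  have hid : ∀ y, b.g y = y := by
    intro y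
    rcases lt_trichotomy (m.ev y) 0 with h | h | h
    · exact hn y h
    · exact hz y h
    · exact hp y h
  refine FGr.ext (Equiv.ext fun x => hid x) (funext fun x => ?_)
  exact ph_one_of_id hbG isOpen_univ convex_univ (fun y _ => hid y) (x0 := x0) trivial h2 x trivial

end C715
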