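import Pool.Agent.Work.MP_c71557_gt.K.Defs3
import Pool.Agent.Work.MP_c71557_gt.K.ExtB

set_option autoImplicit false
set_option linter.unusedVariables false

/-!
# MP_c71557_gt, module K/ElEm: comparing two biaffine neighbourhoods of the same chord (M)

`a_i : ((V_i, {m_i}), c_i) → ((U, A), c)`, `i = 1, 2`, in `gPLf.S1.El`, `c_i` on `m_i`.  `V ⊆ V_1` open
convex with `a_1.g (V) ⊆ a_2.g (V_2)`.  CLAIM: `k = a_2⁻¹ a_1` is a cell map `(V, {m_1}) → (V_2, {m_2})`.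

PROOF.  Let `x_i ∈ chs c_i` (`m_i.ev x_i = 0`: `c_i` is a wall chord of `(V_i, {m_i})`, so `m_i` vanishes
at its points).  `ext_bi` for `a_i` on `V_i` (its cells are mapped affinely): `Bi m_i L_i b_i`,
`b_i = a_i` on `V_i`.  `L_i` vanishes on `a_i.g (chs c_i)` (sign relation), at least two points of the line
of `c` (`act a_i c_i = c`).  The points of `a_1.g (chs c_1)` and of `a_2.g (chs c_2)` lie on the line of the
chord `c`; so `L_1`, `L_2` vanish at all points of this line (an affine function vanishing at two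
points of a line), and `L_2.ev = κ * L_1.ev`, `κ ≠ 0` (`Ln_prop`).
For `y, y' ∈ V` with `sign (m_1 y) = sign (m_1 y')`: `sign (L_1 (a_1 y)) = sign (L_1 (a_1 y'))`, so
`sign (L_2 (a_1 y)) = sign (L_2 (a_1 y'))` (multiply by `sign κ`), and with `a_1 y = a_2 z`, `z = k y ∈ V_2`,
`a_1 y' = a_2 z'`: `sign (L_2 (a_2 z)) = sign (m_2 z)`; so `sign (m_2 z) = sign (m_2 z')`.
Affine: `k = b_2⁻¹ b_1` on `V` (`a_1 y = b_1 y`, and `b_2 (k y) = a_2 (k y) = a_1 y`); `b_1` is affine on the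
cells of `{m_1}` and maps them to cells of `{L_1}`, which are cells of `{L_2}`; `b_2⁻¹` is affine on those
(`L3.ev_sub`).
-/

noncomputable section

namespace C715

open Ang CategoryTheory

/-- Bi germ of an arrow at the chord -/
private theorem cmp_one {a : gPLf.S1.El.Ob} (h : PE a) {b : gPLf.S1.El.Ob} {g : FGr}
    (hg : gPLf.S1.El.Adm a g b) : ∃ (m L : Ln) (d : FGr) (x y : P2) (hx : x ∈ a.1.1.1)
      (hy : y ∈ a.1.1.1) (hne : x ≠ y) (e : Same a.1.1.2 x y), a.1.1.2 = {m} ∧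
      a.2 = c1 x y hx hy hne e ∧ Bi m L d ∧ (∀ y ∈ a.1.1.1, d.g y = g.g y) ∧
      L.ev (g.g x) = 0 ∧ L.ev (g.g y) = 0 := by
  obtain ⟨⟨⟨⟨V, A⟩, hV, hA⟩, c⟩, rfl⟩ : ∃ a', a' = a := ⟨a, rfl⟩
  obtain ⟨⟨m, hm⟩, hc⟩ := h
  change A = {m} at hm
  subst hm
  obtain ⟨hg, -⟩ := hg
  change ¬ (c ∈ NW V {m}) at hc
  induction c using c1_ind with
  | h x y hx hy hne e =>
    have h0 : m.ev x = 0 := by
      by_contra h0
      exact hc fun l hl => by
        rw [Finset.mem_singleton.1 hl]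
        exact h0
    have h0' : m.ev y = 0 := by
      have h2 := e m (Finset.mem_singleton_self _)
      rw [h0, sign_zero] at h2
      exact sign_eq_zero_iff.1 h2.symm
    obtain ⟨L, d, hd, hd'⟩ := ext_bi hg.1 hV hx h0 hg.2.2.2
    refine ⟨m, L, d, x, y, hx, hy, hne, e, rfl, rfl, hd, fun z hz => (hd' z hz).1, ?_, ?_⟩
    · have h3 := hd.2.2 x
      rw [h0, sign_zero, (hd' x hx).1] at h3
      exact sign_eq_zero_iff.1 h3
    · have h3 := hd.2.2 y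
      rw [h0', sign_zero, (hd' y hy).1] at h3
      exact sign_eq_zero_iff.1 h3

theorem cmp_cell {b : gPLf.S1.El.Ob} {a1 a2 : gPLf.S1.El.Ob} (h1 : PE a1) (h2 : PE a2) {g1 g2 : FGr}
    (hg1 : gPLf.S1.El.Adm a1 g1 b) (hg2 : gPLf.S1.El.Adm a2 g2 b) {V : Set P2} (hV : V ∈ gPLf.U)
    (hV1 : V ⊆ a1.1.1.1) (hV2 : ∀ y ∈ V, (g2⁻¹ * g1).g y ∈ a2.1.1.1) :
    CellMap V a1.1.1.2 (g2⁻¹ * g1).g a2.1.1.2 := by
  obtain ⟨m1, L1, d1, x1, y1, hx1, hy1, hne1, e1, hm1, hc1, hd1, hd1', hL1, hL1'⟩ := cmp_one h1 hg1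
  obtain ⟨m2, L2, d2, x2, y2, hx2, hy2, hne2, e2, hm2, hc2, hd2, hd2', hL2, hL2'⟩ := cmp_one h2 hg2
  obtain ⟨hg1, hb1⟩ := hg1
  obtain ⟨hg2, hb2⟩ := hg2
  rw [hc1, FGeo.S1_act] at hb1
  rw [hc2, FGeo.S1_act, ← hb1] at hb2
  obtain ⟨-, ⟨s, hs⟩, t, ht, ht'⟩ := c1_eq.1 hb2.symm
  have k1 : L1.lin (g1.g y1 - g1.g x1) = 0 := by
    rw [← Ln.ev_sub, hL1, hL1', sub_zero]
  have k2 : L1.ev (g2.g x2) = 0 := by
    have h3 := L1.ev_sub (g1.g x1) (g2.g x2)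
    rw [hs, Ln.lin_smul, k1, mul_zero, hL1, sub_zero] at h3
    exact h3
  have k3 : L1.ev (g2.g y2) = 0 := by
    have h3 := L1.ev_sub (g2.g x2) (g2.g y2)
    rw [ht', Ln.lin_smul, k1, mul_zero, k2, sub_zero] at h3
    exact h3
  obtain ⟨κ, hκ, hκ'⟩ := Ln_prop (fun h => hne2 (g2.g.injective h)) k2 k3 hL2 hL2'
  rw [hm1, hm2]
  have hk : ∀ y ∈ V, d2.g ((g2⁻¹ * g1).g y) = g1.g y := by
    intro y hy
    rw [hd2' _ (hV2 y hy)]
    exact g2.g.apply_symm_apply (g1.g y)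
  refine ⟨?_, ?_⟩
  · intro x hx y hy e l hl
    rw [Finset.mem_singleton.1 hl, ← hd2.2.2, ← hd2.2.2, hk x hx, hk y hy, hκ', hκ', sign_mul,
      sign_mul, ← hd1' x (hV1 hx), ← hd1' y (hV1 hy), hd1.2.2, hd1.2.2,
      e m1 (Finset.mem_singleton_self _)]
  · intro x hx
    have u1 : gPLf.Str.Adm (uP {L1}) 1 (uP {L2}) := by
      refine ⟨Gf.one_mem, fun _ _ => trivial, ?_, (gPLf.Str.one (uP {L1})).2.2.2⟩
      intro z _ w _ e l hl
      change SignType.sign (l.ev z) = SignType.sign (l.ev w)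
      rw [Finset.mem_singleton.1 hl, hκ', hκ', sign_mul, sign_mul,
        e L1 (Finset.mem_singleton_self _)]
    have u2 := gPLf.Str.mul (gPLf.Str.mul hd1.1 u1) hd2.2.1
    obtain ⟨m, n, h5⟩ := u2.2.2.2 x trivial
    refine ⟨m, n, fun y hy => ?_⟩
    have h6 := h5 y ⟨trivial, hy.2⟩
    have hyV : y ∈ V := hy.1
    rw [← h6, one_mul]
    change _ = d2⁻¹.g (d1.g y)
    rw [hd1' y (hV1 hyV), ← hk y hyV, FGr.inv_apply]

end C715
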