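import Pool.Agent.Work.MP_c71557_gt.K.ElEm
import Pool.Agent.Work.MP_c71557_gt.H.RelAcy

set_option autoImplicit false
set_option linter.unusedVariables false

/-!
# MP_c71557_gt, module K/ElEo: neighbourhoods of a chord, piecewise linear geometry (L)

`gPLf.S1.El.restrIncl PE` is (by definition) `idFun` of `fun a => a.1`; `quillenA_over` with
`acy_over_rel` at `b = ((U, A), c)`.  `S` = the compact convex nonempty subsets `K` of `chs c`,
`r K a g` : `K ⊆ g.g '' chs a.1.2`.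
-/

noncomputable section

namespace C715

open Ang CategoryTheory
open scoped Topology

private theorem act_eq_of (𝔾 : FGeo) {p q : 𝔾.Str.Ob} {a a' : FGr} (h : 𝔾.Str.Adm p a q)
    (h' : 𝔾.Str.Adm p a' q) (e : a = a') (c : 𝔾.S1.X p) : 𝔾.S1.act h c = 𝔾.S1.act h' c := by
  subst e
  rfl

private theorem chs_sub' {U : Set P2} {A : Finset Ln} (c : S1T U A) {z : P2} (hz : z ∈ chs c) :
    z ∈ U := by
  induction c using c1_ind with
  | h x y hx hy hne e => exact (mem_chs.1 hz).1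

private theorem chs_same {U : Set P2} {A : Finset Ln} (c : S1T U A) {z w : P2} (hz : z ∈ chs c)
    (hw : w ∈ chs c) : Same A z w := by
  induction c using c1_ind with
  | h x y hx hy hne e => exact ((mem_chs.1 hz).2.1.symm).trans (mem_chs.1 hw).2.1

/-- a chord through two close points -/
private theorem exists_q {U : Set P2} {A : Finset Ln} (hU : IsOpen U) (c : S1T U A) {p : P2}
    (hp : p ∈ chs c) {V : Set P2} (hV : IsOpen V) (hpV : p ∈ V) :
    ∃ q : P2, q ∈ V ∧ q ∈ chs c ∧ ∃ (hpU : p ∈ U) (hqU : q ∈ U) (hne : p ≠ q) (hs : Same A p q),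
      c = c1 p q hpU hqU hne hs := by
  obtain ⟨m, W, hW, hWU, hcW, hm, hmW, -, -⟩ := chs_nbhd hU A c
  induction c using c1_ind with
  | h x y hx hy hne e =>
    have hpW := hcW hp
    obtain ⟨hpU, hxp, s, hs⟩ := mem_chs.1 hp
    have hxc : x ∈ chs (c1 x y hx hy hne e) := mem_chs.2 ⟨hx, Same.refl _ _, 0, by
      rw [sub_self, zero_smul]⟩
    have hyc : y ∈ chs (c1 x y hx hy hne e) := mem_chs.2 ⟨hy, e, 1, by rw [one_smul]⟩
    have hlin : m.lin (y - x) = 0 := by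
      rw [← Ln.ev_sub, hm x hxc, hm y hyc, sub_zero]
    have hcont : Continuous (fun t : ℝ => p + t • (y - x)) :=
      continuous_const.add (continuous_id.smul continuous_const)
    have h0 : Filter.Tendsto (fun t : ℝ => p + t • (y - x)) (𝓝 0) (𝓝 p) := by
      have := hcont.tendsto 0
      rwa [zero_smul, add_zero] at this
    have h1 : ∀ᶠ t in 𝓝 (0 : ℝ), p + t • (y - x) ∈ V ∩ W :=
      h0.eventually ((hV.inter hW).mem_nhds ⟨hpV, hpW⟩)
    obtain ⟨ε, hε, h2⟩ := Metric.eventually_nhds_iff.1 h1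
    have h3 := h2 (y := ε / 2) (by
      rw [Real.dist_eq, sub_zero, abs_of_pos (half_pos hε)]
      exact half_lt_self hε)
    have ht : (0 : ℝ) < ε / 2 := half_pos hε
    generalize ε / 2 = t at h3 ht
    have hmq : m.ev (p + t • (y - x)) = 0 := by
      have h4 := Ln.ev_sub m p (p + t • (y - x))
      rw [add_sub_cancel_left, Ln.lin_smul, hlin, mul_zero, hm p hp, sub_zero] at h4
      exact h4
    have hpq : Same A p (p + t • (y - x)) := by
      refine hmW p hpW _ h3.2 ?_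
      intro l hl
      rw [Finset.mem_singleton.1 hl, hm p hp, hmq]
    have hqU : p + t • (y - x) ∈ U := hWU h3.2
    have hyx : y - x ≠ 0 := sub_ne_zero.2 (Ne.symm hne)
    have hne' : p ≠ p + t • (y - x) := by
      intro h
      have h5 : t • (y - x) = 0 := by
        have := congrArg (fun z => z - p) h
        simpa using this.symm
      rcases smul_eq_zero.1 h5 with h6 | h6
      · exact ht.ne' h6
      · exact hyx h6
    refine ⟨p + t • (y - x), h3.1, mem_chs.2 ⟨hqU, hxp.trans hpq, s + t, ?_⟩, hpU, hqU, hne', hpq,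
      c1_eq.2 ⟨hxp, ⟨s, hs⟩, t, ht, ?_⟩⟩
    · rw [add_smul, ← hs]
      abel
    · rw [add_sub_cancel_left]

/-- `act` is injective on chords with a common point -/
private theorem act_inj (𝔾 : FGeo) {p q : 𝔾.Str.Ob} {a : FGr} (h : 𝔾.Str.Adm p a q)
    {c c' : 𝔾.S1.X p} {z : P2} (hz : z ∈ chs c) (hz' : z ∈ chs c')
    (e : 𝔾.S1.act h c = 𝔾.S1.act h c') : c = c' := by
  have hU := 𝔾.hU _ p.2.1
  obtain ⟨w, -, hw, hzU, hwU, hne, hs, hc⟩ := exists_q hU.1 c hz hU.1 (chs_sub' c hz)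
  obtain ⟨w', -, hw', hzU', hwU', hne', hs', hc'⟩ := exists_q hU.1 c' hz' hU.1 (chs_sub' c' hz')
  rw [hc, hc'] at e ⊢
  rw [𝔾.S1_act, 𝔾.S1_act] at e
  obtain ⟨-, -, t, ht, he⟩ := (c1_eq (U := q.1.1) (A := q.1.2)).1 e
  refine c1_eq.2 ⟨Same.refl _ _, ⟨0, by rw [sub_self, zero_smul]⟩, t, ht, ?_⟩
  rcases le_total t 1 with ht1 | ht1
  · have hu : z + t • (w - z) ∈ segment ℝ z w := by
      refine ⟨1 - t, t, by linarith, ht.le, by ring, ?_⟩
      module
    have h1 := 𝔾.adm_aff h hzU hwU hzU (hU.2.1.segment_subset hzU hwU hu) hs (Same.refl _ _)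
      (Same.seg hs hu) (s := t) (by rw [add_sub_cancel_left])
    rw [← he] at h1
    have h2 : a.g (z + t • (w - z)) = a.g w' := sub_left_injective h1
    have h3 := a.g.injective h2
    rw [← h3, add_sub_cancel_left]
  · have hu : z + t⁻¹ • (w' - z) ∈ segment ℝ z w' := by
      refine ⟨1 - t⁻¹, t⁻¹, ?_, (inv_pos.2 ht).le, by ring, ?_⟩
      · have := inv_le_one_of_one_le₀ ht1
        linarith
      · module
    have h1 := 𝔾.adm_aff h hzU hwU' hzU (hU.2.1.segment_subset hzU hwU' hu) hs' (Same.refl _ _)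
      (Same.seg hs' hu) (s := t⁻¹) (by rw [add_sub_cancel_left])
    rw [he, smul_smul, inv_mul_cancel₀ ht.ne', one_smul] at h1
    have h2 : a.g (z + t⁻¹ • (w' - z)) = a.g w := sub_left_injective h1
    have h3 := a.g.injective h2
    rw [← h3, add_sub_cancel_left, smul_smul, mul_inv_cancel₀ ht.ne', one_smul]

/-- compact convex nonempty subsets of a chord -/
private abbrev KS {U : Set P2} {A : Finset Ln} (c : S1T U A) : Type :=
  {K : Set P2 // IsCompact K ∧ Convex ℝ K ∧ K.Nonempty ∧ K ⊆ chs c}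

private theorem hull_compact {s t : Set P2} (hs : IsCompact s) (ht : IsCompact t)
    (hsc : Convex ℝ s) (htc : Convex ℝ t) (hsn : s.Nonempty) (htn : t.Nonempty) :
    IsCompact (convexHull ℝ (s ∪ t)) := by
  rw [hsc.convexHull_union htc hsn htn]
  have h1 : convexJoin ℝ s t =
      (fun z : P2 × P2 × ℝ => (1 - z.2.2) • z.1 + z.2.2 • z.2.1) '' (s ×ˢ t ×ˢ Set.Icc 0 1) := by
    ext z
    rw [mem_convexJoin]
    constructor
    · rintro ⟨a, ha, b, hb, hz⟩
      rw [segment_eq_image] at hz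
      obtain ⟨τ, hτ, rfl⟩ := hz
      exact ⟨(a, b, τ), ⟨ha, hb, hτ⟩, rfl⟩
    · rintro ⟨⟨a, b, τ⟩, ⟨ha, hb, hτ⟩, rfl⟩
      refine ⟨a, ha, b, hb, ?_⟩
      rw [segment_eq_image]
      exact ⟨τ, hτ, rfl⟩
  rw [h1]
  refine (hs.prod (ht.prod isCompact_Icc)).image ?_
  fun_prop

private theorem KS_dir {U : Set P2} {A : Finset Ln} (c : S1T U A) {C : Set P2} (hC : Convex ℝ C)
    (hCc : C ⊆ chs c) (s s' : KS c) (hs : s.1 ⊆ C) (hs' : s'.1 ⊆ C) :
    ∃ t : KS c, t.1 ⊆ C ∧ s ≤ t ∧ s' ≤ t := by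
  have h1 : convexHull ℝ (s.1 ∪ s'.1) ⊆ C := convexHull_min (Set.union_subset hs hs') hC
  refine ⟨⟨convexHull ℝ (s.1 ∪ s'.1), hull_compact s.2.1 s'.2.1 s.2.2.1 s'.2.2.1 s.2.2.2.1
    s'.2.2.2.1, convex_convexHull _ _, ?_, h1.trans hCc⟩, h1, ?_, ?_⟩
  · exact (s.2.2.2.1.inl.mono (subset_convexHull ℝ _))
  · exact (Set.subset_union_left).trans (subset_convexHull ℝ (s.1 ∪ s'.1))
  · exact (Set.subset_union_right).trans (subset_convexHull ℝ (s.1 ∪ s'.1))

theorem elEP_over : HIso (gPLf.S1.El.restrIncl PE) := by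
  refine quillenA_over _ fun b => ?_
  obtain ⟨b⟩ := b
  have hU := gPLf.hU _ b.1.2.1
  refine ActCat.acy_over_rel (A := gPLf.S1.El.restr PE) (A' := gPLf.S1.El) (fun a => a.1)
    (fun h => h) (fun h => h) b (fun _ _ _ _ _ _ _ _ h => h)
    (S := KS (U := b.1.1.1) (A := b.1.1.2) b.2) ?_ ?_
    (fun K a g => K.1 ⊆ g.g '' chs (U := a.1.1.1.1) (A := a.1.1.1.2) a.1.2) ?_ ?_ ?_ ?_
  · obtain ⟨z, hz⟩ := chs_ne (U := b.1.1.1) (A := b.1.1.2) b.2
    exact ⟨⟨{z}, isCompact_singleton, convex_singleton z, Set.singleton_nonempty z,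
      Set.singleton_subset_iff.2 hz⟩⟩
  · intro s s'
    obtain ⟨t, -, h1, h2⟩ := KS_dir (U := b.1.1.1) (A := b.1.1.2) b.2 (chs_conv hU.2.1 b.2)
      le_rfl s s' s.2.2.2.2 s'.2.2.2.2
    exact ⟨t, h1, h2⟩
  · intro K a g g' hg hg' hN hr z hz
    obtain ⟨w, hw, rfl⟩ := hr hz
    refine ⟨w, hw, ?_⟩
    have h1 : g.g⁻¹ (g'.g w) = w := (hN.2 w (chs_sub' _ hw)).1
    rw [Equiv.Perm.inv_eq_iff_eq] at h1
    exact h1
  · intro K K' a a' g' k hKK hg' hk hr z hz
    obtain ⟨w, hw, rfl⟩ := hr (hKK hz)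
    obtain ⟨hk1, hk2⟩ := hk
    have h1 := chs_act gPLf hk1 a.1.2 hw
    rw [hk2] at h1
    exact ⟨k.g w, h1, rfl⟩
  · intro a g hg
    obtain ⟨hg1, hg2⟩ := id hg
    have hUa := gPLf.hU _ a.1.1.2.1
    constructor
    · obtain ⟨w, hw⟩ := chs_ne (U := a.1.1.1.1) (A := a.1.1.1.2) a.1.2
      refine ⟨⟨{g.g w}, isCompact_singleton, convex_singleton _, Set.singleton_nonempty _,
        Set.singleton_subset_iff.2 ?_⟩, ?_⟩
      · have h1 := chs_act gPLf hg1 a.1.2 hw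
        rwa [hg2] at h1
      · intro z hz
        rw [Set.mem_singleton_iff.1 hz]
        exact ⟨w, hw, rfl⟩
    · intro s s' hs hs'
      have hC : Convex ℝ (g.g '' chs (U := a.1.1.1.1) (A := a.1.1.1.2) a.1.2) :=
        chs_img gPLf hg1 a.1.2 (chs_conv hUa.2.1 _) le_rfl
      have hCc : g.g '' chs (U := a.1.1.1.1) (A := a.1.1.1.2) a.1.2 ⊆
          chs (U := b.1.1.1) (A := b.1.1.2) b.2 := by
        rintro _ ⟨w, hw, rfl⟩
        have h1 := chs_act gPLf hg1 a.1.2 hw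
        rwa [hg2] at h1
      exact KS_dir (U := b.1.1.1) (A := b.1.1.2) b.2 hC hCc s s' hs hs'
  · rintro ⟨K, hKc, hKv, hKne, hKs⟩
    constructor
    · obtain ⟨m, W, hW, hWU, hcW, hm, hmW, -, -⟩ := chs_nbhd hU.1 b.1.1.2 b.2
      obtain ⟨V, hV, hKV, hVW⟩ := nbh_conv hKc hKv hKne hW (hKs.trans hcW)
      obtain ⟨p, hp⟩ := hKne
      obtain ⟨q, hqV, hqc, hpU, hqU, hne, hpq, hc⟩ := exists_q hU.1 b.2 (hKs hp) hV.1 (hKV hp)
      have hpq' : Same {m} p q := fun l hl => by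
        rw [Finset.mem_singleton.1 hl, hm p (hKs hp), hm q hqc]
      have hVU : V ⊆ b.1.1.1 := hVW.trans hWU
      refine ⟨⟨⟨⟨(V, {m}), hV, fun _ _ => trivial⟩, c1 p q (hKV hp) hqV hne hpq'⟩,
        ⟨⟨m, rfl⟩, ?_⟩⟩, 1, ⟨⟨Gf.one_mem, fun x hx => hVU hx, ?_, ?_⟩, ?_⟩, ?_⟩
      · intro h
        exact (show Gen {m} p from h) m (Finset.mem_singleton_self m) (hm p (hKs hp))
      · intro x hx y hy hxy
        exact hmW x (hVW hx) y (hVW hy) hxy
      · intro x hx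
        exact ⟨⟨1, 0, 0⟩, ⟨0, 1, 0⟩, fun y _ => by simp [L3.ev]⟩
      · exact hc.symm
      · intro z hz
        have hz1 := hKs hz
        rw [hc] at hz1
        obtain ⟨-, -, s, hs⟩ := mem_chs.1 hz1
        refine ⟨z, (mem_chs (A := {m}) (hx := hKV hp) (hy := hqV) (hne := hne) (h := hpq')).2
          ⟨hKV hz, ?_, s, hs⟩, rfl⟩
        intro l hl
        rw [Finset.mem_singleton.1 hl, hm p (hKs hp), hm z (hKs hz)]
    · rintro ⟨a1, hP1⟩ g1 ⟨a2, hP2⟩ g2 hg1 hg2 hr1 hr2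
      obtain ⟨hg1', e1⟩ := id hg1
      obtain ⟨hg2', e2⟩ := id hg2
      have hU1 := gPLf.hU _ a1.1.2.1
      have hU2 := gPLf.hU _ a2.1.2.1
      have hr1 : K ⊆ g1.g '' chs (U := a1.1.1.1) (A := a1.1.1.2) a1.2 := hr1
      have hr2 : K ⊆ g2.g '' chs (U := a2.1.1.1) (A := a2.1.1.2) a2.2 := hr2
      have hK1s : g1.g ⁻¹' K ⊆ chs (U := a1.1.1.1) (A := a1.1.1.2) a1.2 := by
        intro z hz
        obtain ⟨w, hw, h⟩ := hr1 hz
        rwa [← g1.g.injective h]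
      have hK2s : ∀ z ∈ g1.g ⁻¹' K,
          (g2⁻¹ * g1).g z ∈ chs (U := a2.1.1.1) (A := a2.1.1.2) a2.2 := by
        intro z hz
        obtain ⟨w, hw, h⟩ := hr2 hz
        have h1 : (g2⁻¹ * g1).g z = w := by
          change g2.g⁻¹ (g1.g z) = w
          rw [← h]
          exact g2.g.symm_apply_apply w
        rwa [h1]
      have hK1c : IsCompact (g1.g ⁻¹' K) := by
        have h1 : Continuous g1.g.symm := (Gf_PLH hg1'.1).2.cont
        have h2 := hKc.image h1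
        rwa [Equiv.image_symm_eq_preimage] at h2
      have hK1v : Convex ℝ (g1.g ⁻¹' K) := chs_pre gPLf hg1' a1.2 hKv hr1
      have hK1ne : (g1.g ⁻¹' K).Nonempty := by
        obtain ⟨z, hz⟩ := hKne
        refine ⟨g1.g.symm z, ?_⟩
        change g1.g (g1.g.symm z) ∈ K
        rwa [g1.g.apply_symm_apply]
      have hkG : g2⁻¹ * g1 ∈ Gf := Gf.mul_mem (Gf.inv_mem hg2'.1) hg1'.1
      have hkc : Continuous (g2⁻¹ * g1).g := (Gf_PLH hkG).1.cont
      obtain ⟨V, hV, hKV, hVW⟩ := nbh_conv hK1c hK1v hK1ne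
        (hU1.1.inter (hU2.1.preimage hkc)) (fun z hz =>
          ⟨chs_sub' (U := a1.1.1.1) (A := a1.1.1.2) a1.2 (hK1s hz),
            chs_sub' (U := a2.1.1.1) (A := a2.1.1.2) a2.2 (hK2s z hz)⟩)
      have hV1 : V ⊆ a1.1.1.1 := fun z hz => (hVW hz).1
      have hV2 : ∀ y ∈ V, (g2⁻¹ * g1).g y ∈ a2.1.1.1 := fun z hz => (hVW hz).2
      obtain ⟨p, hp⟩ := hK1ne
      obtain ⟨q, hqV, hqc, hpU, hqU, hne, hpq, hc⟩ :=
        exists_q hU1.1 a1.2 (hK1s hp) hV.1 (hKV hp)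
      have hcell := cmp_cell hP1 hP2 hg1 hg2 hV hV1 hV2
      let a3 : gPLf.S1.El.Ob :=
        ⟨⟨(V, a1.1.1.2), hV, fun _ _ => trivial⟩, c1 p q (hKV hp) hqV hne hpq⟩
      have hP3 : PE a3 := by
        refine ⟨hP1.1, fun h => hP1.2 ?_⟩
        rw [hc]
        exact (show Gen a1.1.1.2 p from h)
      have hk1 : gPLf.S1.El.Adm a3 1 a1 :=
        ⟨⟨Gf.one_mem, fun x hx => hV1 hx, fun _ _ _ _ h => h,
          fun x hx => ⟨⟨1, 0, 0⟩, ⟨0, 1, 0⟩, fun y _ => by simp [L3.ev]⟩⟩, hc.symm⟩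
      have hk2' : gPLf.Str.Adm a3.1 (g2⁻¹ * g1) a2.1 := ⟨hkG, hV2, hcell⟩
      have hg3' : gPLf.Str.Adm a3.1 g1 b.1 := by
        have := gPLf.Str.mul hk1.1 hg1'
        rwa [mul_one] at this
      have e3 : gPLf.S1.act hg3' a3.2 = b.2 := by
        rw [← e1, hc]
        rfl
      have hk2 : gPLf.S1.El.Adm a3 (g2⁻¹ * g1) a2 := by
        refine ⟨hk2', act_inj gPLf hg2' (z := (g2⁻¹ * g1).g p) ?_ (hK2s p hp) ?_⟩
        · refine chs_act gPLf hk2' a3.2 ?_
          exact (mem_chs (A := a1.1.1.2) (hx := hKV hp) (hy := hqV) (hne := hne) (h := hpq)).2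
            ⟨hKV hp, Same.refl _ _, 0, by rw [sub_self, zero_smul]⟩
        · rw [e2, ← e3]
          exact (gPLf.S1.act_mul hk2' hg2' a3.2).symm.trans
            (act_eq_of gPLf _ _ (mul_inv_cancel_left g2 g1) _)
      refine ⟨⟨a3, hP3⟩, g1, 1, g2⁻¹ * g1, ⟨hg3', e3⟩, ?_, hk1, hk2, ?_, ?_⟩
      · intro z hz
        have h1 : g1.g (g1.g.symm z) = z := g1.g.apply_symm_apply z
        have h2 : g1.g.symm z ∈ g1.g ⁻¹' K := by
          change g1.g (g1.g.symm z) ∈ K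
          rwa [h1]
        have h3 := hK1s h2
        rw [hc] at h3
        obtain ⟨-, h4, h5⟩ := mem_chs.1 h3
        exact ⟨g1.g.symm z, (mem_chs (A := a1.1.1.2) (hx := hKV hp) (hy := hqV) (hne := hne)
          (h := hpq)).2 ⟨hKV h2, h4, h5⟩, h1⟩
      · have h1 : (g1 * 1)⁻¹ * g1 = 1 := by group
        rw [h1]
        exact (gPLf.S1.El.N a3).one_mem
      · have h1 : (g2 * (g2⁻¹ * g1))⁻¹ * g1 = 1 := by group
        rw [h1]
        exact (gPLf.S1.El.N a3).one_mem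

end C715
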