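import Pool.Agent.Work.MP_c71557_gt.E.Ex0
import Pool.Agent.Work.MP_c71557_gt.E.ExF

/-!
# MP_c71557_gt: exactness of `0 → F0 → F1 → F2 → ℚ → 0`
-/

set_option autoImplicit false
set_option linter.unusedVariables false

noncomputable section

namespace C715

open CategoryTheory

private theorem exact_dual {M N P : Type} [AddCommGroup M] [Module ℚ M] [AddCommGroup N]
    [Module ℚ N] [AddCommGroup P] [Module ℚ P] (f : M →ₗ[ℚ] N) (g : N →ₗ[ℚ] P)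
    (h : ∀ x, g (f x) = 0)
    (hd : ∀ φ : N →ₗ[ℚ] ℚ, (∀ x, φ (f x) = 0) → ∃ ψ : P →ₗ[ℚ] ℚ, ∀ y, φ y = ψ (g y)) :
    Function.Exact f g := by
  intro y
  constructor
  · intro hy
    by_contra hn
    have hn' : y ∉ LinearMap.range f := hn
    obtain ⟨φ, h1, h2⟩ := Submodule.exists_le_ker_of_notMem hn'
    obtain ⟨ψ, hψ⟩ := hd φ (fun x => by
      have := h2 ⟨x, rfl⟩
      exact this)
    rw [hψ y, hy, map_zero] at h1
    exact h1 rfl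
  · rintro ⟨x, rfl⟩
    exact h x

namespace FGeo

variable (𝔾 : FGeo)

theorem ex1 (c : 𝔾.Str.Obj) : Function.Exact (𝔾.d0.f c) (𝔾.d1.f c) := by
  have hU := 𝔾.Ob_open c.o
  have hC := (𝔾.hU _ c.o.2.1).2.1
  have hne := (𝔾.hU _ c.o.2.1).2.2
  refine exact_dual _ _ (𝔾.d1_d0 c) (fun φ hφ => ?_)
  obtain ⟨f, hf⟩ := ex1F hU hC hne (A := c.o.1.2) (fun x => φ (𝔾.e1 c x))
    (fun x hx => (congrArg φ (𝔾.e1_NW c hx)).trans (map_zero φ))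
    (fun x => (congrArg φ (𝔾.e1_sw c x)).trans (map_neg φ _))
    (fun v hv => by
      have h1 := hφ (𝔾.e0 c ⟨v, hv⟩)
      rw [𝔾.d0_e0] at h1
      unfold s0 at h1
      rw [map_sum] at h1
      exact h1)
  refine ⟨𝔾.lift2 f, fun y => ?_⟩
  have h2 : φ = (𝔾.lift2 f).comp (𝔾.d1.f c) := by
    refine 𝔾.ext1 fun x => ?_
    rw [LinearMap.comp_apply, 𝔾.d1_e1, map_sub, 𝔾.lift2_e2, 𝔾.lift2_e2]
    exact hf x
  exact LinearMap.congr_fun h2 y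

theorem ex2 (c : 𝔾.Str.Obj) : Function.Exact (𝔾.d1.f c) (𝔾.dε.f c) := by
  have hU := 𝔾.Ob_open c.o
  have hC := (𝔾.hU _ c.o.2.1).2.1
  have hne := (𝔾.hU _ c.o.2.1).2.2
  obtain ⟨x0, hx0⟩ := exists_two _ hU hne c.o.1.2
  refine exact_dual (P := ℚ) _ _ (𝔾.dε_d1 c) (fun φ hφ => ?_)
  have h1 := ex2F hU hC hne (A := c.o.1.2) (fun x => φ (𝔾.e2 c x)) (fun x => by
    have h1 := hφ (𝔾.e1 c x)
    rw [𝔾.d1_e1, map_sub, sub_eq_zero] at h1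
    exact h1)
  refine ⟨LinearMap.toSpanSingleton ℚ ℚ (φ (𝔾.e2 c (c2 x0 hx0.1 hx0.2))), fun y => ?_⟩
  have h2 : φ = (LinearMap.toSpanSingleton ℚ ℚ (φ (𝔾.e2 c (c2 x0 hx0.1 hx0.2)))).comp
      (𝔾.dε.f c) := by
    refine 𝔾.ext2 fun x => ?_
    rw [LinearMap.comp_apply, 𝔾.dε_e2, LinearMap.toSpanSingleton_apply, one_smul]
    exact h1 x _
  exact LinearMap.congr_fun h2 y

theorem ex3 (c : 𝔾.Str.Obj) : Function.Surjective (𝔾.dε.f c) := by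
  have hU := 𝔾.Ob_open c.o
  have hne := (𝔾.hU _ c.o.2.1).2.2
  obtain ⟨x0, hx0⟩ := exists_two _ hU hne c.o.1.2
  intro (q : ℚ)
  refine ⟨q • 𝔾.e2 c (c2 x0 hx0.1 hx0.2), ?_⟩
  rw [map_smul, 𝔾.dε_e2]
  exact mul_one q

end FGeo

theorem exists_ex : ∃ (d0 : Coef.Hom gPLf.F0 gPLf.F1) (d1 : Coef.Hom gPLf.F1 gPLf.F2)
    (e : Coef.Hom gPLf.F2 (Coef.const gPLf.Str.Obj ℚ)),
    (∀ c, Function.Injective (d0.f c)) ∧ (∀ c, Function.Exact (d0.f c) (d1.f c)) ∧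
    (∀ c, Function.Exact (d1.f c) (e.f c)) ∧ ∀ c, Function.Surjective (e.f c) :=
  ⟨gPLf.d0, gPLf.d1, gPLf.dε, gPLf.d0_inj, gPLf.ex1, gPLf.ex2, gPLf.ex3⟩

end C715
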