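import Pool.Agent.Work.MP_c71557_gt.K.PhC
import Pool.Agent.Work.MP_c71557_gt.C.HfA

set_option autoImplicit false
set_option linter.unusedVariables false

/-!
# MP_c71557_gt, module K/Hf: homogeneous framed homeomorphisms (proved from C/HfA)
-/

noncomputable section

namespace C715

open Ang CategoryTheory

/-- the homogeneous framed homeomorphism with framed germ `F` at the origin -/
def hf : ↥Ft →* FGr where
  toFun F := (Cnf_ex F).choose
  map_one' := Cnf_ext (Cnf_ex 1).choose_spec.1 Cnf.one_mem (Cnf_ex 1).choose_spec.2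
  map_mul' F G := by
    refine Cnf_ext (Cnf_ex (F * G)).choose_spec.1
      (Cnf.mul_mem (Cnf_ex F).choose_spec.1 (Cnf_ex G).choose_spec.1) ?_
    rw [(Cnf_ex (F * G)).choose_spec.2, FGr.mul_ph, Cnf_zero (Cnf_ex G).choose_spec.1,
      (Cnf_ex F).choose_spec.2, (Cnf_ex G).choose_spec.2]

theorem hf_mem (F : ↥Ft) : hf F ∈ Cnf := (Cnf_ex F).choose_spec.1

theorem hf_ph (F : ↥Ft) : (hf F).ph 0 = F := (Cnf_ex F).choose_spec.2

theorem hf_g (F : ↥Ft) (θ t : ℝ) (ht : 0 ≤ t) : (hf F).g (t • dir θ) = t • vec F.1 θ := by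
  rw [Cnf_vec (hf_mem F) θ t ht, hf_ph]

theorem hf_uniq {a : FGr} (ha : a ∈ Cnf) : hf (a.ph 0) = a := Cnf_ext (hf_mem _) ha (hf_ph _)

theorem hf_inj : Function.Injective hf := fun F G h => by
  rw [← hf_ph F, ← hf_ph G, h]

end C715
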