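import Pool.Agent.Work.MP_c71557_gt.K.Defs

set_option autoImplicit false
set_option linter.unusedVariables false

/-!
# MP_c71557_gt, module K/PhC: the framing is constant on cells (M)

* `Ft_eq_of_vec`: `vec F = vec F'` everywhere gives `F.r = F'.r` (norms; `F.r > 0`) and
  `F.f s - F'.f s ∈ 2πℤ` for all `s`; this function is continuous, hence constant; it is `0` at `θ`.
  `XX.ext_ev`.  (`dir a = dir b` iff `a - b ∈ 2πℤ`: `Real.Angle` or
  `Complex.exp_eq_exp_iff_exists_int`.)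
* `Gf_exp`, `Gf_loc`: `a ∈ Gf` agrees with `b ∈ Gc` on the ball of radius `‖v‖ + 1`, `a.ph = gm b`
  there; `gm_spec.exp b v`, `gm_spec.loc b v θ` with `ε` shrunk to at most `1` (`‖dir θ‖ ≤ 1` in the
  sup norm, so `‖v + t • dir θ‖ ≤ ‖v‖ + 1`).
* `ph_seg`: `x ≠ y`.  Let `θ` be the direction of `y - x`: `y - x = L • dir θ`, `L > 0`.  For
  `u = x + τ (y - x)`, `τ ∈ [0,1]`, CLAIM: there is `ρ > 0` with `a.ph (u + t • dir θ) = a.ph u` for all
  `|t| ≤ ρ` with `u + t • dir θ ∈ segment ℝ x y`.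
  (a) TRANSLATION INVARIANCE: there is `ρ > 0` such that for `|t| ≤ ρ`, `‖z‖ ≤ ρ`,
  `u + t • dir θ ∈ segment`: `a.g (u + t • dir θ + z) - a.g (u + t • dir θ) = a.g (u + z) - a.g u`.
  Choose `ρ` so small that `ball u (3ρ) ⊆ U` and no line `l ∈ A` with `l.ev u ≠ 0` changes sign in it.
  For `l ∈ A` with `l.ev u = 0`: all points of the segment are in the cell of `u`, so `l.ev` vanishes on
  the segment and `l.lin (dir θ) = 0`; hence `l.ev (u + t • dir θ + z) = l.ev (u + z)`.  So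
  `u + z` and `u + t • dir θ + z` are in the same cell; let `(m, n)` be the affine map on it.  For
  `s ∈ (0, 1]` the point `u + s z` is in the same cell as `u + z` (signs), therefore
  `a.g (u + s z + t dir θ) - a.g (u + s z) = (m.lin (t dir θ), n.lin (t dir θ))` for `s ∈ (0,1]`, and by
  continuity for `s = 0`.  Compare `s = 1` and `s = 0`.
  (b) By `Gf_exp` at `u` and at `u' = u + t • dir θ` and (a): `vec (a.ph u').1 α = vec (a.ph u).1 α`
  for all `α`.
  (c) `Gf_loc` at `u` in the directions `θ` (for `t > 0`) and `θ + π` (for `t < 0`): for small `|t|` the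
  values `ev` of `a.ph u'` and `a.ph u` at this ray agree.  `Ft_eq_of_vec`.
  So `τ ↦ a.ph (x + τ (y - x))` is locally constant on `[0,1]`, hence constant
  (`IsPreconnected.constant`, or the supremum argument).
* `ph_cell`: the segment is in `U` (convex) and in the cell (each sign condition is convex).
* `ph_one_of_id`, `ph_affine`: `ph_seg` with `A = ∅`.
-/

noncomputable section

namespace C715

open Ang CategoryTheory
open scoped Topology

theorem Ft_eq_of_vec (F F' : ↥Ft) (h : ∀ θ, vec F.1 θ = vec F'.1 θ) (θ : ℝ)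
    (h' : F.1.ev θ = F'.1.ev θ) : F = F' := by
  have h1 : ∀ s, F.1.r s = F'.1.r s ∧ ∃ k : ℤ, F.1.f s = F'.1.f s + k * (2 * Real.pi) :=
    fun s => smul_dir_inj (F.1.pos s) (F'.1.pos s) (h s)
  have h2 := const_of_int (S := Set.univ) isPreconnected_univ (fun s => F.1.f s - F'.1.f s)
    ((F.1.continuous_f.sub F'.1.continuous_f).continuousOn) (fun s _ => by
      obtain ⟨k, hk⟩ := (h1 s).2
      exact ⟨k, by rw [hk]; ring⟩)
  have h3 : F.1.f θ = F'.1.f θ := congrArg Prod.fst h'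
  refine Subtype.ext (XX.ext_ev fun s => ?_)
  have h4 := h2 s trivial θ trivial
  refine Prod.ext ?_ (h1 s).1
  change F.1.f s = F'.1.f s
  change F.1.f s - F'.1.f s = F.1.f θ - F'.1.f θ at h4
  linarith

private theorem ray_le (v : P2) (θ t : ℝ) (h0 : 0 ≤ t) (h1 : t ≤ 1) :
    ‖v + t • dir θ‖ ≤ ‖v‖ + 1 := by
  refine (norm_add_le _ _).trans ?_
  have h2 : ‖t • dir θ‖ ≤ 1 := by
    rw [norm_smul, Real.norm_eq_abs, abs_of_nonneg h0]
    exact mul_le_one₀ h1 (norm_nonneg _) (dir_norm_le θ)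
  linarith

theorem Gf_exp {a : FGr} (ha : a ∈ Gf) (v : P2) : ∃ ε : ℝ, 0 < ε ∧ ∀ θ t : ℝ, 0 ≤ t → t ≤ ε →
    a.g (v + t • dir θ) = a.g v + t • vec (a.ph v).1 θ := by
  obtain ⟨b, hb⟩ := ha.2 (‖v‖ + 1)
  obtain ⟨ε, hε, h⟩ := gm_spec.exp b v
  refine ⟨min ε 1, lt_min hε one_pos, fun θ t h0 h1 => ?_⟩
  have h2 := hb (v + t • dir θ) (ray_le v θ t h0 (h1.trans (min_le_right _ _)))
  have h3 := hb v (by linarith)
  rw [h2.1, h3.1, h3.2]
  exact h θ t h0 (h1.trans (min_le_left _ _))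

theorem Gf_loc {a : FGr} (ha : a ∈ Gf) (v : P2) (θ : ℝ) : ∃ ε : ℝ, 0 < ε ∧ ∀ t : ℝ, 0 < t → t ≤ ε →
    (a.ph (v + t • dir θ)).1.ev θ = (a.ph v).1.ev θ := by
  obtain ⟨b, hb⟩ := ha.2 (‖v‖ + 1)
  obtain ⟨ε, hε, h⟩ := gm_spec.loc b v θ
  refine ⟨min ε 1, lt_min hε one_pos, fun t h0 h1 => ?_⟩
  have h2 := hb (v + t • dir θ) (ray_le v θ t h0.le (h1.trans (min_le_right _ _)))
  have h3 := hb v (by linarith)
  rw [h2.2, h3.2]
  exact (h t h0 (h1.trans (min_le_left _ _))).1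

private theorem trans_inv {a : FGr} (ha : a ∈ Gf) {U : Set P2} (hU : IsOpen U) (A : Finset Ln)
    (haff : ∀ x ∈ U, ∃ m n : L3, ∀ y ∈ cell U A x, a.g y = (m.ev y, n.ev y)) (u : P2) (hu : u ∈ U) :
    ∃ ρ : ℝ, 0 < ρ ∧ ∀ w z : P2, ‖w‖ < ρ → ‖z‖ < ρ → (∀ l ∈ A, l.ev u = 0 → l.lin w = 0) →
      a.g (u + w + z) - a.g (u + w) = a.g (u + z) - a.g u := by
  have h1 : ∀ᶠ y in 𝓝 u, y ∈ U ∧ ∀ l ∈ A, l.ev u ≠ 0 →
      SignType.sign (l.ev u) = SignType.sign (l.ev y) := by
    have h0 : ∀ᶠ y in 𝓝 u, y ∈ U := hU.mem_nhds hu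
    refine h0.and ?_
    rw [Filter.eventually_all_finset]
    intro l hl
    by_cases h : l.ev u = 0
    · exact Filter.Eventually.of_forall fun y h' => absurd h h'
    · filter_upwards [l.sign_nhds h] with y hy _
      exact hy
  obtain ⟨r, hr, h2⟩ := Metric.eventually_nhds_iff.1 h1
  refine ⟨r / 2, half_pos hr, fun w z hw hz hl => ?_⟩
  have hcont : Continuous a.g := ha.1.1.cont
  have near : ∀ (c s : ℝ), 0 ≤ c → c ≤ 1 → 0 ≤ s → s ≤ 1 → dist (u + c • w + s • z) u < r := by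
    intro c s hc0 hc1 hs0 hs1
    have e1 : u + c • w + s • z - u = c • w + s • z := by abel
    rw [dist_eq_norm, e1]
    have e2 : ‖c • w‖ ≤ ‖w‖ := by
      rw [norm_smul, Real.norm_eq_abs, abs_of_nonneg hc0]
      exact mul_le_of_le_one_left (norm_nonneg _) hc1
    have e3 : ‖s • z‖ ≤ ‖z‖ := by
      rw [norm_smul, Real.norm_eq_abs, abs_of_nonneg hs0]
      exact mul_le_of_le_one_left (norm_nonneg _) hs1
    have e4 := norm_add_le (c • w) (s • z)
    linarith
  have key : ∀ (c s : ℝ), 0 ≤ c → c ≤ 1 → 0 < s → s ≤ 1 →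
      u + c • w + s • z ∈ cell U A (u + z) := by
    intro c s hc0 hc1 hs0 hs1
    refine ⟨(h2 (near c s hc0 hc1 hs0.le hs1)).1, fun l hlA => ?_⟩
    have e0 : u + (0 : ℝ) • w + (1 : ℝ) • z = u + z := by rw [zero_smul, one_smul, add_zero]
    by_cases h : l.ev u = 0
    · have e1 : l.ev (u + c • w + s • z) = s * l.lin z := by
        have e2 := l.ev_sub u (u + c • w + s • z)
        have e3 : u + c • w + s • z - u = c • w + s • z := by abel
        rw [e3, h, sub_zero] at e2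
        rw [e2]
        have e4 := hl l hlA h
        have e5 : l.lin (c • w + s • z) = c * l.lin w + s * l.lin z := by
          simp only [Ln.lin, Prod.fst_add, Prod.snd_add, Prod.smul_fst, Prod.smul_snd, smul_eq_mul]
          ring
        rw [e5, e4, mul_zero, zero_add]
      have e6 : l.ev (u + z) = l.lin z := by
        have e2 := l.ev_sub u (u + z)
        rw [h, sub_zero, add_sub_cancel_left] at e2
        exact e2
      rw [e1, e6]
      rw [sign_mul, sign_pos hs0, one_mul]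
    · have e1 := (h2 (near c s hc0 hc1 hs0.le hs1)).2 l hlA h
      have e2 := (h2 (near 0 1 le_rfl zero_le_one zero_le_one le_rfl)).2 l hlA h
      rw [e0] at e2
      rw [← e1, ← e2]
  have hmem : u + z ∈ U := by
    have e := (key 0 1 le_rfl zero_le_one one_pos le_rfl).1
    rwa [zero_smul, one_smul, add_zero] at e
  obtain ⟨m, n, hmn⟩ := haff (u + z) hmem
  let D : ℝ → P2 := fun s => a.g (u + w + s • z) - a.g (u + s • z)
  have hD : Continuous D := by
    refine (hcont.comp ?_).sub (hcont.comp ?_)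
    · fun_prop
    · fun_prop
  have hval : ∀ s, 0 < s → s ≤ 1 → D s = (m.lin w, n.lin w) := by
    intro s hs0 hs1
    have e1 := hmn _ (key 1 s zero_le_one le_rfl hs0 hs1)
    have e2 := hmn _ (key 0 s le_rfl zero_le_one hs0 hs1)
    rw [one_smul] at e1
    rw [zero_smul, add_zero] at e2
    change a.g (u + w + s • z) - a.g (u + s • z) = _
    rw [e1, e2]
    have e3 : u + w + s • z - (u + s • z) = w := by abel
    refine Prod.ext ?_ ?_
    · change m.ev _ - m.ev _ = m.lin w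
      rw [L3.ev_sub', e3]
    · change n.ev _ - n.ev _ = n.lin w
      rw [L3.ev_sub', e3]
  have h0 : (0 : ℝ) ∈ closure (Set.Ioc (0 : ℝ) 1) := by
    rw [closure_Ioc zero_ne_one]
    exact ⟨le_rfl, zero_le_one⟩
  have hcl : IsClosed {s | D s = (m.lin w, n.lin w)} := isClosed_eq hD continuous_const
  have h3 : D 0 = (m.lin w, n.lin w) :=
    hcl.closure_subset_iff.2 (fun s hs => hval s hs.1 hs.2) h0
  have h4 : D 1 = (m.lin w, n.lin w) := hval 1 one_pos le_rfl
  have h5 : a.g (u + w) - a.g u = a.g (u + w + z) - a.g (u + z) := by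
    have h6 := h3.trans h4.symm
    change a.g (u + w + (0 : ℝ) • z) - a.g (u + (0 : ℝ) • z) =
      a.g (u + w + (1 : ℝ) • z) - a.g (u + (1 : ℝ) • z) at h6
    rwa [zero_smul, add_zero, add_zero, one_smul] at h6
  rw [sub_eq_sub_iff_add_eq_add] at h5 ⊢
  rw [← h5, add_comm]

private theorem ph_vec {a : FGr} (ha : a ∈ Gf) {u u' : P2} {ρ : ℝ} (hρ : 0 < ρ)
    (h : ∀ z : P2, ‖z‖ < ρ → a.g (u' + z) - a.g u' = a.g (u + z) - a.g u) (α : ℝ) :
    vec (a.ph u').1 α = vec (a.ph u).1 α := by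
  obtain ⟨e1, he1, h1⟩ := Gf_exp ha u
  obtain ⟨e2, he2, h2⟩ := Gf_exp ha u'
  let s : ℝ := min (min e1 e2) (ρ / 2)
  have hs : 0 < s := lt_min (lt_min he1 he2) (half_pos hρ)
  have hs1 : s ≤ e1 := (min_le_left _ _).trans (min_le_left _ _)
  have hs2 : s ≤ e2 := (min_le_left _ _).trans (min_le_right _ _)
  have hs3 : s ≤ ρ / 2 := min_le_right _ _
  have hz : ‖s • dir α‖ < ρ := by
    rw [norm_smul, Real.norm_eq_abs, abs_of_pos hs]
    have h4 := mul_le_mul_of_nonneg_left (dir_norm_le α) hs.le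
    rw [mul_one] at h4
    linarith
  have h3 := h (s • dir α) hz
  rw [h1 α s hs.le hs1, h2 α s hs.le hs2, add_sub_cancel_left, add_sub_cancel_left] at h3
  exact smul_right_injective P2 hs.ne' h3

theorem ph_seg {a : FGr} (ha : a ∈ Gf) {U : Set P2} (hU : IsOpen U) (A : Finset Ln)
    (haff : ∀ x ∈ U, ∃ m n : L3, ∀ y ∈ cell U A x, a.g y = (m.ev y, n.ev y)) (x y : P2)
    (hs : ∀ z ∈ segment ℝ x y, z ∈ U ∧ Same A x z) : a.ph x = a.ph y := by
  by_cases hxy : x = y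
  · rw [hxy]
  obtain ⟨L, θ, hL, -, -, hd⟩ := exists_dir (y - x) (sub_ne_zero.2 fun e => hxy e.symm) 0
  have hseg : ∀ τ : ℝ, 0 ≤ τ → τ ≤ 1 → x + τ • (y - x) ∈ segment ℝ x y := by
    intro τ h0 h1
    rw [segment_eq_image']
    exact ⟨τ, ⟨h0, h1⟩, rfl⟩
  let F : Set.Icc (0 : ℝ) 1 → ↥Ft := fun τ => a.ph (x + τ.1 • (y - x))
  have hF : IsLocallyConstant F := by
    rw [IsLocallyConstant.iff_eventually_eq]
    intro τ
    obtain ⟨hu, hsame⟩ := hs _ (hseg τ.1 τ.2.1 τ.2.2)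
    obtain ⟨ρ, hρ, h1⟩ := trans_inv ha hU A haff _ hu
    obtain ⟨e1, he1, h2⟩ := Gf_loc ha (x + τ.1 • (y - x)) θ
    obtain ⟨e2, he2, h3⟩ := Gf_loc ha (x + τ.1 • (y - x)) (θ + Real.pi)
    have hev : ∀ᶠ t in 𝓝 τ, |t.1 - τ.1| * L < min ρ (min e1 e2) := by
      have hc : Continuous fun t : Set.Icc (0 : ℝ) 1 => |t.1 - τ.1| * L := by fun_prop
      have h4 := hc.tendsto τ
      rw [sub_self, abs_zero, zero_mul] at h4
      exact h4.eventually (gt_mem_nhds (lt_min hρ (lt_min he1 he2)))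
    filter_upwards [hev] with t ht
    have ht1 := ht.trans_le (min_le_left _ _)
    have ht2 := ht.trans_le ((min_le_right _ _).trans (min_le_left _ _))
    have ht3 := ht.trans_le ((min_le_right _ _).trans (min_le_right _ _))
    have e0 : x + t.1 • (y - x) = x + τ.1 • (y - x) + ((t.1 - τ.1) * L) • dir θ := by
      rw [mul_smul, ← hd]
      module
    have hlin : ∀ l ∈ A, l.ev (x + τ.1 • (y - x)) = 0 → l.lin (((t.1 - τ.1) * L) • dir θ) = 0 := by
      intro l hl h5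
      have h6 := hsame l hl
      rw [h5, sign_zero] at h6
      have h7 : l.ev x = 0 := sign_eq_zero_iff.1 h6
      have h8 := (hs y (right_mem_segment ℝ x y)).2 l hl
      rw [h6] at h8
      have h9 : l.ev y = 0 := sign_eq_zero_iff.1 h8.symm
      have h10 := l.ev_sub x y
      rw [h7, h9, sub_zero, hd] at h10
      rw [Ln.lin_smul] at h10 ⊢
      rcases mul_eq_zero.1 h10.symm with h11 | h11
      · exact absurd h11 hL.ne'
      · rw [h11, mul_zero]
    have hnorm : ‖((t.1 - τ.1) * L) • dir θ‖ < ρ := by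
      rw [norm_smul, Real.norm_eq_abs, abs_mul, abs_of_pos hL]
      have h4 := mul_le_mul_of_nonneg_left (dir_norm_le θ)
        (mul_nonneg (abs_nonneg (t.1 - τ.1)) hL.le)
      rw [mul_one] at h4
      linarith
    have hvec := ph_vec ha (u := x + τ.1 • (y - x))
      (u' := x + τ.1 • (y - x) + ((t.1 - τ.1) * L) • dir θ) hρ
      (fun z hz => h1 _ z hnorm hz hlin)
    change a.ph (x + t.1 • (y - x)) = a.ph (x + τ.1 • (y - x))
    rw [e0]
    rcases lt_trichotomy (t.1 - τ.1) 0 with h | h | h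
    · refine Ft_eq_of_vec _ _ hvec (θ + Real.pi) ?_
      have h4 := h3 (|t.1 - τ.1| * L) (mul_pos (abs_pos.2 h.ne) hL) ht3.le
      rw [dir_pi, abs_of_neg h] at h4
      have h5 : (-(t.1 - τ.1) * L) • -dir θ = ((t.1 - τ.1) * L) • dir θ := by
        rw [smul_neg, ← neg_smul]
        congr 1
        ring
      rwa [h5] at h4
    · rw [h, zero_mul, zero_smul, add_zero]
    · refine Ft_eq_of_vec _ _ hvec θ ?_
      have h4 := h2 (|t.1 - τ.1| * L) (mul_pos (abs_pos.2 h.ne') hL) ht2.le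
      rwa [abs_of_pos h] at h4
  have h1 := hF.apply_eq_of_preconnectedSpace ⟨0, le_rfl, zero_le_one⟩ ⟨1, zero_le_one, le_rfl⟩
  change a.ph (x + (0 : ℝ) • (y - x)) = a.ph (x + (1 : ℝ) • (y - x)) at h1
  rwa [zero_smul, add_zero, one_smul, add_sub_cancel] at h1

theorem FGeo.ph_cell (𝔾 : FGeo) {p q : 𝔾.Str.Ob} {a : FGr} (h : 𝔾.Str.Adm p a q) {x y : P2}
    (hx : x ∈ p.1.1) (hy : y ∈ p.1.1) (e : Same p.1.2 x y) : a.ph x = a.ph y := by
  refine ph_seg (𝔾.hG h.1) (𝔾.Ob_open p) p.1.2 h.2.2.2 x y fun z hz => ?_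
  refine ⟨(𝔾.hU _ p.2.1).2.1.segment_subset hx hy hz, fun l hl => ?_⟩
  obtain ⟨c, d, hc, hd, hcd, rfl⟩ := hz
  have h1 : l.ev (c • x + d • y) = c * l.ev x + d * l.ev y := by
    simp only [Ln.ev, Prod.fst_add, Prod.snd_add, Prod.smul_fst, Prod.smul_snd, smul_eq_mul]
    linear_combination (-l.c) * hcd
  have h2 := e l hl
  rw [h1]
  rcases lt_trichotomy (l.ev x) 0 with h3 | h3 | h3
  · rw [sign_neg h3] at h2 ⊢
    have h4 : l.ev y < 0 := sign_eq_neg_one_iff.1 h2.symm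
    rw [eq_comm, sign_eq_neg_one_iff]
    rcases hc.eq_or_lt with h5 | h5
    · have h6 : d = 1 := by linarith
      rw [← h5, h6]
      linarith
    · have h7 := mul_neg_of_pos_of_neg h5 h3
      have h8 := mul_nonpos_of_nonneg_of_nonpos hd h4.le
      linarith
  · rw [h3, sign_zero] at h2
    have h4 : l.ev y = 0 := sign_eq_zero_iff.1 h2.symm
    rw [h3, h4, mul_zero, mul_zero, add_zero]
  · rw [sign_pos h3] at h2 ⊢
    have h4 : 0 < l.ev y := sign_eq_one_iff.1 h2.symm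
    rw [eq_comm, sign_eq_one_iff]
    rcases hc.eq_or_lt with h5 | h5
    · have h6 : d = 1 := by linarith
      rw [← h5, h6]
      linarith
    · have h7 := mul_pos h5 h3
      have h8 := mul_nonneg hd h4.le
      linarith

theorem ph_one_of_id {a : FGr} (ha : a ∈ Gf) {V : Set P2} (hV : IsOpen V) (hc : Convex ℝ V)
    (h : ∀ x ∈ V, a.g x = x) {x0 : P2} (hx0 : x0 ∈ V) (h1 : a.ph x0 = 1) (x : P2) (hx : x ∈ V) :
    a.ph x = 1 := by
  rw [← h1, eq_comm]
  refine ph_seg ha hV ∅ (fun y hy => ⟨⟨1, 0, 0⟩, ⟨0, 1, 0⟩, fun z hz => ?_⟩) x0 x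
    fun z hz => ⟨hc.segment_subset hx0 hx hz, fun l hl => absurd hl (Finset.notMem_empty l)⟩
  rw [h z hz.1]
  simp [L3.ev]

theorem ph_affine {a : FGr} (ha : a ∈ Gf) (h : IsAff a.g) (x y : P2) : a.ph x = a.ph y := by
  obtain ⟨m, n, h1⟩ := h
  exact ph_seg ha isOpen_univ ∅ (fun u _ => ⟨m, n, fun z _ => h1 z⟩) x y
    fun z _ => ⟨trivial, fun l hl => absurd hl (Finset.notMem_empty l)⟩

end C715
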