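import Pool.Agent.Work.MP_c71557_gt.K.Trl
import Pool.Agent.Work.MP_c71557_gt.H.TransL

set_option autoImplicit false
set_option linter.unusedVariables false

/-!
# MP_c71557_gt, module K/TrC: killing translations in groups of framed homeomorphisms (S-M)

`trans_hiso F N L` (H/TransL) with `N = F ⊓ {trl v}` (a subgroup: `trl_mul`, `trl_inv`), `z = hom2`.
* `hn`: hypothesis `h1`.  `hcomm`: `trl_mul`, `add_comm`.  `htf`: `(trl v)^m = trl (m • v)`, `trl_inj`.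
  `hz`: `hom2_trl`.
* `hzc`: `f ∈ F`; by `h3` `f = l * n`, `l ∈ L`, `n ∈ N` (`n = l⁻¹ f`); `hom2` commutes with `l ∈ Cnf`
  (`hom2_comm`), so `z⁻¹ f⁻¹ z f = z⁻¹ n⁻¹ l⁻¹ z l n = (z⁻¹ n⁻¹ z) n`, with `n = trl v`:
  `z⁻¹ (trl v)⁻¹ z = trl (-(v/2))` (from `hom2_trl`: `z trl (v/2) z⁻¹ = trl v`), the product is
  `trl (v/2)`; it is in `F` because `z, n ∈ F`.
* `h1` of `trans_hiso`: `l = trl v ∈ Cnf` fixes `0` (`Cnf_zero`), so `v = 0`, `trl_zero`.
-/

noncomputable section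

namespace C715

open Ang CategoryTheory

private theorem half_add (v : P2) : trl ((1/2 : ℝ) • v) * trl ((1/2 : ℝ) • v) = trl v := by
  rw [trl_mul, ← add_smul]
  norm_num

private theorem trl_pow (v : P2) (m : ℕ) : (trl v) ^ m = trl (m • v) := by
  induction m with
  | zero => rw [pow_zero, zero_smul, trl_zero]
  | succ m ih => rw [pow_succ, ih, trl_mul, add_smul, one_smul]

/-- the subgroup of the translations in `F` -/
private def trs (F : Subgroup FGr) : Subgroup FGr where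
  carrier := {a | a ∈ F ∧ ∃ v, a = trl v}
  mul_mem' := by
    rintro a b ⟨ha, v, rfl⟩ ⟨hb, w, rfl⟩
    exact ⟨F.mul_mem ha hb, v + w, trl_mul v w⟩
  one_mem' := ⟨F.one_mem, 0, trl_zero.symm⟩
  inv_mem' := by
    rintro a ⟨ha, v, rfl⟩
    exact ⟨F.inv_mem ha, -v, trl_inv v⟩

theorem tr_common (F L : Subgroup FGr) (hL : L ≤ F) (hLC : L ≤ Cnf) (h2 : hom2 ∈ F)
    (h1 : ∀ g ∈ F, ∀ v : P2, trl v ∈ F → ∃ w : P2, g⁻¹ * trl v * g = trl w)
    (h3 : ∀ f ∈ F, ∃ l ∈ L, ∃ w : P2, l⁻¹ * f = trl w) : HIso (ActCat.sgIncl hL) := by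
  refine ActCat.trans_hiso F (trs F) L (fun a ha => ha.1) ?_ hom2 h2 ?_ ?_ ?_ ?_ hL ?_ ?_
  · rintro g hg a ⟨ha, v, rfl⟩
    obtain ⟨w, hw⟩ := h1 g hg v ha
    exact ⟨F.mul_mem (F.mul_mem (F.inv_mem hg) ha) hg, w, hw⟩
  · rintro a ⟨-, v, rfl⟩ b ⟨-, w, rfl⟩
    rw [trl_mul, trl_mul, add_comm]
  · rintro a ⟨-, v, rfl⟩ m hm h
    rw [trl_pow] at h
    have h4 : m • v = 0 := trl_inj (h.trans trl_zero.symm)
    have h5 : v = 0 := by
      rcases smul_eq_zero.1 h4 with h | h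
      · omega
      · exact h
    rw [h5, trl_zero]
  · rintro a ⟨-, v, rfl⟩
    exact hom2_trl v
  · intro f hf
    obtain ⟨l, hl, w, hw⟩ := h3 f hf
    refine ⟨F.mul_mem (F.mul_mem (F.mul_mem (F.inv_mem h2) (F.inv_mem hf)) h2) hf,
      (1/2 : ℝ) • w, ?_⟩
    have e1 : f = l * trl w := by rw [← hw, mul_inv_cancel_left]
    have e2 := hom2_comm (hLC hl)
    have e3 := hom2_trl ((1/2 : ℝ) • w)
    rw [half_add] at e3
    have e4 : hom2⁻¹ * (trl w)⁻¹ * hom2 = (trl ((1/2 : ℝ) • w))⁻¹ := by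
      rw [← e3]
      group
    have e5 : l⁻¹ * hom2 * l = hom2 := by
      rw [mul_assoc, e2, inv_mul_cancel_left]
    rw [e1]
    calc hom2⁻¹ * (l * trl w)⁻¹ * hom2 * (l * trl w)
        = hom2⁻¹ * (trl w)⁻¹ * (l⁻¹ * hom2 * l) * trl w := by group
      _ = trl ((1/2 : ℝ) • w) := by
        rw [e5, e4, ← half_add w]
        group
  · rintro l hl ⟨-, v, rfl⟩
    have h4 := Cnf_zero (hLC hl)
    rw [trl_g, zero_add] at h4
    rw [h4, trl_zero]
  · intro f hf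
    obtain ⟨l, hl, w, hw⟩ := h3 f hf
    exact ⟨l, hl, F.mul_mem (F.inv_mem (hL hl)) hf, w, hw⟩

end C715
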